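import Pool.Agent.Q57.MC.Defs
import Pool.Agent.Q49.CO.Main

set_option autoImplicit false

/-! # The classes of germs and of global families -/

namespace Pool.Agent.Q57.MD

open MvPolynomial
open Pool.Agent.W749.JI (fam JInd)
open Pool.Agent.Y229 (IsLocalBI)
open Pool.Agent.Q57.MC (Chart mulF hypF)

/-- The families `f_j(x)`, `g_k(y)` in disjoint sets of variables: they generate the sum of the two
ideals. -/
noncomputable def sumF {n r n' r' : ℕ} (f : Fin r → MvPolynomial (Fin n) ℂ)
    (g : Fin r' → MvPolynomial (Fin n') ℂ) (k : Fin (r + r')) : MvPolynomial (Fin (n + n')) ℂ :=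
  Sum.elim (fun j => rename (Fin.castAdd n') (f j)) (fun j => rename (Fin.natAdd n) (g j))
    (finSumFinEquiv.symm k)

/-- The relations between the derivatives `∂_i F`, `i ∈ T`, are the trivial (Koszul) ones, up to
multiples by polynomials `u ≠ 0` in the variables `x_i`, `i ∉ T`. For a form `F` in all the variables
this says that the origin is an isolated singularity of `F`, and for a form in the variables `x_i`,
`i ∈ T`, it follows if this is so for general values of the other variables. -/
def OnlyTrivial {σ : Type} (T : Finset σ) (F : MvPolynomial σ ℂ) : Prop :=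
  ∀ a : σ → MvPolynomial σ ℂ, ∑ i ∈ T, a i * pderiv i F = 0 →
    ∃ (u : MvPolynomial σ ℂ) (c : σ → σ → MvPolynomial σ ℂ), u ≠ 0 ∧ (∀ i ∈ T, u.degreeOf i = 0) ∧
      (∀ i j, c i j = - c j i) ∧ ∀ i ∈ T, u * a i = ∑ j ∈ T, c i j * pderiv j F

/-- The polynomials `f_j` are forms of the same degree `d > 0` in the variables `x_i`, `i ∈ T`
(with polynomials in the other variables as coefficients). Moreover
* `|T|` of them are algebraically independent over the other variables, or
* `d ≥ 2` and the relations between the derivatives of some `F = ∑ λ_j f_j ≠ 0` are trivial, or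
* `- |T| / d` is a root of all the polynomials which satisfy a local functional equation of the
  `f_j` at the origin.
(The first two conditions imply the last one.) -/
def IsForm {n r : ℕ} (T : Finset (Fin n)) (d : ℕ) (f : Fin r → MvPolynomial (Fin n) ℂ) : Prop :=
  T.Nonempty ∧ 0 < d ∧
    (∀ j, (f j).IsWeightedHomogeneous (fun i => if i ∈ T then 1 else 0) d) ∧
    ((∃ e : T → Fin r, (Matrix.of fun s t : T => pderiv (s : Fin n) (f (e t))).det ≠ 0) ∨
      (∃ lam : Fin r → ℂ, 2 ≤ d ∧ ∑ j, C (lam j) * f j ≠ 0 ∧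
        OnlyTrivial T (∑ j, C (lam j) * f j)) ∨
      ((∃ j, f j ≠ 0) ∧ ∀ b, IsLocalBI f b → b.eval (-(T.card : ℂ) / d) = 0))

/-- The classes of germs at the origin: `Tower false` is the large class, `Tower true` is the
smaller one for which sums of ideals in disjoint variables are defined. -/
inductive Tower : Bool → (n r : ℕ) → (Fin r → MvPolynomial (Fin n) ℂ) → Prop
  /-- `f_i = ∑_(π j = i) c_j x ^ (m_j)` with linearly independent vectors `(m_j, e_(π j))` -/
  | sparse {n r k : ℕ} (hk : 0 < k) (π : Fin k → Fin r) (m : Fin k → Fin n → ℕ) (c : Fin k → ℂ)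
      (hm : JInd π m) (hc : ∀ j, c j ≠ 0) : Tower false n r (fam π m c)
  /-- the germs of the small class -/
  | weak {n r : ℕ} (f : Fin r → MvPolynomial (Fin n) ℂ) (hf : Tower true n r f) : Tower false n r f
  /-- forms `f_j` of degree `d` in the variables `x_i`, `i ∈ T`, such that every point `p ≠ 0` with
  `f_j(p) = 0` for all `j` and `p_i = 0` for `i ∉ T` is in a chart of a finite set -/
  | cone {b : Bool} {n r : ℕ} (f : Fin r → MvPolynomial (Fin n) ℂ) (T : Finset (Fin n)) (d : ℕ)
      (hf : IsForm T d f) (S : Finset (Chart (Fin n))) (hS : ∀ A ∈ S, A.Fits f)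
      (hT : ∀ A ∈ S, Tower b A.c A.r A.h)
      (hp : ∀ p : Fin n → ℂ, p ≠ 0 → (∀ i ∉ T, p i = 0) → (∀ j, eval p (f j) = 0) →
        ∃ A ∈ S, A.Mem p) : Tower b n r f
  /-- products of ideals in disjoint sets of variables -/
  | mul {b : Bool} {n r n' r' : ℕ} (f : Fin r → MvPolynomial (Fin n) ℂ)
      (g : Fin r' → MvPolynomial (Fin n') ℂ) (hf : Tower b n r f) (hg : Tower b n' r' g) :
      Tower b (n + n') (r * r') (mulF f g)
  /-- sums of ideals in disjoint sets of variables -/
  | sum {n r n' r' : ℕ} (f : Fin r → MvPolynomial (Fin n) ℂ)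
      (g : Fin r' → MvPolynomial (Fin n') ℂ) (hf : Tower true n r f) (hg : Tower true n' r' g) :
      Tower true (n + n') (r + r') (sumF f g)
  /-- the hypersurface `∑ y_j f_j = 0` -/
  | hyp {b : Bool} {n r : ℕ} (f : Fin r → MvPolynomial (Fin n) ℂ) (hf : Tower b n r f) :
      Tower b (n + r) 1 fun _ => hypF f
  /-- in `ℂ[[x]]` the `f_j` generate the same ideal as the `h_k(g_1, …, g_c)`, where `g_1, …, g_c`
  are a part of a system of formal coordinates -/
  | formal {b : Bool} {n r c l : ℕ} (f : Fin r → MvPolynomial (Fin n) ℂ)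
      (h : Fin l → MvPolynomial (Fin c) ℂ) (g : Fin c → MvPowerSeries (Fin n) ℂ)
      (s : Fin c → Fin n) (hg : ∀ t, MvPowerSeries.constantCoeff (g t) = 0)
      (hd : (Matrix.of fun u t => MvPowerSeries.coeff (Finsupp.single (s u) 1) (g t)).det ≠ 0)
      (hs : Ideal.span (Set.range fun j =>
          ((f j : MvPolynomial (Fin n) ℂ) : MvPowerSeries (Fin n) ℂ)) =
        Ideal.span (Set.range fun k => aeval g (h k))) (hh : Tower b c l h) : Tower b n r f

/-- The classes of families of polynomials on `ℂ ^ n`. -/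
inductive Glob : Bool → (n r : ℕ) → (Fin r → MvPolynomial (Fin n) ℂ) → Prop
  /-- every common zero of the `f_j` is in a chart of a finite set -/
  | charts {b : Bool} {n r : ℕ} (f : Fin r → MvPolynomial (Fin n) ℂ) (S : Finset (Chart (Fin n)))
      (hS : ∀ A ∈ S, A.Fits f) (hT : ∀ A ∈ S, Tower b A.c A.r A.h)
      (hp : ∀ p : Fin n → ℂ, (∀ j, eval p (f j) = 0) → ∃ A ∈ S, A.Mem p) : Glob b n r f
  /-- forms `f_j` of degree `d` in the variables `x_i`, `i ∈ T`, such that every common zero `p` with
  `p_i ≠ 0` for some `i ∈ T` is in a chart of a finite set -/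
  | cone {b : Bool} {n r : ℕ} (f : Fin r → MvPolynomial (Fin n) ℂ) (T : Finset (Fin n)) (d : ℕ)
      (hf : IsForm T d f) (S : Finset (Chart (Fin n))) (hS : ∀ A ∈ S, A.Fits f)
      (hT : ∀ A ∈ S, Tower b A.c A.r A.h)
      (hp : ∀ p : Fin n → ℂ, (∃ i ∈ T, p i ≠ 0) → (∀ j, eval p (f j) = 0) →
        ∃ A ∈ S, A.Mem p) : Glob b n r f
  /-- the families of the small class -/
  | weak {n r : ℕ} (f : Fin r → MvPolynomial (Fin n) ℂ) (hf : Glob true n r f) : Glob false n r f
  /-- products of ideals in disjoint sets of variables -/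
  | mul {b : Bool} {n r n' r' : ℕ} (f : Fin r → MvPolynomial (Fin n) ℂ)
      (g : Fin r' → MvPolynomial (Fin n') ℂ) (hf : Glob b n r f) (hg : Glob b n' r' g) :
      Glob b (n + n') (r * r') (mulF f g)
  /-- sums of ideals in disjoint sets of variables -/
  | sum {n r n' r' : ℕ} (f : Fin r → MvPolynomial (Fin n) ℂ)
      (g : Fin r' → MvPolynomial (Fin n') ℂ) (hf : Glob true n r f) (hg : Glob true n' r' g) :
      Glob true (n + n') (r + r') (sumF f g)
  /-- the hypersurface `∑ y_j f_j = 0` -/
  | hyp {b : Bool} {n r : ℕ} (f : Fin r → MvPolynomial (Fin n) ℂ) (hf : Glob b n r f) :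
      Glob b (n + r) 1 fun _ => hypF f

end Pool.Agent.Q57.MD
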