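import Pool.Agent.Q57.MD.NonEx2
import Pool.Agent.Q57.MD.Defs

set_option autoImplicit false
set_option linter.unusedSectionVars false
set_option linter.unusedVariables false

/-! # The root `-|T| / d` of forms with only the trivial relations between the derivatives -/

namespace Pool.Agent.Q57.MD

open MvPolynomial
open Pool.Agent.W574.LM (IsLocEq)
open Pool.Agent.Y229 (SF sf_of_local exists_fe)

variable {σ : Type} [Fintype σ] [DecidableEq σ]

/-- the components -/
noncomputable def cmp (T : Finset σ) (w : ℕ) : MvPolynomial σ ℂ →ₗ[ℂ] MvPolynomial σ ℂ :=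
  weightedHomogeneousComponent (fun i => if i ∈ T then 1 else 0) w

theorem HT_cmp (T : Finset σ) (w : ℕ) (P : MvPolynomial σ ℂ) : HT T (cmp T w P) w :=
  weightedHomogeneousComponent_isWeightedHomogeneous _ _

theorem cmp_same {T : Finset σ} {w : ℕ} {P : MvPolynomial σ ℂ} (h : HT T P w) : cmp T w P = P :=
  weightedHomogeneousComponent_eq_self h

theorem cmp_mul {T : Finset σ} {d : ℕ} {F : MvPolynomial σ ℂ} (hF : HT T F d) (w v : ℕ)
    (hv : v = w + d) (P : MvPolynomial σ ℂ) : cmp T v (F * P) = F * cmp T w P := by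
  subst hv
  induction P using MvPolynomial.induction_on' with
  | monomial m c =>
    set e := Finsupp.weight (fun i => if i ∈ T then 1 else 0) m with he
    have h1 : HT T (monomial m c : MvPolynomial σ ℂ) e := isWeightedHomogeneous_monomial _ _ _ rfl
    have h2 : HT T (F * monomial m c) (d + e) := HT_mul hF h1
    by_cases h : e = w
    · rw [← h, cmp_same h1, add_comm e d, cmp_same h2]
    · have h3 : cmp T w (monomial m c : MvPolynomial σ ℂ) = 0 :=
        IsWeightedHomogeneous.weightedHomogeneousComponent_ne w h1 (Ne.symm h)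
      have h4 : cmp T (w + d) (F * monomial m c) = 0 :=
        IsWeightedHomogeneous.weightedHomogeneousComponent_ne (w + d) h2 (by omega)
      rw [h3, h4, mul_zero]
  | add p q hp hq => rw [mul_add, map_add, map_add, hp, hq, mul_add]

theorem cmp_pderiv {T : Finset σ} (i : σ) (hi : i ∈ T) (w : ℕ) (P : MvPolynomial σ ℂ) :
    cmp T w (pderiv i P) = pderiv i (cmp T (w + 1) P) := by
  ext m
  rw [cmp, cmp, coeff_weightedHomogeneousComponent, coeff_pderiv, coeff_pderiv,
    coeff_weightedHomogeneousComponent, wt_add_single', if_pos hi]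
  by_cases h : Finsupp.weight (fun i => if i ∈ T then 1 else 0) m = w
  · rw [if_pos h, if_pos (by rw [h])]
  · rw [if_neg h, if_neg (by omega), zero_mul]

theorem HT_of_degreeOf {T : Finset σ} {u : MvPolynomial σ ℂ} (hu : ∀ i ∈ T, u.degreeOf i = 0) :
    HT T u 0 := by
  intro m hm
  rw [Finsupp.weight_apply, Finsupp.sum]
  refine Finset.sum_eq_zero fun i _ => ?_
  by_cases hi : i ∈ T
  · have h1 := monomial_le_degreeOf i (mem_support_iff.2 hm)
    rw [hu i hi] at h1
    rw [Nat.le_zero.1 h1, zero_smul]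
  · rw [if_neg hi, smul_zero]

theorem pderiv_HT0 {T : Finset σ} {u : MvPolynomial σ ℂ} (hu : HT T u 0) (i : σ) (hi : i ∈ T) :
    pderiv i u = 0 := by
  ext m
  rw [coeff_pderiv, coeff_zero]
  by_contra h
  have h1 := hu (left_ne_zero_of_mul h)
  rw [wt_add_single', if_pos hi] at h1
  omega

theorem set_zero {T : Finset σ} {P : MvPolynomial σ ℂ} {d : ℕ} (hP : HT T P d) :
    aeval (fun i => if i ∈ T then 0 * X i else X i) P = (0 : MvPolynomial σ ℂ) ^ d * P := by
  have h := aeval_HT hP (fun i => (X i : MvPolynomial σ ℂ)) (0 : MvPolynomial σ ℂ)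
  rw [h]
  congr 1
  exact aeval_X_left_apply P

/-- **The class of `F ^ (-|T| / d)` is not zero.** -/
theorem no_exact (T : Finset σ) (hT : T.Nonempty) (d : ℕ) (hd : 2 ≤ d) (F : MvPolynomial σ ℂ)
    (hF0 : F ≠ 0) (hF : HT T F d) (hK : OnlyTrivial T F) (α : ℂ) (hα : α * d = -(T.card : ℂ)) :
    ∀ (K : ℕ) (H : MvPolynomial σ ℂ) (g : σ → MvPolynomial σ ℂ), HT T H 0 → H ≠ 0 →
      H * F ^ (K + 1) ≠ ∑ i ∈ T, (F * pderiv i (g i) + C (α - K) * (g i * pderiv i F)) := by
  have hdc : (d : ℂ) ≠ 0 := Nat.cast_ne_zero.2 (by omega)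
  have hαK : ∀ K : ℕ, α - K ≠ 0 := by
    intro K h
    have h1 : ((T.card + K * d : ℕ) : ℂ) = 0 := by
      push_cast
      linear_combination (-d : ℂ) * h + hα
    rw [Nat.cast_eq_zero] at h1
    have := hT.card_pos
    omega
  have hFd : ∀ i ∈ T, HT T (pderiv i F) (d - 1) := by
    intro i hi
    refine HT_pderiv i hF ?_
    rw [if_pos hi]
    omega
  have hFK : ∀ K : ℕ, HT T (F ^ K) (K * d) := fun K => by
    have := hF.pow K
    rwa [smul_eq_mul] at this
  -- one step
  have hstep : ∀ (K : ℕ) (H : MvPolynomial σ ℂ) (g : σ → MvPolynomial σ ℂ), HT T H 0 → H ≠ 0 →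
      H * F ^ (K + 1) = ∑ i ∈ T, (F * pderiv i (g i) + C (α - K) * (g i * pderiv i F)) →
      ∃ (H' : MvPolynomial σ ℂ) (e : σ → MvPolynomial σ ℂ), HT T H' 0 ∧ H' ≠ 0 ∧
        H' * F ^ K = ∑ j ∈ T, e j * pderiv j F ∧ ∑ j ∈ T, pderiv j (e j) = 0 := by
    intro K H g hH hH0 hrel
    set g' : σ → MvPolynomial σ ℂ := fun i => cmp T (d * K + 1) (g i) with hg'
    have hg'd : ∀ i, HT T (g' i) (d * K + 1) := fun i => HT_cmp T _ _
    have hrel' : H * F ^ (K + 1) =
        ∑ i ∈ T, (F * pderiv i (g' i) + C (α - K) * (g' i * pderiv i F)) := by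
      have h1 := congrArg (cmp T (d * K + d)) hrel
      have h2 : HT T (H * F ^ (K + 1)) (d * K + d) := by
        have h3 := HT_mul hH (hFK (K + 1))
        rwa [zero_add, Nat.add_mul, one_mul, mul_comm K d] at h3
      rw [cmp_same h2, map_sum] at h1
      rw [h1]
      refine Finset.sum_congr rfl fun i hi => ?_
      rw [map_add, cmp_mul hF (d * K) _ rfl, cmp_pderiv i hi]
      congr 1
      have h3 : C (α - (K : ℂ)) * (g i * pderiv i F) =
          pderiv i F * (C (α - (K : ℂ)) * g i) := by ring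
      have h4 : ∀ (c : ℂ) (w : ℕ) (P : MvPolynomial σ ℂ), cmp T w (C c * P) = C c * cmp T w P := by
        intro c w P
        rw [C_mul', map_smul, C_mul']
      rw [h3, cmp_mul (hFd i hi) (d * K + 1) _ (by omega), h4]
      ring
    set h : MvPolynomial σ ℂ := C ((α - K)⁻¹) * (H * F ^ K - ∑ i ∈ T, pderiv i (g' i)) with hh
    have hhd : HT T h (d * K) := by
      refine HT_C_mul ?_ _
      rw [sub_eq_add_neg, ← neg_one_mul, ← C_1, ← C_neg]
      refine HT_add ?_ (HT_C_mul (HT_sum _ _ _ fun i hi => HT_pderiv i (hg'd i) ?_) _)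
      · have h3 := HT_mul hH (hFK K)
        rwa [zero_add, mul_comm K d] at h3
      · rw [if_pos hi]
    have hdiv : ∑ i ∈ T, pderiv i (g' i) = H * F ^ K - C (α - K) * h := by
      have h1 : (C (α - K) : MvPolynomial σ ℂ) * C ((α - K)⁻¹) = 1 := by
        rw [← C_mul, mul_inv_cancel₀ (hαK K), C_1]
      rw [hh]
      linear_combination (H * F ^ K - ∑ i ∈ T, pderiv i (g' i)) * h1
    have hcon : ∑ i ∈ T, g' i * pderiv i F = F * h := by
      have h1 : (C (α - K) : MvPolynomial σ ℂ) * C ((α - K)⁻¹) = 1 := by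
        rw [← C_mul, mul_inv_cancel₀ (hαK K), C_1]
      rw [Finset.sum_add_distrib, ← Finset.mul_sum, ← Finset.mul_sum, pow_succ] at hrel'
      have h2 : (C (α - K) : MvPolynomial σ ℂ) * (∑ i ∈ T, g' i * pderiv i F - F * h) = 0 := by
        rw [hh]
        linear_combination -hrel' - F * (H * F ^ K - ∑ i ∈ T, pderiv i (g' i)) * h1
      have h3 := (mul_eq_zero.1 h2).resolve_left fun h4 => hαK K (C_eq_zero.1 h4)
      exact sub_eq_zero.1 h3
    have heul := euler_poly hF
    have heulh := euler_poly hhd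
    obtain ⟨u, c, hu0, hu, hc, hua⟩ := hK (fun i => (d : MvPolynomial σ ℂ) * g' i - X i * h) (by
      have h1 : ∀ i ∈ T, ((d : MvPolynomial σ ℂ) * g' i - X i * h) * pderiv i F =
          (d : MvPolynomial σ ℂ) * (g' i * pderiv i F) - h * (X i * pderiv i F) := by
        intro i _
        ring
      rw [Finset.sum_congr rfl h1, Finset.sum_sub_distrib, ← Finset.mul_sum, ← Finset.mul_sum,
        hcon, heul]
      ring)
    have hu' := HT_of_degreeOf hu
    have hdu := pderiv_HT0 hu'
    refine ⟨u * (C (d : ℂ) * H), fun j => ∑ i ∈ T, pderiv i (c i j), ?_, ?_, ?_, ?_⟩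
    · have h1 := HT_mul hu' (HT_C_mul hH (d : ℂ))
      exact h1
    · exact mul_ne_zero hu0 (mul_ne_zero (fun h4 => hdc (C_eq_zero.1 h4)) hH0)
    · have h1 : ∑ i ∈ T, pderiv i (u * ((d : MvPolynomial σ ℂ) * g' i - X i * h)) =
          u * (C (d : ℂ) * H) * F ^ K := by
        have h2 : ∀ i ∈ T, pderiv i (u * ((d : MvPolynomial σ ℂ) * g' i - X i * h)) =
            u * ((d : MvPolynomial σ ℂ) * pderiv i (g' i)) - u * h - u * (X i * pderiv i h) := by
          intro i hi
          have h3 : pderiv i ((d : MvPolynomial σ ℂ)) = 0 := by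
            rw [← map_natCast (C : ℂ →+* MvPolynomial σ ℂ), pderiv_C]
          rw [Derivation.leibniz, hdu i hi, smul_zero, add_zero, map_sub, Derivation.leibniz,
            Derivation.leibniz, h3, pderiv_X_self, smul_zero, smul_eq_mul, smul_eq_mul,
            smul_eq_mul, smul_eq_mul, add_zero]
          ring
        rw [Finset.sum_congr rfl h2, Finset.sum_sub_distrib, Finset.sum_sub_distrib]
        simp only [← Finset.mul_sum]
        rw [Finset.sum_const, nsmul_eq_mul, heulh, hdiv]
        have h3 : (C (α - K) : MvPolynomial σ ℂ) * C (d : ℂ) =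
            C (-(T.card : ℂ) - d * K) := by
          rw [← C_mul]
          congr 1
          linear_combination hα
        have h4 : (C (-(T.card : ℂ) - d * K) : MvPolynomial σ ℂ) =
            -(T.card : MvPolynomial σ ℂ) - (d : MvPolynomial σ ℂ) * (K : MvPolynomial σ ℂ) := by
          rw [C_sub, C_neg, C_mul]
          simp only [map_natCast]
        have h5 : (C (d : ℂ) : MvPolynomial σ ℂ) = (d : MvPolynomial σ ℂ) := by
          simp only [map_natCast]
        rw [h4, h5] at h3
        rw [h5]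
        push_cast
        linear_combination (-u * h) * h3
      rw [← h1]
      have h2 : ∀ i ∈ T, pderiv i (u * ((d : MvPolynomial σ ℂ) * g' i - X i * h)) =
          ∑ j ∈ T, pderiv i (c i j) * pderiv j F + ∑ j ∈ T, c i j * pderiv i (pderiv j F) := by
        intro i hi
        rw [hua i hi, map_sum, ← Finset.sum_add_distrib]
        refine Finset.sum_congr rfl fun j _ => ?_
        rw [Derivation.leibniz, smul_eq_mul, smul_eq_mul]
        ring
      rw [Finset.sum_congr rfl h2, Finset.sum_add_distrib]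
      have h3 : ∑ i ∈ T, ∑ j ∈ T, c i j * pderiv i (pderiv j F) = 0 := by
        have h4 : ∑ i ∈ T, ∑ j ∈ T, c i j * pderiv i (pderiv j F) =
            -∑ i ∈ T, ∑ j ∈ T, c i j * pderiv i (pderiv j F) := by
          conv_lhs => rw [Finset.sum_comm]
          rw [← Finset.sum_neg_distrib]
          refine Finset.sum_congr rfl fun i _ => ?_
          rw [← Finset.sum_neg_distrib]
          refine Finset.sum_congr rfl fun j _ => ?_
          rw [hc i j, pderiv_swap]
          ring
        exact self_eq_neg.1 h4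
      rw [h3, add_zero, Finset.sum_comm]
      refine Finset.sum_congr rfl fun j _ => ?_
      rw [Finset.sum_mul]
    · have h4 : ∑ j ∈ T, pderiv j (∑ i ∈ T, pderiv i (c i j)) =
          -∑ j ∈ T, pderiv j (∑ i ∈ T, pderiv i (c i j)) := by
        simp only [map_sum]
        conv_lhs => rw [Finset.sum_comm]
        rw [← Finset.sum_neg_distrib]
        refine Finset.sum_congr rfl fun i _ => ?_
        rw [← Finset.sum_neg_distrib]
        refine Finset.sum_congr rfl fun j _ => ?_
        rw [hc i j, map_neg, map_neg, pderiv_swap]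
      exact self_eq_neg.1 h4
  intro K
  induction K with
  | zero =>
    intro H g hH hH0 hrel
    obtain ⟨H', e, hH', hH'0, h1, h2⟩ := hstep 0 H g hH hH0 hrel
    rw [pow_zero, mul_one] at h1
    apply hH'0
    have h3 := set_zero hH'
    rw [pow_zero, one_mul, h1, map_sum] at h3
    rw [h1, ← h3]
    refine Finset.sum_eq_zero fun j hj => ?_
    rw [map_mul, set_zero (hFd j hj), zero_pow (by omega), zero_mul, mul_zero]
  | succ K ih =>
    intro H g hH hH0 hrel
    obtain ⟨H', e, hH', hH'0, h1, h2⟩ := hstep (K + 1) H g hH hH0 hrel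
    refine ih H' (fun j => C ((α - K)⁻¹) * e j) hH' hH'0 ?_
    rw [h1]
    have h3 : ∀ j ∈ T, F * pderiv j (C ((α - K)⁻¹) * e j) +
        C (α - K) * (C ((α - K)⁻¹) * e j * pderiv j F) =
        F * C ((α - K)⁻¹) * pderiv j (e j) + e j * pderiv j F := by
      intro j _
      have h4 : (C (α - K) : MvPolynomial σ ℂ) * C ((α - K)⁻¹) = 1 := by
        rw [← C_mul, mul_inv_cancel₀ (hαK K), C_1]
      rw [Derivation.leibniz, pderiv_C, smul_zero, add_zero, smul_eq_mul]
      linear_combination (e j * pderiv j F) * h4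
    rw [Finset.sum_congr rfl h3, Finset.sum_add_distrib, ← Finset.mul_sum, h2, mul_zero, zero_add]

/-- **The root `-|T| / d`.** -/
theorem sf_koszul {ι : Type} [Fintype ι] [DecidableEq ι] (T : Finset σ) (hT : T.Nonempty)
    (f : ι → MvPolynomial σ ℂ) (d : ℕ) (hd : 2 ≤ d) (hf : ∀ j, HT T (f j) d) (lam : ι → ℂ)
    (hF0 : ∑ j, C (lam j) * f j ≠ 0) (hK : OnlyTrivial T (∑ j, C (lam j) * f j)) :
    SF f 0 (-(T.card : ℂ) / d) := by
  classical
  have hdc : (d : ℂ) ≠ 0 := Nat.cast_ne_zero.2 (by omega)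
  set α : ℂ := -(T.card : ℂ) / d with hαdef
  have hα : α * d = -(T.card : ℂ) := by
    rw [hαdef, div_mul_cancel₀ _ hdc]
  set F := ∑ j, C (lam j) * f j with hF
  have hFd : HT T F d := by
    rw [hF]
    exact HT_sum _ _ _ fun j _ => HT_C_mul (hf j) _
  have hne : ∃ j, f j ≠ 0 := by
    by_contra h
    push Not at h
    apply hF0
    rw [hF]
    refine Finset.sum_eq_zero fun j _ => ?_
    rw [h, mul_zero]
  refine sf_of_local f 0 _ (fun H b hb hH => ?_) (exists_fe f hne)
  by_contra hbα
  obtain ⟨K, g, hrel⟩ := exact_of_locEq f lam T d (by omega) hf F hF0 hF α hα H b hb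
  refine no_exact T hT d hd F hF0 hFd hK α hα K (C (b.eval α) * cmp T 0 H)
    (fun i => cmp T (d * K + 1) (g i)) (HT_C_mul (HT_cmp T 0 H) _) ?_ ?_
  · refine mul_ne_zero (fun h => hbα (C_eq_zero.1 h)) fun h => hH ?_
    have h1 := congrArg (coeff 0) h
    rw [cmp, coeff_weightedHomogeneousComponent, map_zero, if_pos rfl, coeff_zero] at h1
    rw [← constantCoeff_eq] at h1
    have h2 : eval (0 : σ → ℂ) H = constantCoeff H := by
      rw [← eval_zero]
    rw [h2]
    exact h1
  · have h1 := congrArg (cmp T (d * K + d)) hrel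
    have h4 : ∀ (c : ℂ) (w : ℕ) (P : MvPolynomial σ ℂ), cmp T w (C c * P) = C c * cmp T w P := by
      intro c w P
      rw [C_mul', map_smul, C_mul']
    have hFK : HT T (F ^ (K + 1)) (d * K + d) := by
      have := hFd.pow (K + 1)
      rwa [smul_eq_mul, Nat.add_mul, one_mul, mul_comm K d] at this
    rw [mul_assoc, h4, mul_comm H, cmp_mul hFK 0 _ (by omega), map_sum] at h1
    rw [mul_assoc, mul_comm (cmp T 0 H), h1]
    refine Finset.sum_congr rfl fun i hi => ?_
    have hFi : HT T (pderiv i F) (d - 1) := by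
      refine HT_pderiv i hFd ?_
      rw [if_pos hi]
      omega
    rw [map_add, cmp_mul hFd (d * K) _ rfl, cmp_pderiv i hi]
    congr 1
    have h3 : C (α - (K : ℂ)) * (g i * pderiv i F) =
        pderiv i F * (C (α - (K : ℂ)) * g i) := by ring
    rw [h3, cmp_mul hFi (d * K + 1) _ (by omega), h4]
    ring

end Pool.Agent.Q57.MD
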