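import Pool.Agent.Q57.MD.SW
import Pool.Agent.Q57.MD.Kosz

set_option autoImplicit false
set_option linter.unusedSectionVars false
set_option linter.unusedVariables false

/-! # The steps of the induction -/

namespace Pool.Agent.Q57.MD

open MvPolynomial Pool.Agent.W428.MOT Pool.Agent.TH192.MT Pool.Agent.TH192.DT Pool.Agent.Q49.CO
open Pool.Agent.Y229 Pool.Agent.Q57.MC
open Pool.Agent.W574.SM (IsFunctionalEq)
open Pool.Agent.W574.LM (IsLocEq)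
open Pool.Agent.W574.RO (Forced mulf sumf had)
open Pool.Agent.W574.HS (univ)
open Pool.Agent.W749.JI (fam JInd zetaI)
open Pool.Agent.H628R4.TP (IsBFunction IsLocalBFunction weylS)

/-- the pairs are roots at the origin -/
def RT {σ J : Type} [Fintype J] (f : J → MvPolynomial σ ℂ) (S : Finset (ℤ × ℤ)) : Prop :=
  ∀ q ∈ S, q.1 < 0 ∧ 0 < q.2 ∧ SF f 0 ((q.1 : ℂ) / q.2)

/-- the statement of the induction -/
def PM (M : Meas ℂ (MK ℂ)) (b : Bool) {σ J : Type} [Fintype σ] [Fintype J]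
    (f : J → MvPolynomial σ ℂ) : Prop :=
  (∃ j, f j ≠ 0) ∧ ∃ S : Finset (ℤ × ℤ), RT f S ∧
    SW M b (((Lu ℂ)⁻¹ : (MK ℂ)ˣ) : MK ℂ) f {0} ∈ ratU (Lu ℂ) (S : Set (ℤ × ℤ))

variable {M : Meas ℂ (MK ℂ)} (hL : M.L = ((Lu ℂ : (MK ℂ)ˣ) : MK ℂ))
include hL

/-- from the strong motivic monodromy conjecture -/
theorem pm_known (hχ : ∀ (ι : Type) [Fintype ι] (S : Set (Pt ℂ ι)),
      M.χ ι S = algebraMap (K0 ℂ) (MK ℂ) (cls ι S)) {n r : ℕ} (f : Fin r → MvPolynomial (Fin n) ℂ)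
    (hf : ∃ j, f j ≠ 0) (S : Finset (ℤ × ℤ)) (hS : StrongMC f S) : PM M false f := by
  refine ⟨hf, S, fun q hq => ⟨(hS.1 q hq).1, (hS.1 q hq).2.1, (sf_iff f hf _).2 (hS.1 q hq).2.2⟩, ?_⟩
  rw [SW_false]
  exact (zeta_iff hL hχ f _).1 hS.2

theorem pm_weak {σ J : Type} [Fintype σ] [Fintype J] (f : J → MvPolynomial σ ℂ)
    (h : PM M true f) : PM M false f := by
  obtain ⟨hf, S, hS, hz⟩ := h
  refine ⟨hf, S, hS, ?_⟩
  rw [SW_true] at hz
  rw [SW_false]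
  exact ZW_of_VW M (Lu ℂ) (fun q hq => (hS q (Finset.mem_coe.1 hq)).2.1) hz

/-- the union of the sets of pairs of the charts which contain points -/
theorem exists_union {σ : Type} [Fintype σ] (b : Bool) (P : (σ → ℂ) → Prop)
    (S : Finset (Chart σ)) (ih : ∀ A ∈ S, PM M b A.h) :
    ∃ Q : Finset (ℤ × ℤ), (∀ q ∈ Q, q.1 < 0 ∧ 0 < q.2 ∧ ∃ A ∈ S, (∃ p, P p ∧ A.Mem p) ∧
      SF A.h 0 ((q.1 : ℂ) / q.2)) ∧ ∀ A ∈ S, (∃ p, P p ∧ A.Mem p) →
      SW M b (((Lu ℂ)⁻¹ : (MK ℂ)ˣ) : MK ℂ) A.h {0} ∈ ratU (Lu ℂ) (Q : Set (ℤ × ℤ)) := by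
  classical
  choose T hT using fun (A : Chart σ) (hA : A ∈ S) => (ih A hA).2
  set S' : Finset (Chart σ) := S.filter fun A => ∃ p, P p ∧ A.Mem p with hS'
  refine ⟨S'.attach.biUnion fun A => T A.1 (Finset.mem_filter.1 A.2).1, fun q hq => ?_,
    fun A hA hp => ?_⟩
  · obtain ⟨⟨A, hA⟩, -, hq⟩ := Finset.mem_biUnion.1 hq
    obtain ⟨hAS, hAp⟩ := Finset.mem_filter.1 hA
    obtain ⟨h1, h2, h3⟩ := (hT A hAS).1 q hq
    exact ⟨h1, h2, A, hAS, hAp, h3⟩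
  · refine rat_mono (Lu ℂ) ?_ (hT A hA).2
    intro q hq
    exact Finset.mem_coe.2 (Finset.mem_biUnion.2 ⟨⟨A, Finset.mem_filter.2 ⟨hA, hp⟩⟩,
      Finset.mem_attach _ _, Finset.mem_coe.1 hq⟩)

omit hL in
theorem form_ne {n r : ℕ} {T : Finset (Fin n)} {d : ℕ} {f : Fin r → MvPolynomial (Fin n) ℂ}
    (hf : IsForm T d f) : ∃ j, f j ≠ 0 := by
  classical
  obtain ⟨⟨o, ho⟩, hd, h1, ⟨e, he⟩ | ⟨lam, hd2, h2, h3⟩ | h2⟩ := hf
  · by_contra h
    push Not at h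
    apply he
    refine Matrix.det_eq_zero_of_column_eq_zero (⟨o, ho⟩ : T) fun s => ?_
    rw [Matrix.of_apply, h, map_zero]
  · by_contra h
    push Not at h
    apply h2
    refine Finset.sum_eq_zero fun j _ => ?_
    rw [h, mul_zero]
  · exact h2.1

omit hL in
theorem form_sf {n r : ℕ} {T : Finset (Fin n)} {d : ℕ} {f : Fin r → MvPolynomial (Fin n) ℂ}
    (hf : IsForm T d f) : SF f 0 (-(T.card : ℂ) / d) := by
  classical
  obtain ⟨h0, hd, h1, h2 | ⟨lam, hd2, h2, h3⟩ | h2⟩ := hf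
  · exact sf_rel_root T h0 f d hd h1 h2
  · exact sf_koszul T h0 f d hd2 h1 lam h2 h3
  · exact (sf_iff f h2.1 _).2 h2.2

/-- **Cones.** -/
theorem pm_cone {b : Bool} {n r : ℕ} (f : Fin r → MvPolynomial (Fin n) ℂ) (T : Finset (Fin n))
    (d : ℕ) (hf : IsForm T d f) (S : Finset (Chart (Fin n))) (hS : ∀ A ∈ S, A.Fits f)
    (hp : ∀ p : Fin n → ℂ, p ≠ 0 → (∀ i ∉ T, p i = 0) → (∀ j, eval p (f j) = 0) →
      ∃ A ∈ S, A.Mem p) (ih : ∀ A ∈ S, PM M b A.h) : PM M b f := by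
  classical
  have hv : M.L * (((Lu ℂ)⁻¹ : (MK ℂ)ˣ) : MK ℂ) = 1 := by rw [hL, Units.mul_inv]
  refine ⟨form_ne hf, ?_⟩
  obtain ⟨Q, hQ, hz⟩ := exists_union hL b (fun p : Fin n → ℂ => ∀ i ∉ T, p i = 0) S ih
  refine ⟨insert (-(T.card : ℤ), (d : ℤ)) Q, fun q hq => ?_, ?_⟩
  · rcases Finset.mem_insert.1 hq with rfl | hq
    · refine ⟨?_, ?_, ?_⟩
      · simp only
        have := Finset.card_pos.2 hf.1
        omega
      · simp only
        have := hf.2.1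
        omega
      · simp only
        have h1 := form_sf hf
        push_cast
        exact h1
    · obtain ⟨h1, h2, A, hA, ⟨p, hpT, hAp⟩, h3⟩ := hQ q hq
      refine ⟨h1, h2, ?_⟩
      exact sf_cone_pts T f d hf.2.2.1 A.h p
        (transfer_chart f A.h A.a A.s A.w p hAp.1 (hS A hA) hAp.2.1 hAp.2.2) hpT (ih A hA).1 _
        ((sf_iff A.h (ih A hA).1 _).1 h3)
  · obtain ⟨a, n', h2⟩ := SW_rel M (b := b) hv T f d hf.2.2.1 (constr_YT T)
      (fun z w hzw hz i hi => (hzw i hi).trans (hz i hi))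
    rw [CT_YT] at h2
    refine geo_solve (Lu ℂ) (ν := T.card) (N := d) hf.2.1
      (Finset.mem_coe.2 (Finset.mem_insert_self _ _)) _ _ ?_ h2
    refine Subalgebra.add_mem _ (Subalgebra.mul_mem _ (rat_C _ _)
      (Subalgebra.sum_mem _ fun i _ => Subalgebra.pow_mem _ (rat_X _) _))
      (Subalgebra.mul_mem _ (Subalgebra.mul_mem _ (rat_C _ _)
        (Subalgebra.pow_mem _ (rat_X _) _)) ?_)
    refine mem_chartsB M (Lu ℂ) hL f _ S hS _ ((constr_YT T).inter (constr_CT T).compl) ?_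
      fun p hp' hz => hp p ?_ ?_ hz
    · rintro A hA ⟨p, hp', hAp⟩
      refine rat_mono (Lu ℂ) ?_ (hz A hA ⟨p, fun i hi => ?_, hAp⟩)
      · exact fun q hq => Finset.mem_coe.2 (Finset.mem_insert_of_mem (Finset.mem_coe.1 hq))
      · exact (map_eq_zero _).1 (hp'.1 i hi)
    · rintro rfl
      exact hp'.2 fun i _ => map_zero _
    · exact fun i hi => (map_eq_zero _).1 (hp'.1 i hi)

/-- **Formal germs.** -/
theorem pm_formal {b : Bool} {n r c l : ℕ} (f : Fin r → MvPolynomial (Fin n) ℂ)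
    (h : Fin l → MvPolynomial (Fin c) ℂ) (g : Fin c → MvPowerSeries (Fin n) ℂ)
    (s : Fin c → Fin n) (hg : ∀ t, MvPowerSeries.constantCoeff (g t) = 0)
    (hd : (Matrix.of fun u t => MvPowerSeries.coeff (Finsupp.single (s u) 1) (g t)).det ≠ 0)
    (hs : Ideal.span (Set.range fun j =>
        ((f j : MvPolynomial (Fin n) ℂ) : MvPowerSeries (Fin n) ℂ)) =
      Ideal.span (Set.range fun k => aeval g (h k))) (ih : PM M b h) : PM M b f := by
  classical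
  have hv : M.L * (((Lu ℂ)⁻¹ : (MK ℂ)ˣ) : MK ℂ) = 1 := by rw [hL, Units.mul_inv]
  obtain ⟨hne, S, hS, hz⟩ := ih
  have hT : Transf f h 0 := transfer_formal f h g s hg hd hs
  refine ⟨ne_of_transf f h 0 hT hne, S, fun q hq => ⟨(hS q hq).1, (hS q hq).2.1,
    sf_of_transf f h 0 hT hne _ ((sf_iff h hne _).1 (hS q hq).2.2)⟩, ?_⟩
  have h1 : SW M b (((Lu ℂ)⁻¹ : (MK ℂ)ˣ) : MK ℂ) f {0} =
      PowerSeries.C (M.χ (Fin n) {0} * (((Lu ℂ)⁻¹ : (MK ℂ)ˣ) : MK ℂ) ^ Fintype.card (Fin n) *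
        M.L ^ c) * SW M b (((Lu ℂ)⁻¹ : (MK ℂ)ˣ) : MK ℂ) h {0} := by
    have h2 := fun N => vol_formal M hv f h g s hg hd hs N
    cases b
    · rw [SW_false, SW_false]
      ext N
      rw [PowerSeries.coeff_C_mul]
      simp only [ZW, PowerSeries.coeff_mk]
      rw [h2, h2]
      ring
    · rw [SW_true, SW_true]
      ext N
      rw [PowerSeries.coeff_C_mul, coeff_VW, coeff_VW, h2]
  rw [h1]
  exact Subalgebra.mul_mem _ (rat_C _ _) hz

section two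

variable {n r n' r' : ℕ}

omit hL in
theorem sumF_eq (f : Fin r → MvPolynomial (Fin n) ℂ) (g : Fin r' → MvPolynomial (Fin n') ℂ)
    (j : Fin r ⊕ Fin r') : sumF f g (finSumFinEquiv j) = rename finSumFinEquiv (sumf f g j) := by
  unfold sumF sumf
  rw [Equiv.symm_apply_apply]
  rcases j with j | j
  · simp only [Sum.elim_inl]
    rw [rename_rename]
    rfl
  · simp only [Sum.elim_inr]
    rw [rename_rename]
    rfl

omit hL in
/-- roots of products -/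
theorem sf_mulF (f : Fin r → MvPolynomial (Fin n) ℂ) (g : Fin r' → MvPolynomial (Fin n') ℂ)
    (hf : ∃ k, f k ≠ 0) (hg : ∃ k, g k ≠ 0) (p : Fin n → ℂ) (q : Fin n' → ℂ) (α : ℂ)
    (h : SF f p α ∨ SF g q α) : SF (mulF f g) (Sum.elim p q ∘ finSumFinEquiv.symm) α := by
  classical
  have h1 : SF (mulf f g) (Sum.elim p q) α := by
    rcases h with h | h
    · exact sf_mul f g p q α h hg
    · exact sf_mul' f g p q α h hf
  refine sf_equiv finSumFinEquiv finProdFinEquiv (mulf f g) (mulF f g) (mulF_eq f g) _ α ?_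
  have h2 : (Sum.elim p q ∘ finSumFinEquiv.symm) ∘ finSumFinEquiv = Sum.elim p q := by
    funext x
    simp
  rw [h2]
  exact h1

omit hL in
/-- roots of sums -/
theorem sf_sumF (f : Fin r → MvPolynomial (Fin n) ℂ) (g : Fin r' → MvPolynomial (Fin n') ℂ)
    (p : Fin n → ℂ) (q : Fin n' → ℂ) (α β : ℂ) (hf : SF f p α) (hg : SF g q β) :
    SF (sumF f g) (Sum.elim p q ∘ finSumFinEquiv.symm) (α + β) := by
  classical
  refine sf_equiv finSumFinEquiv finSumFinEquiv (sumf f g) (sumF f g) (sumF_eq f g) _ _ ?_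
  have h2 : (Sum.elim p q ∘ finSumFinEquiv.symm) ∘ finSumFinEquiv = Sum.elim p q := by
    funext x
    simp
  rw [h2]
  exact sf_sum f g p q α β hf hg

omit hL in
theorem elim_zero' : (Sum.elim 0 0 ∘ finSumFinEquiv.symm : Fin (n + n') → ℂ) = 0 := by
  rw [elim_zero]
  rfl

omit hL in
theorem mulF_ne' (f : Fin r → MvPolynomial (Fin n) ℂ) (g : Fin r' → MvPolynomial (Fin n') ℂ)
    (hf : ∃ k, f k ≠ 0) (hg : ∃ k, g k ≠ 0) : ∃ k, mulF f g k ≠ 0 := by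
  obtain ⟨j, hj⟩ := hf
  obtain ⟨k, hk⟩ := hg
  refine ⟨finProdFinEquiv (j, k), ?_⟩
  unfold mulF
  rw [Equiv.symm_apply_apply]
  refine mul_ne_zero ?_ ?_
  · rwa [Ne, map_eq_zero_iff _ (rename_injective _ (Fin.castAdd_injective _ _))]
  · rwa [Ne, map_eq_zero_iff _ (rename_injective _ (Fin.natAdd_injective _ _))]

omit hL in
theorem sumF_ne (f : Fin r → MvPolynomial (Fin n) ℂ) (g : Fin r' → MvPolynomial (Fin n') ℂ)
    (hf : ∃ k, f k ≠ 0) : ∃ k, sumF f g k ≠ 0 := by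
  obtain ⟨j, hj⟩ := hf
  refine ⟨finSumFinEquiv (Sum.inl j), ?_⟩
  unfold sumF
  rw [Equiv.symm_apply_apply, Sum.elim_inl]
  rwa [Ne, map_eq_zero_iff _ (rename_injective _ (Fin.castAdd_injective _ _))]

/-- the series of a product -/
theorem SW_mul {b : Bool} (f : Fin r → MvPolynomial (Fin n) ℂ)
    (g : Fin r' → MvPolynomial (Fin n') ℂ) {W : Set (Pt ℂ (Fin n))} {W' : Set (Pt ℂ (Fin n'))}
    {V : Set (Pt ℂ (Fin (n + n')))} (hW : Constr W) (hW' : Constr W')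
    (hV : ∀ z, z ∈ V ↔ (fun i => z (finSumFinEquiv i)) ∈ PW W W') {D : Set (ℤ × ℤ)}
    (hD : ∀ q ∈ D, 0 < q.2)
    (h1 : SW M b (((Lu ℂ)⁻¹ : (MK ℂ)ˣ) : MK ℂ) f W ∈ ratU (Lu ℂ) D)
    (h2 : SW M b (((Lu ℂ)⁻¹ : (MK ℂ)ˣ) : MK ℂ) g W' ∈ ratU (Lu ℂ) D) :
    SW M b (((Lu ℂ)⁻¹ : (MK ℂ)ˣ) : MK ℂ) (mulF f g) V ∈ ratU (Lu ℂ) D := by
  have hv : M.L * (((Lu ℂ)⁻¹ : (MK ℂ)ˣ) : MK ℂ) = 1 := by rw [hL, Units.mul_inv]
  rw [SW_ren M hv finSumFinEquiv finProdFinEquiv (mulK f g) (mulF f g) (mulF_eq f g)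
    (constr_PW hW hW') hV]
  cases b
  · rw [SW_false] at h1 h2 ⊢
    rw [ZW_mulK M hv f g hW hW']
    exact Subalgebra.mul_mem _ h1 h2
  · rw [SW_true] at h1 h2 ⊢
    rw [VW_mulK M hv f g hW hW']
    exact Subalgebra.sub_mem _ (Subalgebra.add_mem _ (Subalgebra.mul_mem _ (rat_C _ _) h1)
      (Subalgebra.mul_mem _ (ZW_of_VW M (Lu ℂ) hD h1) h2))
      (Subalgebra.mul_mem _ (rat_C _ _) (ZW_of_VW M (Lu ℂ) hD h1))

/-- **Products.** -/
theorem pm_mul {b : Bool} (f : Fin r → MvPolynomial (Fin n) ℂ)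
    (g : Fin r' → MvPolynomial (Fin n') ℂ) (ihf : PM M b f) (ihg : PM M b g) :
    PM M b (mulF f g) := by
  classical
  obtain ⟨hf, S, hS, hzf⟩ := ihf
  obtain ⟨hg, T, hT, hzg⟩ := ihg
  refine ⟨mulF_ne' f g hf hg, S ∪ T, fun q hq => ?_, ?_⟩
  · rcases Finset.mem_union.1 hq with hq | hq
    · obtain ⟨h1, h2, h3⟩ := hS q hq
      have h4 := sf_mulF f g hf hg 0 0 _ (Or.inl h3)
      rw [elim_zero'] at h4
      exact ⟨h1, h2, h4⟩
    · obtain ⟨h1, h2, h3⟩ := hT q hq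
      have h4 := sf_mulF f g hf hg 0 0 _ (Or.inr h3)
      rw [elim_zero'] at h4
      exact ⟨h1, h2, h4⟩
  · refine SW_mul hL f g constr_pt0 constr_pt0 (fun z => ?_) (fun q hq => ?_)
      (rat_mono (Lu ℂ) (fun q hq => Finset.mem_coe.2
        (Finset.mem_union_left _ (Finset.mem_coe.1 hq))) hzf)
      (rat_mono (Lu ℂ) (fun q hq => Finset.mem_coe.2
        (Finset.mem_union_right _ (Finset.mem_coe.1 hq))) hzg)
    · rw [PW_zero]
      exact mem_zero_ren _ z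
    · rcases Finset.mem_union.1 (Finset.mem_coe.1 hq) with hq | hq
      · exact (hS q hq).2.1
      · exact (hT q hq).2.1

/-- **Sums.** -/
theorem pm_sum (f : Fin r → MvPolynomial (Fin n) ℂ)
    (g : Fin r' → MvPolynomial (Fin n') ℂ) (ihf : PM M true f) (ihg : PM M true g) :
    PM M true (sumF f g) := by
  classical
  have hv : M.L * (((Lu ℂ)⁻¹ : (MK ℂ)ˣ) : MK ℂ) = 1 := by rw [hL, Units.mul_inv]
  obtain ⟨hf, S, hS, hzf⟩ := ihf
  obtain ⟨hg, T, hT, hzg⟩ := ihg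
  rw [SW_true] at hzf hzg
  obtain ⟨P, hP, hz⟩ := had_ratU (Lu ℂ) (fun q hq => ⟨(hS q hq).1, (hS q hq).2.1⟩)
    (fun q hq => ⟨(hT q hq).1, (hT q hq).2.1⟩) hzf hzg
  refine ⟨sumF_ne f g hf, P, fun q hq => ?_, ?_⟩
  · obtain ⟨h1, h2, s, hs, t, ht, h3⟩ := hP q hq
    refine ⟨h1, h2, ?_⟩
    rw [h3]
    have h4 := sf_sumF f g 0 0 _ _ (hS s hs).2.2 (hT t ht).2.2
    rwa [elim_zero'] at h4
  · rw [SW_true]
    have h1 := VW_sumK M hv f g (W := {0}) (W' := {0}) constr_pt0 constr_pt0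
    rw [PW_zero] at h1
    have h2 := SW_ren M (b := true) hv finSumFinEquiv
      finSumFinEquiv (sumK f g) (sumF f g) (sumF_eq f g) (constr_pt0 (σ := Fin n ⊕ Fin n'))
      (mem_zero_ren _)
    rw [SW_true, SW_true] at h2
    rw [h2, h1]
    exact hz

/-- the series of a hypersurface `∑ y_j f_j`, `y(0) = 0` -/
theorem SW_hyp {b : Bool} (f : Fin r → MvPolynomial (Fin n) ℂ) {D : Set (ℤ × ℤ)}
    (hD : ∀ q ∈ D, 0 < q.2) (h1 : (-1, 1) ∈ D)
    (h : SW M b (((Lu ℂ)⁻¹ : (MK ℂ)ˣ) : MK ℂ) f {0} ∈ ratU (Lu ℂ) D) :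
    SW M b (((Lu ℂ)⁻¹ : (MK ℂ)ˣ) : MK ℂ) (fun _ : Fin 1 => hypF f) {0} ∈ ratU (Lu ℂ) D := by
  have hv : M.L * (((Lu ℂ)⁻¹ : (MK ℂ)ˣ) : MK ℂ) = 1 := by rw [hL, Units.mul_inv]
  rw [SW_ren M hv (eH n r) (Equiv.refl _) (fun _ : Fin 1 => uni f) _ (fun j => hypF_eq f)
    (constr_pt0 (σ := Fin r ⊕ Fin n)) (mem_zero_ren _)]
  cases b
  · rw [SW_false] at h ⊢
    have h2 := ZW_hyp0 M hv f (W := {0}) constr_pt0
    rw [WY_zero] at h2
    rw [h2]
    exact Subalgebra.mul_mem _ (rat_C _ _) (Subalgebra.mul_mem _ (rat_C _ _)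
      (Subalgebra.mul_mem _ (gG_mem (Lu ℂ) h1) h))
  · rw [SW_true] at h ⊢
    have h2 := VW_hyp0 M hv f (W := {0}) constr_pt0
    rw [WY_zero] at h2
    rw [h2]
    exact Subalgebra.mul_mem _ (rat_C _ _) (Subalgebra.add_mem _ h (Subalgebra.mul_mem _
      (rat_C _ _) (Subalgebra.mul_mem _ (ZW_of_VW M (Lu ℂ) hD h) (gG_mem (Lu ℂ) h1))))

/-- **Hypersurfaces.** -/
theorem pm_hyp {b : Bool} (f : Fin r → MvPolynomial (Fin n) ℂ) (ih : PM M b f) :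
    PM M b (fun _ : Fin 1 => hypF f) := by
  classical
  obtain ⟨hf, S, hS, hz⟩ := ih
  have hR : ∀ q ∈ insert (-1, 1) S, q.1 < 0 ∧ 0 < q.2 ∧
      SF (fun _ : Fin 1 => hypF f) 0 ((q.1 : ℂ) / q.2) := by
    have h0 : (Sum.elim 0 0 ∘ (eH n r).symm : Fin (n + r) → ℂ) = 0 := by
      rw [elim_zero]
      rfl
    intro q hq
    rcases Finset.mem_insert.1 hq with rfl | hq
    · refine ⟨by norm_num, by norm_num, ?_⟩
      have h1 : (((-1 : ℤ) : ℂ) / ((1 : ℤ) : ℂ)) = -1 := by norm_num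
      simp only
      rw [h1]
      have h2 := sf_hypF f _ _ (sf_minus_one f hf 0)
      rwa [h0] at h2
    · obtain ⟨h1, h2, h3⟩ := hS q hq
      refine ⟨h1, h2, ?_⟩
      have h4 := sf_hypF f _ _ (sf_hyp f hf 0 _ h3)
      rwa [h0] at h4
  refine ⟨⟨0, hypF_ne f hf⟩, insert (-1, 1) S, hR, ?_⟩
  refine SW_hyp hL f (fun q hq => (hR q (Finset.mem_coe.1 hq)).2.1)
    (Finset.mem_coe.2 (Finset.mem_insert_self _ _)) (rat_mono (Lu ℂ) ?_ hz)
  exact fun q hq => Finset.mem_coe.2 (Finset.mem_insert_of_mem (Finset.mem_coe.1 hq))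

end two

/-- the induction -/
theorem pm_tower (hχ : ∀ (ι : Type) [Fintype ι] (S : Set (Pt ℂ ι)),
      M.χ ι S = algebraMap (K0 ℂ) (MK ℂ) (cls ι S)) {b : Bool} {n r : ℕ}
    {f : Fin r → MvPolynomial (Fin n) ℂ} (h : Tower b n r f) : PM M b f := by
  classical
  induction h with
  | sparse hk π m c hm hc =>
    obtain ⟨S, h1, h2⟩ := Pool.Agent.TH216.ID.ideal_loc (k0 := ℂ) hk π m hm c hc
    refine pm_known hL hχ _ (sparse_ne hk π m c hm hc) S ⟨fun q hq => h1 q hq, ?_⟩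
    rw [← zetaI_eq_zetaJ]
    exact h2 ℂ
  | weak f hf ih => exact pm_weak hL f ih
  | cone f T d hf S hS hT hp ih => exact pm_cone hL f T d hf S hS hp ih
  | mul f g hf hg ihf ihg => exact pm_mul hL f g ihf ihg
  | sum f g hf hg ihf ihg => exact pm_sum hL f g ihf ihg
  | hyp f hf ih => exact pm_hyp hL f ih
  | formal f h g s hg hd hs hh ih => exact pm_formal hL f h g s hg hd hs ih

omit hL in
/-- **The theorem for the germs of the class.** -/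
theorem tower_main {b : Bool} {n r : ℕ} {f : Fin r → MvPolynomial (Fin n) ℂ} (h : Tower b n r f) :
    (∃ j, f j ≠ 0) ∧ ∃ S : Finset (ℤ × ℤ), StrongMC f S := by
  obtain ⟨M, hL, hχ⟩ := exists_meas ℂ
  have h1 : PM M false f := by
    cases b
    · exact pm_tower hL hχ h
    · exact pm_weak hL f (pm_tower hL hχ h)
  obtain ⟨hne, S, hS, hz⟩ := h1
  refine ⟨hne, S, fun q hq => ⟨(hS q hq).1, (hS q hq).2.1, (sf_iff f hne _).1 (hS q hq).2.2⟩, ?_⟩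
  rw [SW_false] at hz
  exact (zeta_iff hL hχ f _).2 hz

end Pool.Agent.Q57.MD
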