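import Pool.Agent.Q57.MD.Cases
import Pool.Agent.Q57.MC.Glob

set_option autoImplicit false
set_option linter.unusedSectionVars false
set_option linter.unusedVariables false

/-! # The global theorem -/

namespace Pool.Agent.Q57.MD

open MvPolynomial Pool.Agent.W428.MOT Pool.Agent.TH192.MT Pool.Agent.TH192.DT Pool.Agent.Q49.CO
open Pool.Agent.Y229 Pool.Agent.Q57.MC
open Pool.Agent.TH192.MU (zetaId)
open Pool.Agent.W574.SM (IsFunctionalEq)
open Pool.Agent.W574.RO (Forced mulf sumf had)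
open Pool.Agent.W574.HS (univ)

/-- the pairs are roots at points -/
def RG {σ J : Type} [Fintype J] (f : J → MvPolynomial σ ℂ) (S : Finset (ℤ × ℤ)) : Prop :=
  ∀ q ∈ S, q.1 < 0 ∧ 0 < q.2 ∧ ∃ p, SF f p ((q.1 : ℂ) / q.2)

/-- the statement of the induction -/
def GM (M : Meas ℂ (MK ℂ)) (b : Bool) {σ J : Type} [Fintype σ] [Fintype J]
    (f : J → MvPolynomial σ ℂ) : Prop :=
  (∃ j, f j ≠ 0) ∧ ∃ S : Finset (ℤ × ℤ), RG f S ∧
    SW M b (((Lu ℂ)⁻¹ : (MK ℂ)ˣ) : MK ℂ) f Set.univ ∈ ratU (Lu ℂ) (S : Set (ℤ × ℤ))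

variable {M : Meas ℂ (MK ℂ)} (hL : M.L = ((Lu ℂ : (MK ℂ)ˣ) : MK ℂ))
include hL

theorem gm_weak {σ J : Type} [Fintype σ] [Fintype J] (f : J → MvPolynomial σ ℂ)
    (h : GM M true f) : GM M false f := by
  obtain ⟨hf, S, hS, hz⟩ := h
  refine ⟨hf, S, hS, ?_⟩
  rw [SW_true] at hz
  rw [SW_false]
  exact ZW_of_VW M (Lu ℂ) (fun q hq => (hS q (Finset.mem_coe.1 hq)).2.1) hz

/-- **Families which are covered by charts.** -/
theorem gm_charts {b : Bool} {n r : ℕ} (f : Fin r → MvPolynomial (Fin n) ℂ)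
    (S : Finset (Chart (Fin n))) (hS : ∀ A ∈ S, A.Fits f)
    (hp : ∀ p : Fin n → ℂ, (∀ j, eval p (f j) = 0) → ∃ A ∈ S, A.Mem p)
    (ih : ∀ A ∈ S, PM M b A.h) : GM M b f := by
  classical
  have hne : ∃ j, f j ≠ 0 := by
    by_contra h0
    push Not at h0
    obtain ⟨A, hA, hAp⟩ := hp 0 fun j => by rw [h0, map_zero]
    obtain ⟨j, hj⟩ := ne_of_chart f A (hS A hA) (ih A hA).1 0 hAp
    exact hj (h0 j)
  refine ⟨hne, ?_⟩
  obtain ⟨Q, hQ, hz⟩ := exists_union hL b (fun p : Fin n → ℂ => True) S ih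
  refine ⟨Q, fun q hq => ?_, ?_⟩
  · obtain ⟨h1, h2, A, hA, ⟨p, -, hAp⟩, h3⟩ := hQ q hq
    exact ⟨h1, h2, p, sf_chart f A (hS A hA) (ih A hA).1 p hAp _
      ((sf_iff A.h (ih A hA).1 _).1 h3)⟩
  · refine mem_chartsB M (Lu ℂ) hL f _ S hS _ Constr.univ ?_ fun p _ hz => hp p hz
    rintro A hA ⟨p, -, hAp⟩
    exact hz A hA ⟨p, trivial, hAp⟩

/-- **Global cones.** -/
theorem gm_cone {b : Bool} {n r : ℕ} (f : Fin r → MvPolynomial (Fin n) ℂ) (T : Finset (Fin n))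
    (d : ℕ) (hf : IsForm T d f) (S : Finset (Chart (Fin n))) (hS : ∀ A ∈ S, A.Fits f)
    (hp : ∀ p : Fin n → ℂ, (∃ i ∈ T, p i ≠ 0) → (∀ j, eval p (f j) = 0) → ∃ A ∈ S, A.Mem p)
    (ih : ∀ A ∈ S, PM M b A.h) : GM M b f := by
  classical
  have hv : M.L * (((Lu ℂ)⁻¹ : (MK ℂ)ˣ) : MK ℂ) = 1 := by rw [hL, Units.mul_inv]
  refine ⟨form_ne hf, ?_⟩
  obtain ⟨Q, hQ, hz⟩ := exists_union hL b (fun p : Fin n → ℂ => True) S ih
  refine ⟨insert (-(T.card : ℤ), (d : ℤ)) Q, fun q hq => ?_, ?_⟩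
  · rcases Finset.mem_insert.1 hq with rfl | hq
    · refine ⟨?_, ?_, 0, ?_⟩
      · simp only
        have := Finset.card_pos.2 hf.1
        omega
      · simp only
        have := hf.2.1
        omega
      · simp only
        have h1 := form_sf hf
        push_cast
        exact h1
    · obtain ⟨h1, h2, A, hA, ⟨p, -, hAp⟩, h3⟩ := hQ q hq
      exact ⟨h1, h2, p, sf_chart f A (hS A hA) (ih A hA).1 p hAp _
        ((sf_iff A.h (ih A hA).1 _).1 h3)⟩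
  · have hc : SW M b (((Lu ℂ)⁻¹ : (MK ℂ)ˣ) : MK ℂ) f (Set.univ ∩ (CT ℂ T)ᶜ) ∈
        ratU (Lu ℂ) ((insert (-(T.card : ℤ), (d : ℤ)) Q : Finset (ℤ × ℤ)) : Set (ℤ × ℤ)) := by
      refine mem_chartsB M (Lu ℂ) hL f _ S hS _ (Constr.univ.inter (constr_CT T).compl) ?_
        fun p hp' hz => hp p ?_ hz
      · rintro A hA ⟨p, hp', hAp⟩
        refine rat_mono (Lu ℂ) ?_ (hz A hA ⟨p, trivial, hAp⟩)
        exact fun q hq => Finset.mem_coe.2 (Finset.mem_insert_of_mem (Finset.mem_coe.1 hq))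
      · by_contra hcon
        push Not at hcon
        refine hp'.2 fun i hi => ?_
        change algebraMap ℂ (AlgebraicClosure ℂ) (p i) = 0
        rw [hcon i hi, map_zero]
    have h3 : SW M b (((Lu ℂ)⁻¹ : (MK ℂ)ˣ) : MK ℂ) f (CT ℂ T ∩ Set.univ) ∈
        ratU (Lu ℂ) ((insert (-(T.card : ℤ), (d : ℤ)) Q : Finset (ℤ × ℤ)) : Set (ℤ × ℤ)) := by
      obtain ⟨a, n', h2⟩ := SW_rel M (b := b) hv T f d hf.2.2.1 (W := Set.univ) Constr.univ
        (fun z w _ _ => trivial)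
      refine geo_solve (Lu ℂ) (ν := T.card) (N := d) hf.2.1
        (Finset.mem_coe.2 (Finset.mem_insert_self _ _)) _ _ ?_ h2
      exact Subalgebra.add_mem _ (Subalgebra.mul_mem _ (rat_C _ _)
        (Subalgebra.sum_mem _ fun i _ => Subalgebra.pow_mem _ (rat_X _) _))
        (Subalgebra.mul_mem _ (Subalgebra.mul_mem _ (rat_C _ _)
          (Subalgebra.pow_mem _ (rat_X _) _)) hc)
    have h4 : (Set.univ : Set (Pt ℂ (Fin n))) = (Set.univ ∩ (CT ℂ T)ᶜ) ∪ (CT ℂ T ∩ Set.univ) := by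
      ext z
      simp only [Set.mem_univ, Set.mem_union, Set.mem_inter_iff, Set.mem_compl_iff, true_and,
        and_true, true_iff]
      tauto
    rw [h4, SW_add M f (Constr.univ.inter (constr_CT T).compl) ((constr_CT T).inter Constr.univ)
      (Set.disjoint_left.2 fun z h h' => h.2 h'.1)]
    exact Subalgebra.add_mem _ hc h3

section two

variable {n r n' r' : ℕ}

/-- **Products.** -/
theorem gm_mul {b : Bool} (f : Fin r → MvPolynomial (Fin n) ℂ)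
    (g : Fin r' → MvPolynomial (Fin n') ℂ) (ihf : GM M b f) (ihg : GM M b g) :
    GM M b (mulF f g) := by
  classical
  obtain ⟨hf, S, hS, hzf⟩ := ihf
  obtain ⟨hg, T, hT, hzg⟩ := ihg
  refine ⟨mulF_ne' f g hf hg, S ∪ T, fun q hq => ?_, ?_⟩
  · rcases Finset.mem_union.1 hq with hq | hq
    · obtain ⟨h1, h2, p, h3⟩ := hS q hq
      exact ⟨h1, h2, _, sf_mulF f g hf hg p 0 _ (Or.inl h3)⟩
    · obtain ⟨h1, h2, p, h3⟩ := hT q hq
      exact ⟨h1, h2, _, sf_mulF f g hf hg 0 p _ (Or.inr h3)⟩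
  · refine SW_mul hL f g Constr.univ Constr.univ (fun z => ⟨fun _ => ⟨trivial, trivial⟩,
      fun _ => trivial⟩) (fun q hq => ?_)
      (rat_mono (Lu ℂ) (fun q hq => Finset.mem_coe.2
        (Finset.mem_union_left _ (Finset.mem_coe.1 hq))) hzf)
      (rat_mono (Lu ℂ) (fun q hq => Finset.mem_coe.2
        (Finset.mem_union_right _ (Finset.mem_coe.1 hq))) hzg)
    rcases Finset.mem_union.1 (Finset.mem_coe.1 hq) with hq | hq
    · exact (hS q hq).2.1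
    · exact (hT q hq).2.1

/-- **Sums.** -/
theorem gm_sum (f : Fin r → MvPolynomial (Fin n) ℂ)
    (g : Fin r' → MvPolynomial (Fin n') ℂ) (ihf : GM M true f) (ihg : GM M true g) :
    GM M true (sumF f g) := by
  classical
  have hv : M.L * (((Lu ℂ)⁻¹ : (MK ℂ)ˣ) : MK ℂ) = 1 := by rw [hL, Units.mul_inv]
  obtain ⟨hf, S, hS, hzf⟩ := ihf
  obtain ⟨hg, T, hT, hzg⟩ := ihg
  rw [SW_true] at hzf hzg
  obtain ⟨P, hP, hz⟩ := had_ratU (Lu ℂ) (fun q hq => ⟨(hS q hq).1, (hS q hq).2.1⟩)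
    (fun q hq => ⟨(hT q hq).1, (hT q hq).2.1⟩) hzf hzg
  refine ⟨sumF_ne f g hf, P, fun q hq => ?_, ?_⟩
  · obtain ⟨h1, h2, s, hs, t, ht, h3⟩ := hP q hq
    obtain ⟨p, hp⟩ := (hS s hs).2.2
    obtain ⟨p', hp'⟩ := (hT t ht).2.2
    refine ⟨h1, h2, Sum.elim p p' ∘ finSumFinEquiv.symm, ?_⟩
    rw [h3]
    exact sf_sumF f g p p' _ _ hp hp'
  · rw [SW_true]
    have h1 := VW_sumK M hv f g (W := Set.univ) (W' := Set.univ) Constr.univ Constr.univ
    have h2 := SW_ren M (b := true) hv finSumFinEquiv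
      finSumFinEquiv (sumK f g) (sumF f g) (sumF_eq f g)
      (constr_PW (K := ℂ) (σ := Fin n) (τ := Fin n') Constr.univ Constr.univ)
      (W' := Set.univ) fun z => ⟨fun _ => ⟨trivial, trivial⟩, fun _ => trivial⟩
    rw [SW_true, SW_true] at h2
    rw [h2, h1]
    exact hz

/-- **Hypersurfaces.** -/
theorem gm_hyp {b : Bool} (f : Fin r → MvPolynomial (Fin n) ℂ) (ih : GM M b f) :
    GM M b (fun _ : Fin 1 => hypF f) := by
  classical
  have hv : M.L * (((Lu ℂ)⁻¹ : (MK ℂ)ˣ) : MK ℂ) = 1 := by rw [hL, Units.mul_inv]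
  obtain ⟨hf, S, hS, hz⟩ := ih
  have hR : RG (fun _ : Fin 1 => hypF f) (insert (-1, 1) S) := by
    intro q hq
    rcases Finset.mem_insert.1 hq with rfl | hq
    · refine ⟨by norm_num, by norm_num, ?_⟩
      have h1 : (((-1 : ℤ) : ℂ) / ((1 : ℤ) : ℂ)) = -1 := by norm_num
      simp only
      rw [h1]
      exact ⟨_, sf_hypF f _ _ (sf_minus_one f hf 0)⟩
    · obtain ⟨h1, h2, p, h3⟩ := hS q hq
      exact ⟨h1, h2, _, sf_hypF f _ _ (sf_hyp f hf p _ h3)⟩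
  refine ⟨⟨0, hypF_ne f hf⟩, insert (-1, 1) S, hR, ?_⟩
  have hz' := rat_mono (Lu ℂ) (D' := ((insert (-1, 1) S : Finset (ℤ × ℤ)) : Set (ℤ × ℤ)))
    (fun q hq => Finset.mem_coe.2 (Finset.mem_insert_of_mem (Finset.mem_coe.1 hq))) hz
  have h1 : ((-1, 1) : ℤ × ℤ) ∈ ((insert (-1, 1) S : Finset (ℤ × ℤ)) : Set (ℤ × ℤ)) :=
    Finset.mem_coe.2 (Finset.mem_insert_self _ _)
  have hD : ∀ q ∈ ((insert (-1, 1) S : Finset (ℤ × ℤ)) : Set (ℤ × ℤ)), 0 < q.2 :=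
    fun q hq => (hR q (Finset.mem_coe.1 hq)).2.1
  rw [SW_ren M hv (eH n r) (Equiv.refl _) (fun _ : Fin 1 => uni f) _ (fun j => hypF_eq f)
    (constr_YF (K := ℂ) (J := Fin r) (σ := Fin n) Constr.univ) (W' := Set.univ)
    fun z => ⟨fun _ => trivial, fun _ => trivial⟩]
  cases b
  · rw [SW_false] at hz' ⊢
    rw [ZW_free M hv f Constr.univ]
    exact Subalgebra.mul_mem _ (rat_C _ _) (Subalgebra.mul_mem _ (gH_mem (Lu ℂ) h1) hz')
  · rw [SW_true] at hz' ⊢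
    rw [VW_free M hv f Constr.univ]
    exact Subalgebra.add_mem _ hz' (Subalgebra.mul_mem _ (ZW_of_VW M (Lu ℂ) hD hz')
      (gG_mem (Lu ℂ) h1))

end two

/-- the induction -/
theorem gm_glob (hχ : ∀ (ι : Type) [Fintype ι] (S : Set (Pt ℂ ι)),
      M.χ ι S = algebraMap (K0 ℂ) (MK ℂ) (cls ι S)) {b : Bool} {n r : ℕ}
    {f : Fin r → MvPolynomial (Fin n) ℂ} (h : Glob b n r f) : GM M b f := by
  classical
  induction h with
  | charts f S hS hT hp => exact gm_charts hL f S hS hp fun A hA => pm_tower hL hχ (hT A hA)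
  | cone f T d hf S hS hT hp =>
    exact gm_cone hL f T d hf S hS hp fun A hA => pm_tower hL hχ (hT A hA)
  | weak f hf ih => exact gm_weak hL f ih
  | mul f g hf hg ihf ihg => exact gm_mul hL f g ihf ihg
  | sum f g hf hg ihf ihg => exact gm_sum hL f g ihf ihg
  | hyp f hf ih => exact gm_hyp hL f ih

omit hL in
/-- **The global theorem.** -/
theorem glob_main {b : Bool} {n r : ℕ} {f : Fin r → MvPolynomial (Fin n) ℂ} (h : Glob b n r f) :
    (∃ j, f j ≠ 0) ∧ ∃ S : Finset (ℤ × ℤ), GlobMC f S := by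
  obtain ⟨M, hL, hχ⟩ := exists_meas ℂ
  have h1 : GM M false f := by
    cases b
    · exact gm_glob hL hχ h
    · exact gm_weak hL f (gm_glob hL hχ h)
  obtain ⟨hne, S, hS, hz⟩ := h1
  refine ⟨hne, S, hS, ?_⟩
  rw [SW_false] at hz
  exact (zetaId_iff hL hχ f _).2 hz

end Pool.Agent.Q57.MD
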