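import Pool.Agent.Q57.MC.Core
import Mathlib.RingTheory.MvPowerSeries.Trunc

set_option autoImplicit false
set_option linter.unusedSectionVars false
set_option linter.unusedVariables false

/-! # Formal changes of coordinates: volumes -/

namespace Pool.Agent.Q57.MD

open MvPolynomial Pool.Agent.W428.MOT Pool.Agent.TH192.MT Pool.Agent.TH192.DT Pool.Agent.Q49.CO
open Pool.Agent.Q57.MC

section trunc

variable {K : Type} [Field K] {σ : Type}

/-- the power series without terms of degree `< N` -/
def ZN (K σ : Type) [Field K] (N : ℕ) : Ideal (MvPowerSeries σ K) where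
  carrier := {F | ∀ m : σ →₀ ℕ, m.degree < N → MvPowerSeries.coeff m F = 0}
  add_mem' := by
    intro a b ha hb m hm
    rw [map_add, ha m hm, hb m hm, add_zero]
  zero_mem' := fun m _ => map_zero _
  smul_mem' := by
    classical
    intro c x hx m hm
    rw [smul_eq_mul, MvPowerSeries.coeff_mul]
    refine Finset.sum_eq_zero fun p hp => ?_
    have h1 : p.2.degree ≤ m.degree := by
      rw [← Finset.HasAntidiagonal.mem_antidiagonal.1 hp, map_add]
      exact Nat.le_add_left _ _
    rw [hx p.2 (lt_of_le_of_lt h1 hm), mul_zero]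

variable [Fintype σ]

/-- a polynomial with the same terms of degree `≤ N` -/
theorem exists_trunc (F : MvPowerSeries σ K) (N : ℕ) :
    ∃ P : MvPolynomial σ K, ∀ m : σ →₀ ℕ, m.degree ≤ N → coeff m P = MvPowerSeries.coeff m F := by
  classical
  refine ⟨MvPowerSeries.trunc' K (Finsupp.equivFunOnFinite.symm fun _ => N) F, fun m hm => ?_⟩
  rw [MvPowerSeries.coeff_trunc', if_pos]
  intro i
  refine le_trans ?_ hm
  rw [Finsupp.degree_eq_sum]
  exact Finset.single_le_sum (f := fun i => m i) (fun _ _ => Nat.zero_le _) (Finset.mem_univ i)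

/-- a polynomial without terms of degree `< N`, on an arc through the origin -/
theorem dvd_of_ZN {A : Type} [CommRing A] [Algebra K A] (P : MvPolynomial σ K) (N : ℕ)
    (hP : ∀ m : σ →₀ ℕ, m.degree < N → coeff m P = 0) (y : A) (φ : σ → A) (hφ : ∀ i, y ∣ φ i) :
    y ^ N ∣ aeval φ P := by
  rw [aeval_def, eval₂_eq']
  refine Finset.dvd_sum fun m hm => Dvd.dvd.mul_left ?_ _
  have h1 : N ≤ m.degree := by
    by_contra h
    exact (mem_support_iff.1 hm) (hP m (by omega))
  refine (pow_dvd_pow y h1).trans ?_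
  rw [Finsupp.degree_eq_sum, ← Finset.prod_pow_eq_pow_sum]
  exact Finset.prod_dvd_prod_of_dvd _ _ fun i _ => pow_dvd_pow_of_dvd (hφ i) _

/-- the values of a polynomial at congruent power series -/
theorem aeval_cong {c : ℕ} (I : Ideal (MvPowerSeries σ K)) (g g' : Fin c → MvPowerSeries σ K)
    (hg : ∀ t, g t - g' t ∈ I) (q : MvPolynomial (Fin c) K) :
    aeval g q - aeval g' q ∈ I := by
  rw [← Ideal.Quotient.eq]
  have h1 : (Ideal.Quotient.mkₐ K I).comp (aeval g) = (Ideal.Quotient.mkₐ K I).comp (aeval g') := by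
    refine MvPolynomial.algHom_ext fun t => ?_
    rw [AlgHom.comp_apply, AlgHom.comp_apply, aeval_X, aeval_X]
    exact Ideal.Quotient.eq.2 (hg t)
  exact congrFun (congrArg DFunLike.coe h1) q

theorem aeval_coe {c : ℕ} (g : Fin c → MvPolynomial σ K) (q : MvPolynomial (Fin c) K) :
    aeval (fun t => ((g t : MvPolynomial σ K) : MvPowerSeries σ K)) q =
      ((aeval g q : MvPolynomial σ K) : MvPowerSeries σ K) := by
  have h1 : aeval (fun t => ((g t : MvPolynomial σ K) : MvPowerSeries σ K)) =
      (MvPolynomial.coeToMvPowerSeries.algHom (R := K) K).comp (aeval g) := by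
    refine MvPolynomial.algHom_ext fun t => ?_
    rw [AlgHom.comp_apply, aeval_X, aeval_X, MvPolynomial.coeToMvPowerSeries.algHom_apply]
    rfl
  rw [h1, AlgHom.comp_apply, MvPolynomial.coeToMvPowerSeries.algHom_apply]
  rfl

theorem mem_ZN_coe (P : MvPolynomial σ K) (N : ℕ) :
    ((P : MvPolynomial σ K) : MvPowerSeries σ K) ∈ ZN K σ N ↔
      ∀ m : σ →₀ ℕ, m.degree < N → coeff m P = 0 := by
  change (∀ m : σ →₀ ℕ, m.degree < N → MvPowerSeries.coeff m (P : MvPowerSeries σ K) = 0) ↔ _
  simp only [MvPolynomial.coeff_coe]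

omit [Fintype σ] in
theorem coe_sub' (P Q : MvPolynomial σ K) :
    ((P - Q : MvPolynomial σ K) : MvPowerSeries σ K) =
      ((P : MvPolynomial σ K) : MvPowerSeries σ K) - ((Q : MvPolynomial σ K) :
        MvPowerSeries σ K) :=
  map_sub (MvPolynomial.coeToMvPowerSeries.ringHom (σ := σ) (R := K)) P Q

/-- products of congruent power series -/
theorem mul_cong (I : Ideal (MvPowerSeries σ K)) {a a' b b' : MvPowerSeries σ K}
    (h : a - a' ∈ I) (h' : b - b' ∈ I) : a * b - a' * b' ∈ I := by
  have e : a * b - a' * b' = b * (a - a') + a' * (b - b') := by ring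
  rw [e]
  exact I.add_mem (I.mul_mem_left _ h) (I.mul_mem_left _ h')

/-- **Polynomial approximations of formal coordinates.** -/
theorem exists_approx {J κ : Type} [Fintype J] [Fintype κ] {c : ℕ} (f : J → MvPolynomial σ K)
    (h : κ → MvPolynomial (Fin c) K) (g : Fin c → MvPowerSeries σ K)
    (hs : Ideal.span (Set.range fun j => ((f j : MvPolynomial σ K) : MvPowerSeries σ K)) =
      Ideal.span (Set.range fun k => aeval g (h k))) (N : ℕ) :
    ∃ a : Fin c → MvPolynomial σ K,
      (∀ t (m : σ →₀ ℕ), m.degree ≤ N + 1 → coeff m (a t) = MvPowerSeries.coeff m (g t)) ∧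
      (∀ j, ∃ A : κ → MvPolynomial σ K, ∀ m : σ →₀ ℕ, m.degree < N →
        coeff m (f j - ∑ k, A k * aeval a (h k)) = 0) ∧
      ∀ k, ∃ B : J → MvPolynomial σ K, ∀ m : σ →₀ ℕ, m.degree < N →
        coeff m (aeval a (h k) - ∑ j, B j * f j) = 0 := by
  classical
  choose a ha using fun t => exists_trunc (g t) (N + 1)
  have hag : ∀ t, g t - ((a t : MvPolynomial σ K) : MvPowerSeries σ K) ∈ ZN K σ N := by
    intro t m hm
    rw [map_sub, MvPolynomial.coeff_coe, ha t m (by omega), sub_self]
  have hh : ∀ k, aeval g (h k) - ((aeval a (h k) : MvPolynomial σ K) : MvPowerSeries σ K) ∈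
      ZN K σ N := by
    intro k
    rw [← aeval_coe]
    exact aeval_cong _ _ _ hag _
  refine ⟨a, ha, fun j => ?_, fun k => ?_⟩
  · obtain ⟨q, hq⟩ : ∃ q : κ → MvPowerSeries σ K, ∑ k, q k * aeval g (h k) =
        ((f j : MvPolynomial σ K) : MvPowerSeries σ K) := by
      refine Ideal.mem_span_range_iff_exists_fun.1 ?_
      rw [← hs]
      exact Ideal.subset_span ⟨j, rfl⟩
    choose A hA using fun k => exists_trunc (q k) N
    refine ⟨A, (mem_ZN_coe _ N).1 ?_⟩
    have e1 : ((f j - ∑ k, A k * aeval a (h k) : MvPolynomial σ K) : MvPowerSeries σ K) =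
        ∑ k, (q k * aeval g (h k) - ((A k : MvPolynomial σ K) : MvPowerSeries σ K) *
          ((aeval a (h k) : MvPolynomial σ K) : MvPowerSeries σ K)) := by
      rw [Finset.sum_sub_distrib, hq, coe_sub']
      congr 1
      rw [← MvPolynomial.coeToMvPowerSeries.ringHom_apply, map_sum]
      exact Finset.sum_congr rfl fun k _ => by
        rw [map_mul, MvPolynomial.coeToMvPowerSeries.ringHom_apply,
          MvPolynomial.coeToMvPowerSeries.ringHom_apply]
    rw [e1]
    refine Ideal.sum_mem _ fun k _ => mul_cong _ ?_ (hh k)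
    intro m hm
    rw [map_sub, MvPolynomial.coeff_coe, hA k m (by omega), sub_self]
  · obtain ⟨q, hq⟩ : ∃ q : J → MvPowerSeries σ K, ∑ j, q j *
        ((f j : MvPolynomial σ K) : MvPowerSeries σ K) = aeval g (h k) := by
      refine Ideal.mem_span_range_iff_exists_fun.1 ?_
      rw [hs]
      exact Ideal.subset_span ⟨k, rfl⟩
    choose B hB using fun j => exists_trunc (q j) N
    refine ⟨B, (mem_ZN_coe _ N).1 ?_⟩
    have e1 : ((aeval a (h k) - ∑ j, B j * f j : MvPolynomial σ K) : MvPowerSeries σ K) =
        ∑ j, (q j * ((f j : MvPolynomial σ K) : MvPowerSeries σ K) -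
          ((B j : MvPolynomial σ K) : MvPowerSeries σ K) *
            ((f j : MvPolynomial σ K) : MvPowerSeries σ K)) -
          (aeval g (h k) - ((aeval a (h k) : MvPolynomial σ K) : MvPowerSeries σ K)) := by
      rw [Finset.sum_sub_distrib, hq, coe_sub']
      have e2 : ((∑ j, B j * f j : MvPolynomial σ K) : MvPowerSeries σ K) =
          ∑ j, ((B j : MvPolynomial σ K) : MvPowerSeries σ K) *
            ((f j : MvPolynomial σ K) : MvPowerSeries σ K) := by
        rw [← MvPolynomial.coeToMvPowerSeries.ringHom_apply, map_sum]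
        exact Finset.sum_congr rfl fun k _ => by
          rw [map_mul, MvPolynomial.coeToMvPowerSeries.ringHom_apply,
            MvPolynomial.coeToMvPowerSeries.ringHom_apply]
      rw [e2]
      ring
    rw [e1]
    refine Ideal.sub_mem _ (Ideal.sum_mem _ fun j _ => mul_cong _ ?_ ?_) (hh k)
    · intro m hm
      rw [map_sub, MvPolynomial.coeff_coe, hB j m (by omega), sub_self]
    · rw [sub_self]
      exact Ideal.zero_mem _

end trunc

section vol

variable {σ J κ : Type} [Fintype σ] [Fintype J] {c r : ℕ} {R : Type} [CommRing R] (M : Meas ℂ R)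

/-- a polynomial without terms of degree `< N`, at a jet through the origin -/
theorem vn_of_ZN {N m : ℕ} (P : MvPolynomial σ ℂ) (hP : ∀ m : σ →₀ ℕ, m.degree < N →
    coeff m P = 0) (z : Pt ℂ (σ × Fin (m + 1))) (hz : ∀ i, z (i, 0) = 0) :
    Vn N (aeval (ar z) P) := by
  rw [vn_iff]
  refine dvd_of_ZN P N hP _ _ fun i => ?_
  have h1 : ar z i = ar z i - PowerSeries.C (PowerSeries.coeff 0 (ar z i)) := by
    rw [coeff_ar_zero, hz i, map_zero, sub_zero]
  rw [PowerSeries.X_dvd_iff, ← PowerSeries.coeff_zero_eq_constantCoeff_apply, coeff_ar_zero]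
  exact hz i

/-- the jets through the origin -/
theorem GW_formal (f : J → MvPolynomial σ ℂ) [Fintype κ] (h' : κ → MvPolynomial σ ℂ) (N m : ℕ)
    (hA : ∀ j, ∃ A : κ → MvPolynomial σ ℂ, ∀ m : σ →₀ ℕ, m.degree < N →
      coeff m (f j - ∑ k, A k * h' k) = 0)
    (hB : ∀ k, ∃ B : J → MvPolynomial σ ℂ, ∀ m : σ →₀ ℕ, m.degree < N →
      coeff m (h' k - ∑ j, B j * f j) = 0) :
    GW f {0} N m = GW h' {0} N m := by
  ext z
  rw [mem_GW, mem_GW]
  refine and_congr_right fun hz => ?_
  have hz' : ∀ i, z (i, 0) = 0 := fun i => congrFun hz i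
  constructor
  · intro h k
    obtain ⟨B, hB⟩ := hB k
    have h1 := vn_iff.1 (vn_of_ZN _ hB z hz')
    rw [vn_iff]
    have e : aeval (ar z) (h' k) = aeval (ar z) (h' k - ∑ j, B j * f j) +
        ∑ j, aeval (ar z) (B j) * aeval (ar z) (f j) := by
      rw [map_sub, map_sum]
      simp only [map_mul]
      ring
    rw [e]
    exact dvd_add h1 (Finset.dvd_sum fun j _ => Dvd.dvd.mul_left (vn_iff.1 (h j)) _)
  · intro h j
    obtain ⟨A, hA⟩ := hA j
    have h1 := vn_iff.1 (vn_of_ZN _ hA z hz')
    rw [vn_iff]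
    have e : aeval (ar z) (f j) = aeval (ar z) (f j - ∑ k, A k * h' k) +
        ∑ k, aeval (ar z) (A k) * aeval (ar z) (h' k) := by
      rw [map_sub, map_sum]
      simp only [map_mul]
      ring
    rw [e]
    exact dvd_add h1 (Finset.dvd_sum fun k _ => Dvd.dvd.mul_left (vn_iff.1 (h k)) _)

theorem same_one (h : Fin r → MvPolynomial (Fin c) ℂ) (a : Fin c → MvPolynomial σ ℂ) :
    Same (fun k => aeval a (h k)) h a 1 := by
  unfold Same
  congr 2
  funext k
  unfold frac
  have h1 : IsLocalization.Away.invSelf (S := Localization.Away (1 : MvPolynomial σ ℂ))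
      (1 : MvPolynomial σ ℂ) = 1 := by
    have h2 := IsLocalization.Away.mul_invSelf (S := Localization.Away (1 : MvPolynomial σ ℂ))
      (1 : MvPolynomial σ ℂ)
    rwa [map_one, one_mul] at h2
  have h3 : (fun t => algebraMap (MvPolynomial σ ℂ) (Localization.Away (1 : MvPolynomial σ ℂ))
      (a t) * IsLocalization.Away.invSelf (S := Localization.Away (1 : MvPolynomial σ ℂ))
      (1 : MvPolynomial σ ℂ)) = fun t => (Algebra.ofId (MvPolynomial σ ℂ)
        (Localization.Away (1 : MvPolynomial σ ℂ))).restrictScalars ℂ (a t) := by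
    funext t
    rw [h1, mul_one]
    rfl
  rw [h3]
  have h4 : aeval (R := ℂ) (fun t => (Algebra.ofId (MvPolynomial σ ℂ)
        (Localization.Away (1 : MvPolynomial σ ℂ))).restrictScalars ℂ (a t)) =
      ((Algebra.ofId (MvPolynomial σ ℂ)
        (Localization.Away (1 : MvPolynomial σ ℂ))).restrictScalars ℂ).comp (aeval a) := by
    refine MvPolynomial.algHom_ext fun t => ?_
    rw [AlgHom.comp_apply, aeval_X, aeval_X]
  rw [h4, AlgHom.comp_apply]
  rfl

variable {v : R} (hv : M.L * v = 1)
include hv

/-- **Volumes, after a formal change of coordinates.** -/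
theorem vol_formal (f : J → MvPolynomial σ ℂ) (h : Fin r → MvPolynomial (Fin c) ℂ)
    (g : Fin c → MvPowerSeries σ ℂ) (s : Fin c → σ)
    (hg : ∀ t, MvPowerSeries.constantCoeff (g t) = 0)
    (hdet : (Matrix.of fun u t => MvPowerSeries.coeff (Finsupp.single (s u) 1) (g t)).det ≠ 0)
    (hs : Ideal.span (Set.range fun j => ((f j : MvPolynomial σ ℂ) : MvPowerSeries σ ℂ)) =
      Ideal.span (Set.range fun k => aeval g (h k))) (N : ℕ) :
    vol M v f {0} N = (M.χ σ {0} * v ^ Fintype.card σ * M.L ^ c) * vol M v h {0} N := by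
  classical
  obtain ⟨a, ha, hA, hB⟩ := exists_approx f h g hs N
  have ha0 : ∀ t, eval 0 (a t) = 0 := by
    intro t
    have h1 := ha t 0 (by simp)
    rw [eval_zero]
    change coeff 0 (a t) = 0
    rw [h1]
    exact hg t
  have ha1 : ∀ i t, eval 0 (pderiv i (a t)) = MvPowerSeries.coeff (Finsupp.single i 1) (g t) := by
    intro i t
    rw [← ha t (Finsupp.single i 1) (by simp)]
    rw [eval_zero]
    change coeff 0 (pderiv i (a t)) = _
    have h2 : ∀ P : MvPolynomial σ ℂ, coeff 0 (pderiv i P) = coeff (Finsupp.single i 1) P := by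
      intro P
      induction P using MvPolynomial.induction_on' with
      | monomial m b =>
        rw [pderiv_monomial, coeff_monomial, coeff_monomial]
        by_cases hm : m = Finsupp.single i 1
        · subst hm
          rw [if_pos rfl, if_pos (by simp)]
          simp
        · rw [if_neg hm]
          split_ifs with h3
          · by_cases hi : m i = 0
            · simp [hi]
            · exfalso
              apply hm
              have h4 : m = Finsupp.single i 1 := by
                have h5 : m = m - Finsupp.single i 1 + Finsupp.single i 1 := by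
                  rw [tsub_add_cancel_of_le]
                  rw [Finsupp.single_le_iff]
                  omega
                rw [h5, h3, zero_add]
              exact h4
          · rfl
      | add p q hp hq => rw [map_add, coeff_add, coeff_add, hp, hq]
    exact h2 _
  set A : Chart σ := ⟨c, r, a, 1, s, h⟩ with hAdef
  have hmem : A.Mem 0 := by
    refine ⟨by simp [hAdef], ha0, ?_⟩
    have h1 : (Matrix.of fun u t => eval 0 (pderiv (A.s u) (A.a t))) =
        Matrix.of fun u t => MvPowerSeries.coeff (Finsupp.single (s u) 1) (g t) := by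
      ext u t
      exact ha1 _ _
    rw [h1]
    exact hdet
  have h1 : ({0} : Set (Pt ℂ σ)) ⊆ Dom A := by
    intro z hz
    rw [Set.mem_singleton_iff] at hz
    have h2 : z = fun i => algebraMap ℂ (AlgebraicClosure ℂ) ((0 : σ → ℂ) i) := by
      rw [hz]
      funext i
      exact (map_zero _).symm
    rw [h2]
    exact (mem_Dom A 0).2 hmem
  have h2 := vol_chart M hv (fun k => aeval a (h k)) a h 1 (same_one h a) (constr_pt0 (σ := σ))
    (indep_Dom A {0} h1) (fun z hz => (h1 hz).2.1) N
  rw [← h2]
  unfold vol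
  rw [GW_formal f (fun k => aeval a (h k)) N N hA hB]

end vol

end Pool.Agent.Q57.MD
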