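import Pool.Agent.Q57.MC.Transfer2

set_option autoImplicit false
set_option linter.unusedSectionVars false
set_option linter.unusedVariables false

/-! # Formal changes of coordinates: functional equations -/

namespace Pool.Agent.Q57.MD

open MvPowerSeries Pool.Agent.Q57.MC
open Pool.Agent.W574.SM (pderiv_subst constantCoeff_subst')
open Pool.Agent.W574.HS (univ)
open Pool.Agent.H628R4.TP (weylS)

section

variable {ι κ σ : Type} [Fintype ι] [Fintype κ] [Fintype σ] [DecidableEq ι]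
  [DecidableEq κ] [DecidableEq σ] {c : ℕ}

/-- power series in fewer variables -/
noncomputable def emb (ν σ : Type) : σ → MvPowerSeries (ν ⊕ σ) ℂ := fun i => X (Sum.inr i)

omit [DecidableEq σ] in
theorem hasSubst_emb (ν : Type) : HasSubst (emb ν σ) :=
  hasSubst_of_constantCoeff_zero fun i => constantCoeff_X _

theorem emb_inl {ν : Type} [DecidableEq ν] (F : MvPowerSeries σ ℂ) (x : ν) :
    pderiv ℂ (Sum.inl x) (subst (emb ν σ) F : MvPowerSeries (ν ⊕ σ) ℂ) = 0 := by
  rw [pderiv_subst (hasSubst_emb ν)]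
  refine Finset.sum_eq_zero fun i _ => ?_
  unfold emb
  rw [pderiv_X_of_ne (by simp), mul_zero]

theorem emb_inr {ν : Type} [DecidableEq ν] (F : MvPowerSeries σ ℂ) (i : σ) :
    pderiv ℂ (Sum.inr i) (subst (emb ν σ) F : MvPowerSeries (ν ⊕ σ) ℂ) =
      subst (emb ν σ) (pderiv ℂ i F) := by
  rw [pderiv_subst (hasSubst_emb ν), Finset.sum_eq_single i]
  · unfold emb
    rw [pderiv_X_self, mul_one]
  · intro j _ hj
    unfold emb
    rw [pderiv_X_of_ne (by simpa using hj), mul_zero]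
  · intro h
    exact absurd (Finset.mem_univ i) h

theorem emb_coe {ν : Type} (P : MvPolynomial σ ℂ) :
    (subst (emb ν σ) (P : MvPowerSeries σ ℂ) : MvPowerSeries (ν ⊕ σ) ℂ) = tayN ν 0 P := by
  rw [← substAlgHom_apply (R := ℂ) (hasSubst_emb ν)]
  have h1 : (substAlgHom (R := ℂ) (hasSubst_emb (σ := σ) ν)).comp
      (MvPolynomial.coeToMvPowerSeries.algHom (R := ℂ) ℂ) = tayN ν 0 := by
    refine MvPolynomial.algHom_ext fun i => ?_
    rw [AlgHom.comp_apply, tayN_X, MvPolynomial.coeToMvPowerSeries.algHom_apply]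
    simp only [MvPolynomial.coe_X, Pi.zero_apply, map_zero, zero_add]
    rw [MvPowerSeries.map_X]
    rw [substAlgHom_apply, subst_X (hasSubst_emb ν)]
    rfl
  have h2 := congrFun (congrArg DFunLike.coe h1) P
  rw [AlgHom.comp_apply, MvPolynomial.coeToMvPowerSeries.algHom_apply] at h2
  rw [← h2]
  congr 1

/-- **Formal changes of coordinates.** -/
theorem transfer_formal (f : ι → MvPolynomial σ ℂ) (h : κ → MvPolynomial (Fin c) ℂ)
    (g : Fin c → MvPowerSeries σ ℂ) (s : Fin c → σ) (hg : ∀ t, constantCoeff (g t) = 0)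
    (hdet : (Matrix.of fun u t => coeff (Finsupp.single (s u) 1) (g t)).det ≠ 0)
    (hs : Ideal.span (Set.range fun j => ((f j : MvPolynomial σ ℂ) : MvPowerSeries σ ℂ)) =
      Ideal.span (Set.range fun k => MvPolynomial.aeval g (h k))) :
    ∃ Ξ : MvPolynomial (ι ⊕ σ) ℂ →ₐ[ℂ] MvPowerSeries (κ ⊕ Fin c) ℂ,
      Ξ (univ f) = ((univ h : MvPolynomial (κ ⊕ Fin c) ℂ) : MvPowerSeries (κ ⊕ Fin c) ℂ) ∧
      (∀ j, constantCoeff (Ξ (MvPolynomial.X (Sum.inl j))) = 0) ∧
      (∀ i, constantCoeff (Ξ (MvPolynomial.X (Sum.inr i))) = (0 : σ → ℂ) i) ∧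
      ∀ Q : Module.End ℂ (MvPolynomial (ι ⊕ σ) ℂ), Q ∈ weylS (ι ⊕ σ) →
        ∃ (K : Type) (_ : Fintype K) (a : K → MvPowerSeries (κ ⊕ Fin c) ℂ)
          (D : K → weylS (κ ⊕ Fin c)),
          ∀ n : ℕ, Ξ (Q (univ f ^ n)) = ∑ l, a l *
            (((D l : Module.End ℂ (MvPolynomial (κ ⊕ Fin c) ℂ)) (univ h ^ n) :
              MvPolynomial (κ ⊕ Fin c) ℂ) : MvPowerSeries (κ ⊕ Fin c) ℂ) := by
  classical
  have hE := hasSubst_emb (σ := σ) (ι ⊕ κ)
  set ε : MvPowerSeries σ ℂ →ₐ[ℂ] MvPowerSeries ((ι ⊕ κ) ⊕ σ) ℂ := substAlgHom (R := ℂ) hE with hε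
  have hεa : ∀ F, ε F = subst (emb (ι ⊕ κ) σ) F := fun F => substAlgHom_apply hE F
  have hεh : ∀ q : MvPolynomial (Fin c) ℂ, MvPolynomial.aeval (fun t => ε (g t)) q =
      ε (MvPolynomial.aeval g q) := by
    intro q
    have h1 : MvPolynomial.aeval (fun t => ε (g t)) = ε.comp (MvPolynomial.aeval g) := by
      refine MvPolynomial.algHom_ext fun t => ?_
      rw [AlgHom.comp_apply, MvPolynomial.aeval_X, MvPolynomial.aeval_X]
    rw [h1, AlgHom.comp_apply]
  have k1 : ∀ j, ∃ q : κ → MvPowerSeries σ ℂ, ∑ k, q k * MvPolynomial.aeval g (h k) =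
      ((f j : MvPolynomial σ ℂ) : MvPowerSeries σ ℂ) := by
    intro j
    refine Ideal.mem_span_range_iff_exists_fun.1 ?_
    rw [← hs]
    exact Ideal.subset_span ⟨j, rfl⟩
  have k2 : ∀ k, ∃ q : ι → MvPowerSeries σ ℂ, ∑ j, q j *
      ((f j : MvPolynomial σ ℂ) : MvPowerSeries σ ℂ) = MvPolynomial.aeval g (h k) := by
    intro k
    refine Ideal.mem_span_range_iff_exists_fun.1 ?_
    rw [hs]
    exact Ideal.subset_span ⟨k, rfl⟩
  choose A hA using k1
  choose B hB using k2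
  refine transfer_core f h (fun t => ε (g t)) s 0 (fun j k => ε (A j k))
    (fun k j => ε (B k j)) (fun x j k => ?_) (fun x k j => ?_) (fun j => ?_)
    (fun k => ?_) (fun t => ?_) ?_
  · rw [hεa, emb_inl]
  · rw [hεa, emb_inl]
  · rw [← emb_coe, ← hεa, ← hA, map_sum]
    exact Finset.sum_congr rfl fun k _ => by rw [map_mul, hεh]
  · rw [hεh, ← hB, map_sum]
    exact Finset.sum_congr rfl fun j _ => by rw [map_mul, hεa ((f j : MvPolynomial σ ℂ) :
      MvPowerSeries σ ℂ), emb_coe]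
  · rw [hεa, constantCoeff_subst' hE (fun i => constantCoeff_X _), hg]
  · have e1 : (Matrix.of fun u t => constantCoeff (pderiv ℂ (Sum.inr (s u)) (ε (g t)))) =
        Matrix.of fun u t => coeff (Finsupp.single (s u) 1) (g t) := by
      ext1 u t
      rw [Matrix.of_apply, Matrix.of_apply, hεa, emb_inr,
        constantCoeff_subst' hE (fun i => constantCoeff_X _)]
      rw [← coeff_zero_eq_constantCoeff_apply, coeff_pderiv]
      simp
    rw [e1]
    exact hdet

end

end Pool.Agent.Q57.MD
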