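import Pool.Agent.Q57.MD.VSer

set_option autoImplicit false
set_option linter.unusedSectionVars false
set_option linter.unusedVariables false

/-! # Coefficientwise products -/

namespace Pool.Agent.Q57.MD

open Pool.Agent.TH192.MT Pool.Agent.TH192.DT Pool.Agent.Q49.CO
open Pool.Agent.W574.RO (had had_mem exists_dp mem_of_dp OkM)
open Pool.Agent.W574.MO (DenRing)

variable {R : Type} [CommRing R] (u : Rˣ)

theorem poly_mem (D : Set (ℤ × ℤ)) (P : Polynomial R) : (P : PowerSeries R) ∈ ratU u D := by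
  induction P using Polynomial.induction_on' with
  | add P Q hP hQ =>
    rw [Polynomial.coe_add]
    exact Subalgebra.add_mem _ hP hQ
  | monomial n a =>
    rw [← Polynomial.C_mul_X_pow_eq_monomial, Polynomial.coe_mul, Polynomial.coe_C,
      Polynomial.coe_pow, Polynomial.coe_X]
    exact Subalgebra.mul_mem _ (rat_C u _) (Subalgebra.pow_mem _ (rat_X u) _)

theorem inv_pow_zpow {a : ℤ} {n : ℕ} (h : a = -(n : ℤ)) : (u⁻¹ ^ n : Rˣ) = u ^ a := by
  rw [h, zpow_neg, zpow_natCast, inv_pow]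

theorem ratU_den {S : Set (ℤ × ℤ)} (hS : ∀ q ∈ S, q.1 < 0 ∧ 0 < q.2) {Z : PowerSeries R}
    (h : Z ∈ ratU u S) : Z ∈ DenRing u fun a n => (-(n : ℤ), (a : ℤ)) ∈ S := by
  induction h using Algebra.adjoin_induction with
  | mem Z h =>
    rcases h with h | ⟨⟨a, b⟩, hp, rfl⟩
    · rw [Set.mem_singleton_iff.1 h]
      exact Subring.subset_closure (Or.inl ⟨Polynomial.X, Polynomial.coe_X⟩)
    · obtain ⟨ha, hb⟩ := hS _ hp
      simp only at ha hb
      refine Subring.subset_closure (Or.inr ⟨b.toNat, (-a).toNat, by omega, by omega, ?_, ?_⟩)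
      · have e1 : -(((-a).toNat : ℕ) : ℤ) = a := by omega
        have e2 : ((b.toNat : ℕ) : ℤ) = b := by omega
        beta_reduce
        rw [e1, e2]
        exact hp
      · rw [inv_pow_zpow u (a := a) (by omega), mul_comm]
        exact geoU_spec u a b hb
  | algebraMap r =>
    exact Subring.subset_closure (Or.inl ⟨Polynomial.C r, Polynomial.coe_C _⟩)
  | add Z Z' _ _ h h' => exact (DenRing u _).add_mem h h'
  | mul Z Z' _ _ h h' => exact (DenRing u _).mul_mem h h'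

theorem den_ratU {K : ℕ → ℕ → Prop} {Z : PowerSeries R} (h : Z ∈ DenRing u K) :
    ∃ S : Finset (ℤ × ℤ), (∀ q ∈ S, ∃ a n : ℕ, 1 ≤ a ∧ 1 ≤ n ∧ K a n ∧
      q = (-(n : ℤ), (a : ℤ))) ∧ Z ∈ ratU u (S : Set (ℤ × ℤ)) := by
  classical
  obtain ⟨s, hs, hP⟩ := exists_dp h
  have h1 : Z ∈ DenRing u fun a n => (a, n) ∈ s :=
    mem_of_dp s (fun p hp => ⟨(hs p hp).1, (hs p hp).2.1, hp⟩) hP
  refine ⟨s.toFinset.image fun p => (-(p.2 : ℤ), (p.1 : ℤ)), fun q hq => ?_, ?_⟩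
  · obtain ⟨p, hp, rfl⟩ := Finset.mem_image.1 hq
    have := hs p (Multiset.mem_toFinset.1 hp)
    exact ⟨p.1, p.2, this.1, this.2.1, this.2.2, rfl⟩
  · have h2 : DenRing u (fun a n => (a, n) ∈ s) ≤ (ratU u
        ((s.toFinset.image fun p => (-(p.2 : ℤ), (p.1 : ℤ)) : Finset (ℤ × ℤ)) :
          Set (ℤ × ℤ))).toSubring := by
      refine (Subring.closure_le).2 ?_
      rintro g (⟨P, rfl⟩ | ⟨a, n, ha, hn, hK, hg⟩)
      · exact poly_mem u _ P
      · have hmem : (-(n : ℤ), (a : ℤ)) ∈ ((s.toFinset.image fun p => (-(p.2 : ℤ), (p.1 : ℤ)) :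
            Finset (ℤ × ℤ)) : Set (ℤ × ℤ)) :=
          Finset.mem_coe.2 (Finset.mem_image.2 ⟨(a, n), Multiset.mem_toFinset.2 hK, rfl⟩)
        have e1 := geoU_spec u (-(n : ℤ)) (a : ℤ) (by omega)
        have e2 : g = geoU u (-(n : ℤ)) (a : ℤ) := by
          rw [inv_pow_zpow u rfl] at hg
          have e3 : ((a : ℤ)).toNat = a := Int.toNat_natCast a
          rw [e3] at e1
          calc g = g * ((1 - PowerSeries.C ((u ^ (-(n : ℤ)) : Rˣ) : R) * PowerSeries.X ^ a) *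
                geoU u (-(n : ℤ)) (a : ℤ)) := by rw [e1, mul_one]
            _ = (g * (1 - PowerSeries.C ((u ^ (-(n : ℤ)) : Rˣ) : R) * PowerSeries.X ^ a)) *
                geoU u (-(n : ℤ)) (a : ℤ) := by ring
            _ = _ := by rw [hg, one_mul]
        rw [e2]
        exact Algebra.subset_adjoin (Or.inr ⟨_, hmem, rfl⟩)
    exact h2 h1

/-- **Coefficientwise products.** -/
theorem had_ratU {S T : Finset (ℤ × ℤ)} (hS : ∀ q ∈ S, q.1 < 0 ∧ 0 < q.2)
    (hT : ∀ q ∈ T, q.1 < 0 ∧ 0 < q.2) {Z W : PowerSeries R} (hZ : Z ∈ ratU u (S : Set (ℤ × ℤ)))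
    (hW : W ∈ ratU u (T : Set (ℤ × ℤ))) :
    ∃ P : Finset (ℤ × ℤ), (∀ q ∈ P, q.1 < 0 ∧ 0 < q.2 ∧ ∃ s ∈ S, ∃ t ∈ T,
      (q.1 : ℂ) / q.2 = (s.1 : ℂ) / s.2 + (t.1 : ℂ) / t.2) ∧
      had Z W ∈ ratU u (P : Set (ℤ × ℤ)) := by
  have h1 := ratU_den u (fun q hq => hS q (Finset.mem_coe.1 hq)) hZ
  have h2 := ratU_den u (fun q hq => hT q (Finset.mem_coe.1 hq)) hW
  have h3 : had Z W ∈ DenRing u fun a n => ∃ s ∈ S, ∃ t ∈ T,
      -(n : ℂ) / a = (s.1 : ℂ) / s.2 + (t.1 : ℂ) / t.2 := by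
    refine had_mem h1 h2 fun a n a' n' l ha hn hK ha' hn' hK' hl hal hal' => ?_
    refine ⟨_, Finset.mem_coe.1 hK, _, Finset.mem_coe.1 hK', ?_⟩
    obtain ⟨k, rfl⟩ := hal
    obtain ⟨k', hk'⟩ := hal'
    have hk0 : k ≠ 0 := by
      rintro rfl
      omega
    have hk'0 : k' ≠ 0 := by
      rintro rfl
      omega
    have e1 : a * k / a = k := Nat.mul_div_cancel_left k (by omega)
    have e2 : a * k / a' = k' := by
      rw [hk']
      exact Nat.mul_div_cancel_left k' (by omega)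
    rw [e1, e2]
    have e3 : (a : ℂ) * k = a' * k' := by exact_mod_cast hk'
    have a0 : (a : ℂ) ≠ 0 := by
      have : a ≠ 0 := by omega
      exact_mod_cast this
    have a0' : (a' : ℂ) ≠ 0 := by
      have : a' ≠ 0 := by omega
      exact_mod_cast this
    have k0 : (k : ℂ) ≠ 0 := by exact_mod_cast hk0
    have k0' : (k' : ℂ) ≠ 0 := by exact_mod_cast hk'0
    push_cast
    have e4 : (-((n : ℂ) * k + n' * k')) / (a * k) = -(n : ℂ) / a + -(n' : ℂ) / a' := by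
      rw [div_add_div _ _ a0 a0', div_eq_div_iff (mul_ne_zero a0 k0) (mul_ne_zero a0 a0')]
      linear_combination (n' * a : ℂ) * e3
    rw [e4]
  obtain ⟨P, hP1, hP2⟩ := den_ratU u h3
  refine ⟨P, fun q hq => ?_, hP2⟩
  obtain ⟨a, n, ha, hn, ⟨s, hs, t, ht, h4⟩, rfl⟩ := hP1 q hq
  refine ⟨by simp only; omega, by simp only; omega, s, hs, t, ht, ?_⟩
  rw [← h4]
  push_cast
  rfl

end Pool.Agent.Q57.MD
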