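import Pool.Agent.Q57.MD.RRoot
import Pool.Agent.W574.LM.Eng

set_option autoImplicit false
set_option linter.unusedSectionVars false
set_option linter.unusedVariables false

/-! # Local functional equations and the twisted de Rham complex of a form

For `α = - |T| / d` and a combination `F = ∑ λ_j f_j` of forms of degree `d` in the variables `x_i`,
`i ∈ T`, a local functional equation `H b(∑ s_j) ∏ f_j ^ s_j = ⋯` shows that `b(α) H F ^ α` is a sum
of derivatives `∂_i (g_i F ^ (α - K))`, `i ∈ T`. -/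

namespace Pool.Agent.Q57.MD

open MvPolynomial Pool.Agent.W574.SM
open Pool.Agent.W574.LM (IsLocEq)

section ring

variable {σ : Type} [Fintype σ] [DecidableEq σ]

theorem HT_C_mul {T : Finset σ} {P : MvPolynomial σ ℂ} {d : ℕ} (hP : HT T P d) (c : ℂ) :
    HT T (C c * P) d := MvPolynomial.IsWeightedHomogeneous.C_mul hP c

theorem HT_mul {T : Finset σ} {P Q : MvPolynomial σ ℂ} {d e : ℕ} (hP : HT T P d) (hQ : HT T Q e) :
    HT T (P * Q) (d + e) := MvPolynomial.IsWeightedHomogeneous.mul hP hQ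

theorem HT_add {T : Finset σ} {P Q : MvPolynomial σ ℂ} {d : ℕ} (hP : HT T P d) (hQ : HT T Q d) :
    HT T (P + Q) d := MvPolynomial.IsWeightedHomogeneous.add hP hQ

theorem HT_zero (T : Finset σ) (d : ℕ) : HT T (0 : MvPolynomial σ ℂ) d :=
  isWeightedHomogeneous_zero ℂ _ d

theorem HT_X (T : Finset σ) (i : σ) : HT T (X i : MvPolynomial σ ℂ) (if i ∈ T then 1 else 0) :=
  isWeightedHomogeneous_X ℂ _ i

theorem HT_sum {α : Type} {T : Finset σ} (s : Finset α) (P : α → MvPolynomial σ ℂ) (d : ℕ)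
    (h : ∀ i ∈ s, HT T (P i) d) : HT T (∑ i ∈ s, P i) d :=
  MvPolynomial.IsWeightedHomogeneous.sum s P d h

theorem wt_add_single' (T : Finset σ) (m : σ →₀ ℕ) (i : σ) :
    Finsupp.weight (fun i => if i ∈ T then 1 else 0) (m + Finsupp.single i 1) =
      Finsupp.weight (fun i => if i ∈ T then 1 else 0) m + (if i ∈ T then 1 else 0) := by
  rw [map_add, Finsupp.weight_single, smul_eq_mul, one_mul]

theorem HT_pderiv {T : Finset σ} {P : MvPolynomial σ ℂ} {d e : ℕ} (i : σ) (hP : HT T P d)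
    (he : e + (if i ∈ T then 1 else 0) = d) : HT T (pderiv i P) e := by
  intro m hm
  rw [coeff_pderiv] at hm
  have h1 := hP (left_ne_zero_of_mul hm)
  rw [wt_add_single'] at h1
  omega

theorem euler_poly {T : Finset σ} {P : MvPolynomial σ ℂ} {d : ℕ} (hP : HT T P d) :
    ∑ i ∈ T, X i * pderiv i P = (d : MvPolynomial σ ℂ) * P := by
  have h1 := MvPolynomial.IsWeightedHomogeneous.sum_weight_X_mul_pderiv hP
  rw [nsmul_eq_mul] at h1
  rw [← h1, ← Finset.sum_subset (Finset.subset_univ T)]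
  · refine Finset.sum_congr rfl fun i hi => ?_
    rw [if_pos hi, one_smul]
  · intro i _ hi
    rw [if_neg hi, zero_smul]

end ring

section tw

variable {σ L : Type} [Fintype σ] [DecidableEq σ] [Field L] [Algebra ℂ L]

/-- the derivative of `u F ^ α`, divided by `F ^ α` -/
noncomputable def tw (θ : σ → Derivation ℂ L L) (G : L) (α : ℂ) (i : σ) (u : L) : L :=
  θ i u + algebraMap ℂ L α * (θ i G * G⁻¹) * u

variable (φ : MvPolynomial σ ℂ →ₐ[ℂ] L) (θ : σ → Derivation ℂ L L)
  (F : MvPolynomial σ ℂ) (α : ℂ)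

theorem tw_add (G : L) (i : σ) (u v : L) : tw θ G α i (u + v) = tw θ G α i u + tw θ G α i v := by
  rw [tw, tw, tw, map_add]
  ring

theorem tw_mul (G : L) (i : σ) (u v : L) : tw θ G α i (u * v) = θ i u * v + u * tw θ G α i v := by
  rw [tw, tw, Derivation.leibniz, smul_eq_mul, smul_eq_mul]
  ring

theorem tw_comm (G : L) (hG : G ≠ 0) (hcomm : ∀ s t u, θ s (θ t u) = θ t (θ s u)) (i j : σ)
    (u : L) : tw θ G α i (tw θ G α j u) = tw θ G α j (tw θ G α i u) := by
  simp only [tw, map_add, Derivation.leibniz, Derivation.leibniz_inv, smul_eq_mul,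
    Derivation.map_algebraMap, hcomm i j]
  field_simp
  ring

theorem tw_hom (hθ : ∀ i p, θ i (φ p) = φ (pderiv i p)) (hF : φ F ≠ 0) (P : MvPolynomial σ ℂ)
    (K : ℕ) (i : σ) : tw θ (φ F) α i (φ P * (φ F)⁻¹ ^ K) =
      φ (F * pderiv i P + C (α - K) * (P * pderiv i F)) * (φ F)⁻¹ ^ (K + 1) := by
  have h1 : θ i ((φ F)⁻¹ ^ K) = -(K : L) * φ (pderiv i F) * (φ F)⁻¹ ^ (K + 1) := by
    rw [Derivation.leibniz_pow, Derivation.leibniz_inv, hθ]
    rcases K with _ | K
    · simp
    · rw [Nat.add_sub_cancel, smul_eq_mul, smul_eq_mul, nsmul_eq_mul]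
      push_cast
      ring
  have h2 : φ (C (α - K)) = algebraMap ℂ L α - K := by
    have h3 : φ (C (α - K)) = algebraMap ℂ L (α - K) := φ.commutes _
    rw [h3, map_sub, map_natCast]
  rw [tw, Derivation.leibniz, h1, hθ, hθ, smul_eq_mul, smul_eq_mul, map_add, map_mul, map_mul,
    map_mul, h2, pow_succ]
  field_simp
  ring

/-- the elements of `D_x` applied to the elements of degree `≥ d` -/
inductive CC (T : Finset σ) (d : ℕ) : L → Prop
  | hom (P : MvPolynomial σ ℂ) (K w : ℕ) (hP : HT T P w) (hw : d * K + d ≤ w) :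
      CC T d (φ P * (φ F)⁻¹ ^ K)
  | add (u v : L) (hu : CC T d u) (hv : CC T d v) : CC T d (u + v)
  | der (i : σ) (hi : i ∈ T) (u : L) (hu : CC T d u) : CC T d (tw θ (φ F) α i u)

variable {φ θ F α} {T : Finset σ} {d : ℕ}

theorem CC_C (hθ : ∀ i p, θ i (φ p) = φ (pderiv i p)) (c : ℂ) {u : L} (hu : CC φ θ F α T d u) :
    CC φ θ F α T d (φ (C c) * u) := by
  induction hu with
  | hom P K w hP hw =>
    rw [← mul_assoc, ← map_mul]
    exact CC.hom _ K w (HT_C_mul hP c) hw
  | add u v _ _ h1 h2 =>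
    rw [mul_add]
    exact CC.add _ _ h1 h2
  | der i hi u _ h1 =>
    have h2 := tw_mul θ α (φ F) i (φ (C c)) u
    rw [hθ, pderiv_C, map_zero, zero_mul, zero_add] at h2
    rw [← h2]
    exact CC.der i hi _ h1

theorem CC_X (hθ : ∀ i p, θ i (φ p) = φ (pderiv i p)) (j : σ) {u : L}
    (hu : CC φ θ F α T d u) : CC φ θ F α T d (φ (X j) * u) := by
  induction hu with
  | hom P K w hP hw =>
    rw [← mul_assoc, ← map_mul]
    exact CC.hom _ K _ (HT_mul (HT_X T j) hP) (by omega)
  | add u v _ _ h1 h2 =>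
    rw [mul_add]
    exact CC.add _ _ h1 h2
  | der i hi u hu h1 =>
    have h2 := tw_mul θ α (φ F) i (φ (X j)) u
    rw [hθ] at h2
    have h3 : φ (X j) * tw θ (φ F) α i u = tw θ (φ F) α i (φ (X j) * u) +
        φ (C (-(if j = i then 1 else 0))) * u := by
      rw [h2, pderiv_X, Pi.single_apply]
      split_ifs with h
      · have h4 : φ (C (-1)) = -1 := by rw [map_neg, map_neg, map_one, map_one]
        rw [map_one, h4]
        ring
      · have h4 : φ (C (-0)) = 0 := by rw [neg_zero, map_zero, map_zero]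
        rw [map_zero, h4]
        ring
    rw [h3]
    exact CC.add _ _ (CC.der i hi _ h1) (CC_C hθ _ hu)

theorem CC_D (hθ : ∀ i p, θ i (φ p) = φ (pderiv i p)) (hF : φ F ≠ 0)
    (hcomm : ∀ s t u, θ s (θ t u) = θ t (θ s u)) (hFd : HT T F d) (j : σ) {u : L}
    (hu : CC φ θ F α T d u) : CC φ θ F α T d (tw θ (φ F) α j u) := by
  by_cases hj : j ∈ T
  · exact CC.der j hj u hu
  · induction hu with
    | hom P K w hP hw =>
      rw [tw_hom φ θ F α hθ hF]
      refine CC.hom _ (K + 1) (d + w) (HT_add (HT_mul hFd (HT_pderiv j hP ?_)) (HT_C_mul ?_ _)) ?_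
      · rw [if_neg hj, add_zero]
      · rw [add_comm d w]
        refine HT_mul hP (HT_pderiv j hFd ?_)
        rw [if_neg hj, add_zero]
      · rw [Nat.mul_add, mul_one]
        omega
    | add u v _ _ h1 h2 =>
      rw [tw_add]
      exact CC.add _ _ h1 h2
    | der i hi u _ h1 =>
      rw [tw_comm θ α (φ F) hF hcomm]
      exact CC.der i hi _ h1

theorem CC_zero : CC φ θ F α T d 0 := by
  have h1 := CC.hom (φ := φ) (θ := θ) (F := F) (α := α) (T := T) (d := d) 0 0 (d * 0 + d)
    (HT_zero T _) le_rfl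
  rwa [map_zero, zero_mul] at h1

theorem CC_sum {β : Type} (s : Finset β) (u : β → L) (h : ∀ i ∈ s, CC φ θ F α T d (u i)) :
    CC φ θ F α T d (∑ i ∈ s, u i) := by
  classical
  induction s using Finset.induction_on with
  | empty =>
    rw [Finset.sum_empty]
    exact CC_zero
  | insert a s ha ih =>
    rw [Finset.sum_insert ha]
    exact CC.add _ _ (h a (Finset.mem_insert_self a s)) (ih fun i hi =>
      h i (Finset.mem_insert_of_mem hi))

theorem CC_form (hθ : ∀ i p, θ i (φ p) = φ (pderiv i p)) (hF : φ F ≠ 0) {u : L}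
    (hu : CC φ θ F α T d u) : ∃ P K, u = φ P * (φ F)⁻¹ ^ K := by
  induction hu with
  | hom P K w hP hw => exact ⟨P, K, rfl⟩
  | add u v _ _ h1 h2 =>
    obtain ⟨P, K, rfl⟩ := h1
    obtain ⟨Q, M, rfl⟩ := h2
    refine ⟨P * F ^ M + Q * F ^ K, K + M, ?_⟩
    rw [map_add, map_mul, map_mul, map_pow, map_pow, inv_pow, inv_pow, inv_pow, pow_add]
    field_simp
  | der i hi u _ h1 =>
    obtain ⟨P, K, rfl⟩ := h1
    exact ⟨_, K + 1, tw_hom φ θ F α hθ hF P K i⟩

/-- the sum of the derivatives -/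
theorem CC_exact (hθ : ∀ i p, θ i (φ p) = φ (pderiv i p)) (hF : φ F ≠ 0) (hd : 0 < d)
    (hFd : HT T F d) (hα : α * d = -(T.card : ℂ)) {u : L} (hu : CC φ θ F α T d u) :
    ∃ (K : ℕ) (g : σ → MvPolynomial σ ℂ),
      u = φ (∑ i ∈ T, (F * pderiv i (g i) + C (α - K) * (g i * pderiv i F))) *
        (φ F)⁻¹ ^ (K + 1) := by
  induction hu with
  | hom P K w hP hw =>
    have hK : d * K < w := by omega
    have hc : ((w : ℂ) - d * K) ≠ 0 := by
      have h1 : ((d * K : ℕ) : ℂ) ≠ w := Nat.cast_injective.ne (by omega)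
      push_cast at h1
      exact sub_ne_zero.2 h1.symm
    set c : ℂ := ((w : ℂ) - d * K)⁻¹ with hcdef
    refine ⟨K, fun i => C c * (X i * P), ?_⟩
    have h1 : ∑ i ∈ T, (F * pderiv i (C c * (X i * P)) + C (α - K) * (C c * (X i * P) *
        pderiv i F)) = F * P := by
      have h2 : ∀ i ∈ T, F * pderiv i (C c * (X i * P)) + C (α - K) * (C c * (X i * P) *
          pderiv i F) = C c * F * P + C c * F * (X i * pderiv i P) +
            C (α - K) * C c * P * (X i * pderiv i F) := by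
        intro i _
        rw [Derivation.leibniz, Derivation.leibniz, pderiv_C, pderiv_X_self, smul_eq_mul,
          smul_eq_mul, smul_eq_mul, smul_eq_mul]
        ring
      rw [Finset.sum_congr rfl h2, Finset.sum_add_distrib, Finset.sum_add_distrib]
      simp only [← Finset.mul_sum]
      rw [euler_poly hP, euler_poly hFd, Finset.sum_const, nsmul_eq_mul]
      have h3 : (C c : MvPolynomial σ ℂ) * (C ((T.card : ℂ) + w + (α - K) * d)) = 1 := by
        rw [← C_mul]
        have h4 : (T.card : ℂ) + w + (α - K) * d = w - d * K := by linear_combination hα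
        rw [h4, hcdef, inv_mul_cancel₀ hc, C_1]
      have h4 : (C ((T.card : ℂ) + w + (α - K) * d) : MvPolynomial σ ℂ) =
          (T.card : MvPolynomial σ ℂ) + (w : MvPolynomial σ ℂ) +
            C (α - K) * (d : MvPolynomial σ ℂ) := by
        rw [C_add, C_add, C_mul]
        simp only [map_natCast]
      rw [h4] at h3
      linear_combination F * P * h3
    rw [h1, map_mul, pow_succ]
    field_simp
  | add u v _ _ h1 h2 =>
    obtain ⟨K, g, rfl⟩ := h1
    obtain ⟨M, h, rfl⟩ := h2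
    have h3 : ∀ (K M : ℕ) (g : σ → MvPolynomial σ ℂ),
        φ (∑ i ∈ T, (F * pderiv i (g i) + C (α - K) * (g i * pderiv i F))) *
          (φ F)⁻¹ ^ (K + 1) =
        φ (∑ i ∈ T, (F * pderiv i (F ^ M * g i) + C (α - ((K + M : ℕ) : ℂ)) * (F ^ M * g i *
          pderiv i F))) * (φ F)⁻¹ ^ (K + M + 1) := by
      intro K M g
      have h4 : ∀ i ∈ T, F * pderiv i (F ^ M * g i) + C (α - ((K + M : ℕ) : ℂ)) * (F ^ M * g i *
          pderiv i F) = F ^ M * (F * pderiv i (g i) + C (α - K) * (g i * pderiv i F)) := by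
        intro i _
        have h5 : (C (α - ((K + M : ℕ) : ℂ)) : MvPolynomial σ ℂ) =
            C (α - K) - (M : MvPolynomial σ ℂ) := by
          push_cast
          rw [← sub_sub, C_sub]
          simp only [map_natCast]
        rw [h5, Derivation.leibniz, Derivation.leibniz_pow, smul_eq_mul, smul_eq_mul,
          nsmul_eq_mul]
        rcases M with _ | M
        · simp
        · rw [Nat.add_sub_cancel, smul_eq_mul]
          push_cast
          ring
      rw [Finset.sum_congr rfl h4, ← Finset.mul_sum, map_mul, map_pow]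
      have h6 : K + M + 1 = M + (K + 1) := by ring
      rw [h6, pow_add (φ F)⁻¹ M, inv_pow (φ F) M]
      field_simp
    refine ⟨K + M, fun i => F ^ M * g i + F ^ K * h i, ?_⟩
    rw [h3 K M g, h3 M K h, Nat.add_comm M K, ← add_mul, ← map_add, ← Finset.sum_add_distrib]
    congr 2
    refine Finset.sum_congr rfl fun i _ => ?_
    rw [map_add]
    ring
  | der i hi u hu _ =>
    obtain ⟨P, K, rfl⟩ := CC_form hθ hF hu
    refine ⟨K, fun j => if j = i then P else 0, ?_⟩
    rw [tw_hom φ θ F α hθ hF, Finset.sum_eq_single i]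
    · simp only [if_true]
    · intro j _ hj
      simp only [if_neg hj, map_zero, mul_zero, zero_mul, add_zero]
    · intro h
      exact absurd hi h

end tw

section lift

variable {σ ι L : Type} [Fintype σ] [DecidableEq σ] [Fintype ι] [DecidableEq ι] [Field L]
  [Algebra ℂ L] {φ : MvPolynomial σ ℂ →ₐ[ℂ] L} {θ : σ → Derivation ℂ L L}
  {f : ι → MvPolynomial σ ℂ} {lam : ι → ℂ} {F : MvPolynomial σ ℂ} {α : ℂ} {T : Finset σ} {d : ℕ}

/-- the elements of degree `d` of `A[∂_t]` -/
def TH (T : Finset σ) (d : ℕ) (q : MvPolynomial ι (MvPolynomial σ ℂ)) : Prop :=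
  ∀ γ, HT T (coeff γ q) (d * (1 + γ.degree))

theorem theta_TH (hf : ∀ j, HT T (f j) d) (j : ι) {q : MvPolynomial ι (MvPolynomial σ ℂ)}
    (hq : TH T d q) : TH T d (theta f j q) := by
  intro γ
  rw [theta, coeff_X_mul']
  split_ifs with h
  · have h1 : (γ - Finsupp.single j 1) + Finsupp.single j 1 = γ := by
      rw [tsub_add_cancel_of_le]
      rw [Finsupp.single_le_iff]
      have : γ j ≠ 0 := by simpa using h
      omega
    have h2 := congrArg Finsupp.degree h1
    rw [map_add, Finsupp.degree_single] at h2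
    rw [coeff_add, coeff_C_mul, coeff_pderiv, h1]
    refine HT_add ?_ ?_
    · have h3 : d * (1 + γ.degree) = d + d * (1 + (γ - Finsupp.single j 1).degree) := by
        rw [← h2]
        ring
      rw [h3]
      exact HT_mul (hf j) (hq _)
    · have h3 : (((γ - Finsupp.single j 1 : ι →₀ ℕ) j : MvPolynomial σ ℂ) + 1) =
          C ((((γ - Finsupp.single j 1 : ι →₀ ℕ) j : ℕ) : ℂ) + 1) := by
        rw [C_add, C_1, map_natCast]
      rw [h3, mul_comm]
      exact HT_C_mul (hq γ) _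
  · exact HT_zero T _

theorem exists_theta_TH (hf : ∀ j, HT T (f j) d) (β : ι →₀ ℕ) :
    ∃ Th : MvPolynomial ι (MvPolynomial σ ℂ) → MvPolynomial ι (MvPolynomial σ ℂ),
      (∀ s q, ip (E f s) (Th q) = (∏ j, ((s j : ℂ)) ^ β j) • ip (E f s) q) ∧
      ∀ q, TH T d q → TH T d (Th q) := by
  induction β using finsupp_ind with
  | h0 => exact ⟨id, fun s q => by simp, fun q h => h⟩
  | h1 β j ih =>
    obtain ⟨Th, h1, h2⟩ := ih
    refine ⟨fun q => theta f j (Th q), fun s q => ?_, fun q h => theta_TH hf j (h2 q h)⟩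
    rw [ip_theta, h1]
    have h3 : ∏ k, ((s k : ℂ)) ^ ((β + Finsupp.single j 1 : ι →₀ ℕ) k)
        = (s j : ℂ) * ∏ k, ((s k : ℂ)) ^ (β k) := by
      rw [← Finset.mul_prod_erase _ _ (Finset.mem_univ j),
        ← Finset.mul_prod_erase Finset.univ (fun k => ((s k : ℂ)) ^ (β k)) (Finset.mem_univ j),
        Finsupp.add_apply, Finsupp.single_eq_same, pow_succ, mul_comm (_ ^ _) (s j : ℂ), mul_assoc]
      congr 2
      refine Finset.prod_congr rfl fun k hk => ?_
      rw [Finsupp.add_apply, Finsupp.single_eq_of_ne (Finset.ne_of_mem_erase hk), add_zero]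
    rw [h3, mul_smul]
    have h4 : ((s j : ℕ) : MvPolynomial σ ℂ) = C ((s j : ℕ) : ℂ) := by simp
    rw [h4, C_mul']

theorem qc_TH (hf : ∀ j, HT T (f j) d) (c : ι → ℤ) (hc : ∑ j, c j = 1) :
    TH T d (qc f c) := by
  intro γ
  rw [qc, coeff_monomial]
  split_ifs with h
  · refine HT_C_mul ?_ _
    have h1 : HT T (∏ j, f j ^ (c j).toNat) (∑ j, (c j).toNat * d) := by
      refine MvPolynomial.IsWeightedHomogeneous.prod Finset.univ _ _ fun j _ => ?_
      have h2 := (hf j).pow ((c j).toNat)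
      rwa [smul_eq_mul] at h2
    have h2 : ∑ j, ((c j).toNat : ℤ) = 1 + ∑ j, ((cneg c j : ℕ) : ℤ) := by
      rw [← hc, ← Finset.sum_add_distrib]
      refine Finset.sum_congr rfl fun j _ => ?_
      rw [cneg_apply]
      omega
    have h3 : ∑ j, (c j).toNat = 1 + ∑ j, cneg c j := by exact_mod_cast h2
    rw [← Finset.sum_mul, h3, ← Finsupp.degree_eq_sum, h, mul_comm] at h1
    exact h1
  · exact HT_zero T _

theorem lift_CC (hθ : ∀ i p, θ i (φ p) = φ (pderiv i p)) (hF : φ F ≠ 0)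
    (hcomm : ∀ s t u, θ s (θ t u) = θ t (θ s u)) (hFd : HT T F d)
    (hFf : φ F = ∑ j, algebraMap ℂ L (lam j) * φ (f j))
    (Q : Module.End ℂ (MvPolynomial σ ℂ)) (hQ : Q ∈ weyl σ) :
    ∃ Qh : MvPolynomial ι (MvPolynomial σ ℂ) → MvPolynomial ι (MvPolynomial σ ℂ),
      (∀ s q, Q (ip (E f s) q) = ip (E f s) (Qh q)) ∧
      ∀ q, CC φ θ F α T d (pairL φ (fun _ : Unit => lam) (fun _ => α) (fun _ => φ F) 1 q) →
        CC φ θ F α T d (pairL φ (fun _ : Unit => lam) (fun _ => α) (fun _ => φ F) 1 (Qh q)) := by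
  have hJac : Jac φ θ = 1 := by
    ext1 s t
    rw [Jac, Matrix.of_apply, hθ, pderiv_X, Matrix.one_apply, Pi.single_apply]
    by_cases h : s = t
    · rw [if_pos h.symm, if_pos h, map_one]
    · rw [if_neg (Ne.symm h), if_neg h, map_zero]
  have hJ : (Jac φ θ).det ≠ 0 := by
    rw [hJac, Matrix.det_one]
    exact one_ne_zero
  have hDD : ∀ i u, DD φ θ i u = θ i u := by
    intro i u
    rw [DD_apply, hJac, inv_one, Finset.sum_eq_single i]
    · rw [Matrix.one_apply_eq, one_mul]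
    · intro t _ ht
      rw [Matrix.one_apply_ne (Ne.symm ht), zero_mul]
    · intro h
      exact absurd (Finset.mem_univ i) h
  have hom : ∀ i, om φ θ (Om θ (fun _ : Unit => α) (fun _ => φ F)) i =
      algebraMap ℂ L α * (θ i (φ F) * (φ F)⁻¹) := by
    intro i
    rw [om, hJac, inv_one, Finset.sum_eq_single i]
    · rw [Matrix.one_apply_eq, one_mul, Om, Finset.univ_unique, Finset.sum_singleton]
    · intro t _ ht
      rw [Matrix.one_apply_ne (Ne.symm ht), zero_mul]
    · intro h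
      exact absurd (Finset.mem_univ i) h
  induction hQ using Algebra.adjoin_induction with
  | mem Q hQ =>
    rcases hQ with ⟨i, rfl⟩ | ⟨i, rfl⟩
    · refine ⟨fun q => C (X i) * q, fun s q => ?_, fun q hq => ?_⟩
      · rw [ip_C_mul]; rfl
      · rw [pairL_C_mul]
        exact CC_X hθ i hq
    · refine ⟨fun q => dh f i q, fun s q => ip_dh f i s q, fun q hq => ?_⟩
      rw [pairL_dh_tw φ θ f _ _ _ hJ (fun _ => hFf) (fun _ => hF), hDD, hom]
      exact CC_D hθ hF hcomm hFd i hq
  | algebraMap r =>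
    refine ⟨fun q => C (C r) * q, fun s q => ?_, fun q hq => ?_⟩
    · rw [ip_C_mul, C_mul']; rfl
    · rw [pairL_C_mul]
      exact CC_C hθ r hq
  | add Q1 Q2 _ _ h1 h2 =>
    obtain ⟨A1, hA1, hB1⟩ := h1
    obtain ⟨A2, hA2, hB2⟩ := h2
    refine ⟨fun q => A1 q + A2 q, fun s q => ?_, fun q hq => ?_⟩
    · rw [LinearMap.add_apply, hA1, hA2, map_add]
    · rw [pairL_add]
      exact CC.add _ _ (hB1 q hq) (hB2 q hq)
  | mul Q1 Q2 _ _ h1 h2 =>
    obtain ⟨A1, hA1, hB1⟩ := h1
    obtain ⟨A2, hA2, hB2⟩ := h2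
    refine ⟨fun q => A1 (A2 q), fun s q => ?_, fun q hq => hB1 _ (hB2 q hq)⟩
    rw [Module.End.mul_apply, hA2, hA1]

theorem SS_monomial_unit (γ : ι →₀ ℕ) (p : MvPolynomial σ ℂ) :
    ∃ c : ℂ, SS φ (fun _ : Unit => lam) (monomial γ p) =
      monomial (Finsupp.single () γ.degree) (φ (C c * p)) := by
  induction γ using finsupp_ind with
  | h0 =>
    refine ⟨1, ?_⟩
    have h1 : (monomial 0 p : MvPolynomial ι (MvPolynomial σ ℂ)) = C p := rfl
    rw [h1, SS_C, map_zero, Finsupp.single_zero, C_1, one_mul]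
    rfl
  | h1 γ j ih =>
    obtain ⟨c, hc⟩ := ih
    refine ⟨lam j * c, ?_⟩
    rw [← X_mul_monomial, map_mul, hc, SS_X, ell, Finset.univ_unique, Finset.sum_singleton,
      mul_assoc]
    have h1 : (X default : MvPolynomial Unit L) * monomial (Finsupp.single () γ.degree)
        (φ (C c * p)) = monomial (Finsupp.single () (γ.degree + 1)) (φ (C c * p)) := by
      rw [X_mul_monomial, Finsupp.single_add]
    rw [h1, C_mul_monomial, map_add, Finsupp.degree_single, C_mul, mul_assoc, map_mul φ (C (lam j))]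
    have h2 : φ (C (lam j)) = algebraMap ℂ L (lam j) := φ.commutes _
    rw [h2]

theorem CC_of_TH (q : MvPolynomial ι (MvPolynomial σ ℂ)) (hq : TH T d q) :
    CC φ θ F α T d (pairL φ (fun _ : Unit => lam) (fun _ => α) (fun _ => φ F) 1 q) := by
  rw [← support_sum_monomial_coeff q, pairL_sum]
  refine CC_sum _ _ fun γ _ => ?_
  obtain ⟨c, hc⟩ := SS_monomial_unit (φ := φ) (lam := lam) γ (coeff γ q)
  rw [pairL, one_mul, hc, Lam_monomial, wt, Finset.univ_unique, Finset.prod_singleton]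
  have h1 : (Finsupp.single () γ.degree : Unit →₀ ℕ) default = γ.degree := by
    rw [Finsupp.single_eq_same]
  rw [h1]
  have h2 : algebraMap ℂ L (dpoch α γ.degree) = φ (C (dpoch α γ.degree)) := (φ.commutes _).symm
  rw [h2, ← mul_assoc, ← map_mul]
  refine CC.hom _ _ (d * (1 + γ.degree)) ?_ (by rw [Nat.mul_add, mul_one, add_comm])
  rw [mul_comm]
  exact HT_C_mul (HT_C_mul (hq γ) _) _

/-- **The value of the polynomial of a functional equation.** -/
theorem value_CC (hθ : ∀ i p, θ i (φ p) = φ (pderiv i p)) (hF : φ F ≠ 0)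
    (hcomm : ∀ s t u, θ s (θ t u) = θ t (θ s u)) (hf : ∀ j, HT T (f j) d)
    (hFf : F = ∑ j, C (lam j) * f j) (H : MvPolynomial σ ℂ) (b : Polynomial ℂ)
    (hb : IsLocEq H f b) : CC φ θ F α T d (φ (C (b.eval α) * H)) := by
  classical
  have hFd : HT T F d := by
    rw [hFf]
    exact HT_sum _ _ _ fun j _ => HT_C_mul (hf j) _
  have hFf' : φ F = ∑ j, algebraMap ℂ L (lam j) * φ (f j) := by
    rw [hFf, map_sum]
    refine Finset.sum_congr rfl fun j _ => ?_
    rw [map_mul]
    congr 1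
    exact φ.commutes _
  obtain ⟨Sc, P, hc, heq⟩ := hb
  obtain ⟨bh, hbh1, hbh2⟩ := exists_bhat φ f (fun _ : Unit => lam) (fun _ => α) (fun _ => φ F) 1
    (fun _ => hFf') (fun _ => hF) b
  choose Th hTh1 hTh2 using fun β => exists_theta_TH (T := T) hf β
  have hlift := fun (Q : weyl σ) => lift_CC (α := α) hθ hF hcomm hFd hFf' Q.1 Q.2
  choose Qh hQ1 hQ2 using hlift
  have key : C H * bh = ∑ c ∈ Sc, ∑ β ∈ (P c).support, Qh (P c β) (Th β (qc f c)) := by
    rw [← sub_eq_zero]
    apply eq_zero_of_ip_E f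
    intro s
    rw [map_sub, ip_C_mul, hbh1, heq s, sub_eq_zero, map_sum]
    refine Finset.sum_congr rfl fun c _ => ?_
    rw [map_sum, applyAt, Finsupp.sum]
    refine Finset.sum_congr rfl fun β _ => ?_
    rw [← hQ1, hTh1, ip_qc, map_smul]
  have h1 : φ (C (b.eval α) * H) = ∑ c ∈ Sc, ∑ β ∈ (P c).support,
      pairL φ (fun _ : Unit => lam) (fun _ => α) (fun _ => φ F) 1
        (Qh (P c β) (Th β (qc f c))) := by
    have h2 : φ (C (b.eval α) * H) = φ H * (algebraMap ℂ L (b.eval (∑ _m : Unit, α)) * 1) := by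
      rw [map_mul, Finset.univ_unique, Finset.sum_singleton, mul_one, mul_comm]
      congr 1
      exact φ.commutes _
    rw [h2, ← hbh2, ← pairL_C_mul, key, pairL_sum]
    refine Finset.sum_congr rfl fun c _ => ?_
    rw [pairL_sum]
  rw [h1]
  refine CC_sum _ _ fun c hcS => CC_sum _ _ fun β _ => ?_
  exact hQ2 _ _ (CC_of_TH _ (hTh2 β _ (qc_TH hf c (hc c hcS))))

end lift

end Pool.Agent.Q57.MD
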