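import Pool.Agent.Q57.MD.NonEx

set_option autoImplicit false
set_option linter.unusedSectionVars false
set_option linter.unusedVariables false

/-! # Exactness from a local functional equation, in the ring of polynomials -/

namespace Pool.Agent.Q57.MD

open MvPolynomial Pool.Agent.W574.SM
open Pool.Agent.W574.LM (IsLocEq)

theorem pderiv_swap {σ : Type} [DecidableEq σ] (s t : σ) (x : MvPolynomial σ ℂ) :
    pderiv s (pderiv t x) = pderiv t (pderiv s x) := by
  set D1 : Derivation ℂ (MvPolynomial σ ℂ) (MvPolynomial σ ℂ) := pderiv s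
  set D2 : Derivation ℂ (MvPolynomial σ ℂ) (MvPolynomial σ ℂ) := pderiv t
  have h : ⁅D1, D2⁆ = 0 := by
    refine derivation_ext fun i => ?_
    have h2 : ∀ u : σ, ∃ c : ℂ, (pderiv u : Derivation ℂ (MvPolynomial σ ℂ)
        (MvPolynomial σ ℂ)) (X i) = C c := by
      intro u
      rw [pderiv_X, Pi.single_apply]
      split_ifs
      · exact ⟨1, C_1.symm⟩
      · exact ⟨0, C_0.symm⟩
    obtain ⟨c1, hc1⟩ := h2 s
    obtain ⟨c2, hc2⟩ := h2 t
    rw [Derivation.commutator_apply]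
    change pderiv s (pderiv t (X i)) - pderiv t (pderiv s (X i)) = 0
    rw [hc1, hc2, pderiv_C, pderiv_C, sub_self]
  have h1 : ⁅D1, D2⁆ x = 0 := by
    rw [h]
    rfl
  rw [Derivation.commutator_apply, sub_eq_zero] at h1
  exact h1

section root

variable {σ ι : Type} [Fintype σ] [DecidableEq σ] [Fintype ι] [DecidableEq ι]

/-- Derivations extend to the field of fractions. -/
theorem exists_der_frac {k B : Type} [Field k] [CommRing B] [IsDomain B] [Algebra k B]
    (E : Derivation k B B) : ∃ E' : Derivation k (FractionRing B) (FractionRing B),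
      ∀ b, E' (algebraMap B (FractionRing B) b) = algebraMap B (FractionRing B) (E b) := by
  let L := FractionRing B
  have hfe : Algebra.FormallyEtale B L :=
    Algebra.FormallyEtale.of_isLocalization (nonZeroDivisors B)
  let l0 : Ω[B⁄k] →ₗ[B] L := (Algebra.linearMap B L) ∘ₗ E.liftKaehlerDifferential
  let l : TensorProduct B L Ω[B⁄k] →ₗ[L] L := LinearMap.liftBaseChange L l0
  let e := KaehlerDifferential.tensorKaehlerEquivOfFormallyEtale k B L
  refine ⟨(l ∘ₗ e.symm.toLinearMap).compDer (KaehlerDifferential.D k L), fun c => ?_⟩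
  change l (e.symm (KaehlerDifferential.D k L (algebraMap B L c))) = _
  rw [KaehlerDifferential.tensorKaehlerEquivOfFormallyEtale_symm_D_algebraMap,
    LinearMap.liftBaseChange_tmul, one_smul]
  change algebraMap B L (E.liftKaehlerDifferential (KaehlerDifferential.D k B c)) = _
  rw [Derivation.liftKaehlerDifferential_comp_D]

theorem exact_aux {L : Type} [Field L] [Algebra ℂ L] (φ : MvPolynomial σ ℂ →ₐ[ℂ] L)
    (hinj : Function.Injective φ) (hsurj : ∀ u : L, ∃ a c, φ c ≠ 0 ∧ u = φ a / φ c)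
    (θ : σ → Derivation ℂ L L) (hθ : ∀ i p, θ i (φ p) = φ (pderiv i p))
    (f : ι → MvPolynomial σ ℂ) (lam : ι → ℂ) (T : Finset σ) (d : ℕ)
    (hd : 0 < d) (hf : ∀ j, HT T (f j) d) (F : MvPolynomial σ ℂ) (hF : F ≠ 0)
    (hFf : F = ∑ j, C (lam j) * f j) (α : ℂ) (hα : α * d = -(T.card : ℂ))
    (H : MvPolynomial σ ℂ) (b : Polynomial ℂ) (hb : IsLocEq H f b) :
    ∃ (K : ℕ) (g : σ → MvPolynomial σ ℂ), C (b.eval α) * H * F ^ (K + 1) =
      ∑ i ∈ T, (F * pderiv i (g i) + C (α - K) * (g i * pderiv i F)) := by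
  classical
  have hcomm : ∀ s t u, θ s (θ t u) = θ t (θ s u) := by
    intro s t u
    obtain ⟨a, c, hc0, rfl⟩ := hsurj u
    have h1 : ∀ x, ⁅θ s, θ t⁆ (φ x) = 0 := by
      intro x
      rw [Derivation.commutator_apply, hθ, hθ, hθ, hθ, sub_eq_zero, pderiv_swap]
    have h2 : ⁅θ s, θ t⁆ (φ a / φ c) = 0 := by
      have h3 := h1 a
      have h4 : φ a = φ a / φ c * φ c := by rw [div_mul_cancel₀ _ hc0]
      rw [h4, Derivation.leibniz, h1, smul_zero, zero_add, smul_eq_mul] at h3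
      exact (mul_eq_zero.1 h3).resolve_left hc0
    rw [Derivation.commutator_apply, sub_eq_zero] at h2
    exact h2
  have hF' : φ F ≠ 0 := fun h => hF (hinj (by rw [h, map_zero]))
  have hFd : HT T F d := by
    rw [hFf]
    exact HT_sum _ _ _ fun j _ => HT_C_mul (hf j) _
  obtain ⟨K, g, hg⟩ := CC_exact hθ hF' hd hFd hα (value_CC (α := α) hθ hF' hcomm hf hFf H b hb)
  refine ⟨K, g, hinj ?_⟩
  rw [map_mul, map_pow, hg, mul_assoc, inv_pow, inv_mul_cancel₀ (pow_ne_zero _ hF'), mul_one]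

theorem exists_frac (σ : Type) : ∃ (L : Type) (_ : Field L) (_ : Algebra ℂ L)
    (φ : MvPolynomial σ ℂ →ₐ[ℂ] L), Function.Injective φ ∧
      (∀ u : L, ∃ a c, φ c ≠ 0 ∧ u = φ a / φ c) ∧
      ∀ E : Derivation ℂ (MvPolynomial σ ℂ) (MvPolynomial σ ℂ),
        ∃ E' : Derivation ℂ L L, ∀ p, E' (φ p) = φ (E p) := by
  have hinj : Function.Injective (algebraMap (MvPolynomial σ ℂ)
    (FractionRing (MvPolynomial σ ℂ))) := IsFractionRing.injective _ _
  refine ⟨FractionRing (MvPolynomial σ ℂ), inferInstance, inferInstance,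
    IsScalarTower.toAlgHom ℂ (MvPolynomial σ ℂ) (FractionRing (MvPolynomial σ ℂ)),
    hinj, fun u => ?_, fun E => ?_⟩
  · obtain ⟨a, c, hc, hu⟩ := IsFractionRing.div_surjective (A := MvPolynomial σ ℂ) u
    refine ⟨a, c, fun h => ?_, hu.symm⟩
    exact nonZeroDivisors.ne_zero hc (hinj (by rw [map_zero]; exact h))
  · exact exists_der_frac E

/-- **`b(-|T| / d) H F ^ (-|T| / d)` is a sum of derivatives.** -/
theorem exact_of_locEq (f : ι → MvPolynomial σ ℂ) (lam : ι → ℂ) (T : Finset σ) (d : ℕ)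
    (hd : 0 < d) (hf : ∀ j, HT T (f j) d) (F : MvPolynomial σ ℂ) (hF : F ≠ 0)
    (hFf : F = ∑ j, C (lam j) * f j) (α : ℂ) (hα : α * d = -(T.card : ℂ))
    (H : MvPolynomial σ ℂ) (b : Polynomial ℂ) (hb : IsLocEq H f b) :
    ∃ (K : ℕ) (g : σ → MvPolynomial σ ℂ), C (b.eval α) * H * F ^ (K + 1) =
      ∑ i ∈ T, (F * pderiv i (g i) + C (α - K) * (g i * pderiv i F)) := by
  obtain ⟨L, hL1, hL2, φ, hinj, hsurj, hder⟩ := exists_frac σ
  choose θ hθ using fun i : σ => hder (pderiv i)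
  exact exact_aux φ hinj hsurj θ hθ f lam T d hd hf F hF hFf α hα H b hb

end root

end Pool.Agent.Q57.MD
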