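import Pool.Agent.W574.LM.Core
import Pool.Agent.W574.CN.Gen
import Pool.Agent.Y229.SP4

set_option autoImplicit false
set_option linter.unusedSectionVars false
set_option linter.unusedVariables false

/-! # The root `-|T| / d` for forms of degree `d` in a part `T` of the variables -/

namespace Pool.Agent.Q57.MD

open Pool.Agent.W574.LM (IsLocEq rees_coordsL)
open Pool.Agent.W574.SM (pderiv_aeval)
open Pool.Agent.W574.CN (constCoeff_aeval)
open Pool.Agent.Y229 (SF sf_of_local exists_fe)

/-- `P` is homogeneous of degree `d` in the variables in `T`. -/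
def HT {K σ : Type} [CommSemiring K] [DecidableEq σ] (T : Finset σ) (P : MvPolynomial σ K) (d : ℕ) :
    Prop := P.IsWeightedHomogeneous (fun i => if i ∈ T then 1 else 0) d

theorem aeval_HT {K σ S : Type} [Field K] [DecidableEq σ] [CommRing S] [Algebra K S]
    {T : Finset σ} {P : MvPolynomial σ K} {d : ℕ} (hP : HT T P d) (a : σ → S) (r : S) :
    MvPolynomial.aeval (fun i => if i ∈ T then r * a i else a i) P =
      r ^ d * MvPolynomial.aeval a P := by
  rw [MvPolynomial.aeval_def, MvPolynomial.aeval_def, MvPolynomial.eval₂_eq,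
    MvPolynomial.eval₂_eq, Finset.mul_sum]
  refine Finset.sum_congr rfl fun m hm => ?_
  have h1 : ∑ i ∈ m.support, (if i ∈ T then m i else 0) = d := by
    have := hP (MvPolynomial.mem_support_iff.1 hm)
    rw [Finsupp.weight_apply, Finsupp.sum] at this
    rw [← this]
    refine Finset.sum_congr rfl fun i _ => ?_
    rw [smul_eq_mul]
    split_ifs <;> simp
  have h2 : ∏ i ∈ m.support, (if i ∈ T then r * a i else a i) ^ m i =
      r ^ d * ∏ i ∈ m.support, a i ^ m i := by
    have h3 : ∀ i ∈ m.support, (if i ∈ T then r * a i else a i) ^ m i =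
        r ^ (if i ∈ T then m i else 0) * a i ^ m i := by
      intro i _
      split_ifs
      · rw [mul_pow]
      · rw [pow_zero, one_mul]
    rw [Finset.prod_congr rfl h3, Finset.prod_mul_distrib, Finset.prod_pow_eq_pow_sum, h1]
  rw [h2]
  ring

theorem euler_HT {σ : Type} [Fintype σ] [DecidableEq σ] {T : Finset σ} {P : MvPolynomial σ ℂ}
    {d : ℕ} (hP : HT T P d) (p : σ → ℂ) :
    ∑ i ∈ T, p i * MvPolynomial.eval p (MvPolynomial.pderiv i P) = d * MvPolynomial.eval p P := by
  have h1 := congrArg (MvPolynomial.eval p)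
    (MvPolynomial.IsWeightedHomogeneous.sum_weight_X_mul_pderiv hP)
  rw [map_sum, map_nsmul, nsmul_eq_mul] at h1
  rw [← h1, ← Finset.sum_subset (Finset.subset_univ T)]
  · refine Finset.sum_congr rfl fun i hi => ?_
    rw [if_pos hi, one_smul, map_mul, MvPolynomial.eval_X]
  · intro i _ hi
    rw [if_neg hi, zero_smul, map_zero]

/-- the kernel of the matrix of the derivatives of the quotients -/
theorem ker_quot {τ : Type} [Fintype τ] [DecidableEq τ] (o : τ) (d : ℂ) (p G : τ → ℂ)
    (M W : τ → τ → ℂ) (hE : ∀ t, ∑ s, p s * M s t = d * G t) (hp : p o ≠ 0)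
    (hdet : (Matrix.of M).det ≠ 0) (hG : G o ≠ 0)
    (hW0 : ∀ s, W s o = if s = o then 1 else 0) (hW2 : ∀ t, t ≠ o → W o t = 0)
    (hW1 : ∀ s t, t ≠ o → s ≠ o → W s t * G o ^ 2 = M s t * G o - G t * M s o) (a : τ → ℂ)
    (ha : ∀ s, ∑ t, W s t * a t = 0) : a = 0 := by
  have ha0 : a o = 0 := by
    have h1 := ha o
    rw [Finset.sum_eq_single o] at h1
    · rwa [hW0, if_pos rfl, one_mul] at h1
    · intro t _ ht
      rw [hW2 t ht, zero_mul]
    · intro h
      exact absurd (Finset.mem_univ o) h
  set A := ∑ t, a t * G t with hA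
  set c : τ → ℂ := fun t => a t * G o - (if t = o then A else 0) with hc
  have hval : ∑ t, G t * c t = 0 := by
    have h1 : ∀ t, G t * c t = G o * (a t * G t) - (if t = o then G t * A else 0) := by
      intro t
      simp only [hc]
      split_ifs <;> ring
    rw [Finset.sum_congr rfl fun t _ => h1 t, Finset.sum_sub_distrib, ← Finset.mul_sum, ← hA,
      Finset.sum_ite_eq' Finset.univ o, if_pos (Finset.mem_univ _), sub_self]
  have hs1 : ∀ s, s ≠ o → ∑ t, M s t * c t = 0 := by
    intro s hs
    have h1 : ∀ t, M s t * c t = G o * (a t * M s t) - (if t = o then M s t * A else 0) := by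
      intro t
      simp only [hc]
      split_ifs <;> ring
    rw [Finset.sum_congr rfl fun t _ => h1 t, Finset.sum_sub_distrib,
      Finset.sum_ite_eq' Finset.univ o, if_pos (Finset.mem_univ _), hA, Finset.mul_sum,
      ← Finset.sum_sub_distrib]
    have h2 : ∀ t, G o * (a t * M s t) - M s o * (a t * G t) = G o ^ 2 * (W s t * a t) := by
      intro t
      by_cases ht : t = o
      · rw [ht, ha0]
        ring
      · linear_combination -a t * hW1 s t ht hs
    rw [Finset.sum_congr rfl fun t _ => h2 t, ← Finset.mul_sum, ha, mul_zero]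
  have hs0 : ∑ t, M o t * c t = 0 := by
    have h1 : ∑ s, p s * ∑ t, M s t * c t = 0 := by
      have h2 : ∑ s, p s * ∑ t, M s t * c t = ∑ t, (∑ s, p s * M s t) * c t := by
        simp only [Finset.mul_sum, Finset.sum_mul]
        rw [Finset.sum_comm]
        refine Finset.sum_congr rfl fun t _ => Finset.sum_congr rfl fun s _ => ?_
        ring
      rw [h2]
      simp only [hE, mul_assoc]
      rw [← Finset.mul_sum, hval, mul_zero]
    rw [Finset.sum_eq_single o] at h1
    · exact (mul_eq_zero.1 h1).resolve_left hp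
    · intro s _ hs
      rw [hs1 s hs, mul_zero]
    · intro h
      exact absurd (Finset.mem_univ o) h
  have hc0 : c = 0 := by
    refine Matrix.eq_zero_of_mulVec_eq_zero hdet ?_
    funext s
    by_cases hs : s = o
    · rw [hs]
      exact hs0
    · exact hs1 s hs
  funext t
  by_cases ht : t = o
  · rw [ht]
    exact ha0
  · have h1 := congrFun hc0 t
    simp only [hc] at h1
    rw [if_neg ht, sub_zero] at h1
    exact (mul_eq_zero.1 h1).resolve_right hG

section Rel

variable {σ ι : Type} [Fintype σ] [LinearOrder σ] [Fintype ι] [DecidableEq ι]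

/-- the general point near `p` -/
noncomputable def ptT (o : σ) (p : σ → ℂ) : σ → MvPowerSeries σ ℂ :=
  fun t => MvPowerSeries.C (p t) + (if t = o then 0 else MvPowerSeries.X t)

theorem pderiv_ptT (o : σ) (p : σ → ℂ) (s t : σ) :
    MvPowerSeries.pderiv ℂ s (ptT o p t) = if t = o then 0 else if s = t then 1 else 0 := by
  have h0 : MvPowerSeries.pderiv ℂ s (MvPowerSeries.C (p t) : MvPowerSeries σ ℂ) = 0 :=
    (MvPowerSeries.pderiv ℂ s).map_algebraMap (p t)
  rw [ptT, map_add, h0, zero_add]
  by_cases ht : t = o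
  · rw [if_pos ht, if_pos ht, map_zero]
  · rw [if_neg ht, if_neg ht]
    by_cases hst : s = t
    · rw [if_pos hst, hst, MvPowerSeries.pderiv_X_self]
    · rw [if_neg hst, MvPowerSeries.pderiv_X_of_ne (Ne.symm hst)]

theorem cc_ptT (o : σ) (p : σ → ℂ) :
    (fun t => MvPowerSeries.constantCoeff (ptT o p t)) = p := by
  funext t
  rw [ptT, map_add, MvPowerSeries.constantCoeff_C]
  split_ifs <;> simp

theorem det_ptT (T : Finset σ) (o : σ) (ho : o ∈ T) (p : σ → ℂ) (hp : p o ≠ 0) :
    (Matrix.of fun t i => MvPowerSeries.pderiv ℂ t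
      (if i ∈ T then (MvPowerSeries.X o : MvPowerSeries σ ℂ) * ptT o p i else ptT o p i)).det
      = MvPowerSeries.X o ^ (T.card - 1) * MvPowerSeries.C (p o) := by
  classical
  set D : σ → MvPowerSeries σ ℂ := fun i => if i = o then MvPowerSeries.C (p o) else
    if i ∈ T then MvPowerSeries.X o else 1 with hD
  have hent : ∀ t i, MvPowerSeries.pderiv ℂ t
      (if i ∈ T then (MvPowerSeries.X o : MvPowerSeries σ ℂ) * ptT o p i else ptT o p i) =
      Matrix.diagonal D t i + (if i = o then 0 else if i ∈ T then
        ptT o p i * MvPowerSeries.C (p o)⁻¹ else 0) * Matrix.diagonal D t o := by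
    intro t i
    have hCo : (MvPowerSeries.C (p o)⁻¹ : MvPowerSeries σ ℂ) * MvPowerSeries.C (p o) = 1 := by
      rw [← map_mul, inv_mul_cancel₀ hp, map_one]
    by_cases hi : i ∈ T
    · rw [if_pos hi, Derivation.leibniz, smul_eq_mul, smul_eq_mul, pderiv_ptT]
      by_cases hio : i = o
      · subst hio
        rw [if_pos rfl, if_pos rfl, mul_zero, zero_add, zero_mul, add_zero]
        by_cases ht : t = i
        · subst ht
          rw [MvPowerSeries.pderiv_X_self, mul_one, Matrix.diagonal_apply_eq]
          rw [show D t = MvPowerSeries.C (p t) from if_pos rfl, ptT, if_pos rfl, add_zero]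
        · rw [MvPowerSeries.pderiv_X_of_ne (Ne.symm ht), mul_zero, Matrix.diagonal_apply_ne _ ht]
      · rw [if_neg hio, if_neg hio, if_pos hi]
        by_cases ht : t = o
        · subst ht
          rw [if_neg (fun h : t = i => hio h.symm), mul_zero, zero_add,
            MvPowerSeries.pderiv_X_self, mul_one,
            Matrix.diagonal_apply_ne _ (fun h : t = i => hio h.symm), zero_add,
            Matrix.diagonal_apply_eq, show D t = MvPowerSeries.C (p t) from if_pos rfl, mul_assoc,
            hCo, mul_one]
        · rw [MvPowerSeries.pderiv_X_of_ne (Ne.symm ht), mul_zero, add_zero,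
            Matrix.diagonal_apply_ne _ ht, mul_zero, add_zero]
          by_cases hti : t = i
          · subst hti
            rw [if_pos rfl, mul_one, Matrix.diagonal_apply_eq]
            simp only [hD]
            rw [if_neg hio, if_pos hi]
          · rw [if_neg hti, mul_zero, Matrix.diagonal_apply_ne _ hti]
    · have hio : i ≠ o := fun h => hi (h ▸ ho)
      rw [if_neg hi, pderiv_ptT, if_neg hio, if_neg hio, if_neg hi, zero_mul, add_zero]
      by_cases hti : t = i
      · subst hti
        rw [if_pos rfl, Matrix.diagonal_apply_eq]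
        simp only [hD]
        rw [if_neg hio, if_neg hi]
      · rw [if_neg hti, Matrix.diagonal_apply_ne _ hti]
  have hM := Matrix.det_eq_of_forall_row_eq_smul_add_const
    (A := (Matrix.of fun t i => MvPowerSeries.pderiv ℂ t
      (if i ∈ T then (MvPowerSeries.X o : MvPowerSeries σ ℂ) * ptT o p i else ptT o p i)).transpose)
    (B := (Matrix.diagonal D).transpose)
    (fun i => if i = o then 0 else if i ∈ T then ptT o p i * MvPowerSeries.C (p o)⁻¹ else 0) o
    (if_pos rfl) (fun i t => hent t i)
  rw [Matrix.det_transpose, Matrix.det_transpose] at hM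
  rw [hM, Matrix.det_diagonal]
  rw [← Finset.mul_prod_erase Finset.univ D (Finset.mem_univ o)]
  have h1 : D o = MvPowerSeries.C (p o) := if_pos rfl
  have h2 : ∏ i ∈ Finset.univ.erase o, D i = MvPowerSeries.X o ^ (T.card - 1) := by
    rw [← Finset.card_erase_of_mem ho, ← Finset.prod_const,
      ← Finset.prod_subset (Finset.erase_subset_erase o (Finset.subset_univ T))]
    · refine Finset.prod_congr rfl fun i hi => ?_
      simp only [hD]
      rw [if_neg (Finset.ne_of_mem_erase hi), if_pos (Finset.mem_of_mem_erase hi)]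
    · intro i hi hi'
      simp only [hD]
      have hio := Finset.ne_of_mem_erase hi
      rw [if_neg hio, if_neg (fun h => hi' (Finset.mem_erase.2 ⟨hio, h⟩))]
  rw [h1, h2, mul_comm]

/-- **The root `-|T| / d`**, near the points `(0, z)`. -/
theorem rel_root_aux (T : Finset σ) (f : ι → MvPolynomial σ ℂ) (d : ℕ) (hd : 0 < d)
    (hf : ∀ j, HT T (f j) d) (H : MvPolynomial σ ℂ) (b : Polynomial ℂ) (hb : IsLocEq H f b)
    (e : σ → ι) (o : σ) (ho : o ∈ T) (p : σ → ℂ) (hp0 : p o ≠ 0)
    (hH : MvPolynomial.eval (fun i => if i ∈ T then 0 else p i) H ≠ 0)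
    (hdet : (Matrix.of fun s t : T =>
      MvPolynomial.eval p (MvPolynomial.pderiv (s : σ) (f (e t)))).det ≠ 0)
    (hg0 : MvPolynomial.eval p (f (e o)) ≠ 0) :
    b.eval (-(T.card : ℂ) / d) = 0 := by
  classical
  set A := ptT o p with hA
  set g : MvPolynomial σ ℂ → MvPowerSeries σ ℂ :=
    fun q => MvPolynomial.aeval A q with hgdef
  have hgc : ∀ q, MvPowerSeries.constantCoeff (g q) = MvPolynomial.eval p q := by
    intro q
    rw [hgdef]
    simp only
    rw [constCoeff_aeval, hA, cc_ptT]
  have hgd : ∀ (s : σ) q, MvPowerSeries.pderiv ℂ s (g q) =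
      if s = o then 0 else g (MvPolynomial.pderiv s q) := by
    intro s q
    rw [hgdef]
    simp only
    rw [pderiv_aeval, hA]
    simp only [pderiv_ptT]
    by_cases hs : s = o
    · rw [if_pos hs]
      refine Finset.sum_eq_zero fun t _ => ?_
      by_cases ht : t = o
      · rw [if_pos ht, mul_zero]
      · rw [if_neg ht, if_neg (fun h : s = t => ht (by rw [← h]; exact hs)), mul_zero]
    · rw [if_neg hs, Finset.sum_eq_single s]
      · rw [if_neg hs, if_pos rfl, mul_one]
      · intro t _ hts
        by_cases ht : t = o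
        · rw [if_pos ht, mul_zero]
        · rw [if_neg ht, if_neg (Ne.symm hts), mul_zero]
      · intro h; exact absurd (Finset.mem_univ s) h
  set ζ : σ → MvPowerSeries σ ℂ :=
    fun t => if t ∈ T then MvPowerSeries.X o * A t else A t with hζ
  have hζa : ∀ j, MvPolynomial.aeval ζ (f j) = MvPowerSeries.X o ^ d * g (f j) := fun j =>
    aeval_HT (hf j) A (MvPowerSeries.X o)
  set U1 := g (f (e o)) with hU1
  have hU1c : MvPowerSeries.constantCoeff U1 ≠ 0 := by rw [hU1, hgc]; exact hg0
  have hU1i : U1⁻¹ * U1 = 1 := MvPowerSeries.inv_mul_cancel U1 hU1c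
  set lam : σ → ℂ := fun t =>
    MvPolynomial.eval p (f (e t)) / MvPolynomial.eval p (f (e o)) with hlam
  set N : σ → MvPowerSeries σ ℂ := fun t => g (f (e t)) - lam t • U1 with hN
  have hNc : ∀ t, MvPowerSeries.constantCoeff (N t) = 0 := by
    intro t
    rw [hN]
    simp only
    rw [map_sub, hU1, hgc, MvPowerSeries.smul_eq_C_mul, map_mul, MvPowerSeries.constantCoeff_C,
      hgc, hlam]
    simp only
    rw [div_mul_cancel₀ _ hg0, sub_self]
  set w : σ → MvPowerSeries σ ℂ := fun t =>
    if t = o then MvPowerSeries.X o else if t ∈ T then N t * U1⁻¹ else MvPowerSeries.X t with hw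
  have hw0 : w o = MvPowerSeries.X o := if_pos rfl
  have hw1 : ∀ t, t ≠ o → t ∈ T → w t = N t * U1⁻¹ := by
    intro t ht htT
    rw [hw]; simp only; rw [if_neg ht, if_pos htT]
  have hw2 : ∀ t, t ∉ T → w t = MvPowerSeries.X t := by
    intro t ht
    rw [hw]; simp only; rw [if_neg (fun h : t = o => ht (h ▸ ho)), if_neg ht]
  have hwU : ∀ t, t ≠ o → t ∈ T → U1 * w t = N t := by
    intro t ht htT
    rw [hw1 t ht htT]
    linear_combination N t * hU1i
  have hwc : ∀ t, MvPowerSeries.constantCoeff (w t) = 0 := by
    intro t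
    by_cases ht : t = o
    · rw [ht, hw0, MvPowerSeries.constantCoeff_X]
    · by_cases htT : t ∈ T
      · rw [hw1 t ht htT, map_mul, hNc, zero_mul]
      · rw [hw2 t htT, MvPowerSeries.constantCoeff_X]
  have hwd : ∀ s t, t ≠ o → t ∈ T → MvPolynomial.eval p (f (e o)) *
      MvPowerSeries.constantCoeff (MvPowerSeries.pderiv ℂ s (w t)) =
      MvPowerSeries.constantCoeff (MvPowerSeries.pderiv ℂ s (N t)) := by
    intro s t ht htT
    have h1 : MvPowerSeries.constantCoeff (MvPowerSeries.pderiv ℂ s (U1 * w t)) =
        MvPowerSeries.constantCoeff (MvPowerSeries.pderiv ℂ s (N t)) := by rw [hwU t ht htT]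
    rw [Derivation.leibniz, smul_eq_mul, smul_eq_mul, map_add, map_mul
      MvPowerSeries.constantCoeff, map_mul MvPowerSeries.constantCoeff, hwc, zero_mul, add_zero,
      hU1, hgc] at h1
    exact h1
  have hcard : 0 < T.card := Finset.card_pos.2 ⟨o, ho⟩
  have hNd : ∀ s t, s ≠ o → MvPowerSeries.constantCoeff (MvPowerSeries.pderiv ℂ s (N t)) =
      MvPolynomial.eval p (MvPolynomial.pderiv s (f (e t))) -
        lam t * MvPolynomial.eval p (MvPolynomial.pderiv s (f (e o))) := by
    intro s t hs
    rw [hN]
    simp only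
    rw [map_sub, Derivation.map_smul, hU1, hgd, hgd, if_neg hs, if_neg hs, map_sub,
      MvPowerSeries.smul_eq_C_mul, map_mul MvPowerSeries.constantCoeff,
      MvPowerSeries.constantCoeff_C, hgc, hgc]
  have hNo : ∀ t, MvPowerSeries.constantCoeff (MvPowerSeries.pderiv ℂ o (N t)) = 0 := by
    intro t
    rw [hN]
    simp only
    rw [map_sub, Derivation.map_smul, hU1, hgd, hgd, if_pos rfl, if_pos rfl, smul_zero,
      sub_self, map_zero]
  have hlm : ∀ t, lam t * MvPolynomial.eval p (f (e o)) = MvPolynomial.eval p (f (e t)) := by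
    intro t
    rw [hlam]
    simp only
    rw [div_mul_cancel₀ _ hg0]
  have hWdet : (Matrix.of fun s t =>
      MvPowerSeries.constantCoeff (MvPowerSeries.pderiv ℂ s (w t))).det ≠ 0 := by
    intro hdW
    obtain ⟨a, ha, ha2⟩ := Matrix.exists_mulVec_eq_zero_iff.2 hdW
    have hrow : ∀ s, ∑ t, MvPowerSeries.constantCoeff (MvPowerSeries.pderiv ℂ s (w t)) * a t = 0 :=
      fun s => congrFun ha2 s
    have hWx : ∀ s t, t ∉ T → MvPowerSeries.constantCoeff (MvPowerSeries.pderiv ℂ s (w t)) =
        if s = t then 1 else 0 := by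
      intro s t ht
      rw [hw2 t ht]
      by_cases hst : s = t
      · rw [if_pos hst, hst, MvPowerSeries.pderiv_X_self, map_one]
      · rw [if_neg hst, MvPowerSeries.pderiv_X_of_ne (Ne.symm hst), map_zero]
    have hT0 : (fun t : T => a t) = 0 := by
      refine ker_quot (⟨o, ho⟩ : T) (d : ℂ) (fun s => p s)
        (fun t => MvPolynomial.eval p (f (e t)))
        (fun s t => MvPolynomial.eval p (MvPolynomial.pderiv (s : σ) (f (e t))))
        (fun s t => MvPowerSeries.constantCoeff (MvPowerSeries.pderiv ℂ (s : σ) (w t)))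
        (fun t => ?_) hp0 hdet hg0 (fun s => ?_) (fun t ht => ?_) (fun s t ht hs => ?_) _
        (fun s => ?_)
      · rw [← euler_HT (hf (e t)) p, ← Finset.sum_coe_sort T]
      · change MvPowerSeries.constantCoeff (MvPowerSeries.pderiv ℂ (s : σ) (w o)) = _
        rw [hw0]
        by_cases hs : (s : σ) = o
        · rw [if_pos (Subtype.ext hs), hs, MvPowerSeries.pderiv_X_self, map_one]
        · rw [if_neg (fun h => hs (congrArg Subtype.val h)),
            MvPowerSeries.pderiv_X_of_ne (Ne.symm hs), map_zero]
      · have ht' : (t : σ) ≠ o := fun h => ht (Subtype.ext h)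
        have h1 := hwd o t ht' t.2
        rw [hNo] at h1
        exact (mul_eq_zero.1 h1).resolve_left hg0
      · have ht' : (t : σ) ≠ o := fun h => ht (Subtype.ext h)
        have hs' : (s : σ) ≠ o := fun h => hs (Subtype.ext h)
        have h1 := hwd s t ht' t.2
        rw [hNd s t hs'] at h1
        have h3 := hlm t
        simp only
        linear_combination MvPolynomial.eval p (f (e o)) * h1 -
          MvPolynomial.eval p (MvPolynomial.pderiv (s : σ) (f (e o))) * h3
      · have h1 := hrow s
        rw [← Finset.sum_subset (Finset.subset_univ T), ← Finset.sum_coe_sort T] at h1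
        · exact h1
        · intro t _ ht
          rw [hWx s t ht, if_neg (fun h : (s : σ) = t => ht (h ▸ s.2)), zero_mul]
    have hT1 : ∀ t ∈ T, a t = 0 := fun t ht => congrFun hT0 ⟨t, ht⟩
    apply ha
    funext s
    by_cases hs : s ∈ T
    · exact hT1 s hs
    · have h1 := hrow s
      rw [Finset.sum_eq_single s] at h1
      · rwa [hWx s s hs, if_pos rfl, one_mul] at h1
      · intro t _ hts
        by_cases ht : t ∈ T
        · rw [hT1 t ht, mul_zero]
        · rw [hWx s t ht, if_neg (Ne.symm hts), zero_mul]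
      · intro h
        exact absurd (Finset.mem_univ s) h
  have hres := rees_coordsL f b H hb o ζ (by
      rw [constCoeff_aeval]
      have h1 : (fun i => MvPowerSeries.constantCoeff (ζ i)) = fun i => if i ∈ T then 0 else p i := by
        funext i
        rw [hζ]
        simp only
        split_ifs with hi
        · rw [map_mul, MvPowerSeries.constantCoeff_X, zero_mul]
        · exact congrFun (cc_ptT o p) i
      rw [h1]
      exact hH) (T.card - 1) d 0 hd (MvPowerSeries.C (p o)) U1 1
    (by rw [MvPowerSeries.constantCoeff_C]; exact hp0) hU1c (by simp) (det_ptT T o ho p hp0) (e o)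
    (fun j => ⟨g (f j), hζa j⟩) (hζa _) 1 (by simp) w hw0 hwc hWdet (by
      intro t ht
      by_cases htT : t ∈ T
      · right
        refine ⟨Pi.single (e t) 1 - lam t • Pi.single (e o) 1, ?_⟩
        have h1 : ∀ (h : ι → MvPowerSeries σ ℂ) (i j : ι) (c : ℂ),
            ∑ k, ((Pi.single i 1 : ι → ℂ) - c • (Pi.single j 1 : ι → ℂ)) k • h k
              = h i - c • h j := by
          intro h i j c
          simp only [Pi.sub_apply, Pi.smul_apply, sub_smul, Finset.sum_sub_distrib]
          congr 1
          · rw [Finset.sum_eq_single i]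
            · simp
            · intro k _ hk; rw [Pi.single_eq_of_ne hk, zero_smul]
            · intro h; exact absurd (Finset.mem_univ i) h
          · rw [Finset.sum_eq_single j]
            · simp
            · intro k _ hk; rw [Pi.single_eq_of_ne hk, smul_zero, zero_smul]
            · intro h; exact absurd (Finset.mem_univ j) h
        rw [h1, hζa, hζa, mul_assoc]
        have h2 := hwU t ht htT
        rw [hU1] at h2
        rw [h2, hN]
        simp only
        rw [mul_sub, mul_smul_comm]
      · left
        refine ⟨MvPolynomial.X t - MvPolynomial.C (p t), ?_⟩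
        rw [map_sub, MvPolynomial.aeval_X, MvPolynomial.aeval_C, hw2 t htT, hζ]
        simp only
        rw [if_neg htT, hA, ptT, if_neg ht]
        exact add_sub_cancel_left _ _)
  have hn' : -((((T.card - 1 : ℕ) : ℂ)) + 1 + (0 : ℕ)) = -(T.card : ℂ) := by
    rw [Nat.cast_sub (by omega)]
    push_cast
    ring
  rwa [hn'] at hres

end Rel

end Pool.Agent.Q57.MD
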