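import Pool.Agent.Q57.MC.Main
import Pool.Agent.Q57.MD.Formal

set_option autoImplicit false
set_option linter.unusedSectionVars false
set_option linter.unusedVariables false

/-! # Roots from a transfer of the functional equations -/

namespace Pool.Agent.Q57.MD

open MvPolynomial Pool.Agent.W428.MOT Pool.Agent.TH192.MT Pool.Agent.TH192.DT Pool.Agent.Q49.CO
open Pool.Agent.Y229 Pool.Agent.Q57.MC
open Pool.Agent.W574.SM (IsFunctionalEq)
open Pool.Agent.W574.LM (IsLocEq)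
open Pool.Agent.W574.RO (Forced mulf)
open Pool.Agent.W574.HS (univ)
open Pool.Agent.H628R4.TP (IsBFunction IsLocalBFunction weylS)

section

variable {σ J : Type} [Fintype σ] [Fintype J] {c r : ℕ}

/-- a transfer of the functional equations of `f` near `p` to those of `h` near the origin -/
def Transf (f : J → MvPolynomial σ ℂ) (h : Fin r → MvPolynomial (Fin c) ℂ) (p : σ → ℂ) : Prop :=
  ∃ Ξ : MvPolynomial (J ⊕ σ) ℂ →ₐ[ℂ] MvPowerSeries (Fin r ⊕ Fin c) ℂ,
    Ξ (univ f) = ((univ h : MvPolynomial (Fin r ⊕ Fin c) ℂ) : MvPowerSeries (Fin r ⊕ Fin c) ℂ) ∧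
    (∀ j, MvPowerSeries.constantCoeff (Ξ (MvPolynomial.X (Sum.inl j))) = 0) ∧
    (∀ i, MvPowerSeries.constantCoeff (Ξ (MvPolynomial.X (Sum.inr i))) = p i) ∧
    ∀ Q : Module.End ℂ (MvPolynomial (J ⊕ σ) ℂ), Q ∈ weylS (J ⊕ σ) →
      ∃ (K : Type) (_ : Fintype K) (a : K → MvPowerSeries (Fin r ⊕ Fin c) ℂ)
        (D : K → weylS (Fin r ⊕ Fin c)),
        ∀ n : ℕ, Ξ (Q (univ f ^ n)) = ∑ l, a l *
          (((D l : Module.End ℂ (MvPolynomial (Fin r ⊕ Fin c) ℂ)) (univ h ^ n) :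
            MvPolynomial (Fin r ⊕ Fin c) ℂ) : MvPowerSeries (Fin r ⊕ Fin c) ℂ)

theorem ne_of_transf (f : J → MvPolynomial σ ℂ) (h : Fin r → MvPolynomial (Fin c) ℂ) (p : σ → ℂ)
    (hT : Transf f h p) (hne : ∃ k, h k ≠ 0) : ∃ j, f j ≠ 0 := by
  classical
  obtain ⟨Ξ, hΞ, -⟩ := hT
  by_contra h0
  push Not at h0
  have h1 : univ f = 0 := by
    unfold univ
    refine Finset.sum_eq_zero fun j _ => ?_
    rw [h0, map_zero, mul_zero]
  rw [h1, map_zero] at hΞ
  have h2 : univ h = 0 := by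
    apply MvPolynomial.coe_injective
    rw [← hΞ, MvPolynomial.coe_zero]
  exact Pool.Agent.W574.HS.univ_ne_zero h hne h2

/-- **Roots from a transfer.** -/
theorem sf_of_transf (f : J → MvPolynomial σ ℂ) (h : Fin r → MvPolynomial (Fin c) ℂ) (p : σ → ℂ)
    (hT : Transf f h p) (hne : ∃ k, h k ≠ 0) (α : ℂ)
    (hα : ∀ b, IsLocalBI h b → b.eval α = 0) : SF f p α := by
  classical
  refine sf_of_local f p α (fun H b hb hH => ?_) (exists_fe f (ne_of_transf f h p hT hne))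
  obtain ⟨Ξ, hΞ, hl, hr, hQ⟩ := hT
  obtain ⟨Q, mQ, hQ'⟩ := univ_of_locEq H f b hb
  obtain ⟨K, iK, a, D, hD⟩ := hQ Q mQ
  have hcc : ∀ P : MvPolynomial (J ⊕ σ) ℂ, MvPowerSeries.constantCoeff (Ξ P) =
      eval (Sum.elim 0 p) P := by
    intro P
    have h1 : (MvPowerSeries.constantCoeff (σ := Fin r ⊕ Fin c) (R := ℂ)).comp
        (Ξ : MvPolynomial (J ⊕ σ) ℂ →+* MvPowerSeries (Fin r ⊕ Fin c) ℂ) =
        eval (Sum.elim 0 p) := by
      apply MvPolynomial.ringHom_ext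
      · intro a
        rw [RingHom.comp_apply, eval_C]
        have h2 : (Ξ : MvPolynomial (J ⊕ σ) ℂ →+* MvPowerSeries (Fin r ⊕ Fin c) ℂ) (C a) =
            MvPowerSeries.C a := Ξ.commutes a
        rw [h2, MvPowerSeries.constantCoeff_C]
      · intro x
        rw [RingHom.comp_apply, eval_X]
        rcases x with j | i
        · exact hl j
        · exact hr i
    exact congrArg (fun φ : MvPolynomial (J ⊕ σ) ℂ →+* ℂ => φ P) h1
  obtain ⟨u, hu⟩ : IsUnit (Ξ (rename Sum.inr H)) := by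
    rw [MvPowerSeries.isUnit_iff_constantCoeff]
    refine isUnit_iff_ne_zero.2 ?_
    rw [hcc, eval_rename]
    exact hH
  refine hα b (localBI_of_univ h hne b ?_)
  set e := Fintype.equivFin K with he
  refine ⟨Fintype.card K, fun _ => 0, fun l => ((u⁻¹ : (MvPowerSeries (Fin r ⊕ Fin c) ℂ)ˣ) :
    MvPowerSeries (Fin r ⊕ Fin c) ℂ) * a (e.symm l), fun l => D (e.symm l), fun n => ?_⟩
  have k1 := congrArg Ξ (hQ' n)
  rw [map_mul, ← hu, C_mul', map_smul, map_pow, hΞ, hD] at k1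
  have k2 := congrArg (fun x => ((u⁻¹ : (MvPowerSeries (Fin r ⊕ Fin c) ℂ)ˣ) :
    MvPowerSeries (Fin r ⊕ Fin c) ℂ) * x) k1
  beta_reduce at k2
  rw [Units.inv_mul_cancel_left, Finset.mul_sum] at k2
  rw [MvPolynomial.coe_pow, ← MvPowerSeries.smul_eq_C_mul, k2, ← e.symm.sum_comp]
  refine Finset.sum_congr rfl fun l _ => ?_
  rw [pow_zero, map_one, one_mul, mul_assoc]

end

end Pool.Agent.Q57.MD
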