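import Pool.Agent.Q57.MD.RRoot
import Pool.Agent.Q57.MD.Trans

set_option autoImplicit false
set_option linter.unusedSectionVars false
set_option linter.unusedVariables false

/-! # Roots of relative cones, at the origin -/

namespace Pool.Agent.Q57.MD

open Pool.Agent.W574.LM (IsLocEq rees_coordsL)
open Pool.Agent.W574.HS (univ)
open Pool.Agent.Y229 (SF sf_of_local exists_fe IsLocalBI)
open Pool.Agent.H628R4.TP (weylS)

section

variable {σ ι : Type} [Fintype σ] [LinearOrder σ] [Fintype ι] [DecidableEq ι]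

/-- **The root `-|T| / d` is forced at the origin.** -/
theorem sf_rel_root (T : Finset σ) (hT : T.Nonempty) (f : ι → MvPolynomial σ ℂ) (d : ℕ)
    (hd : 0 < d) (hf : ∀ j, HT T (f j) d)
    (he : ∃ e : T → ι, (Matrix.of fun s t : T =>
      MvPolynomial.pderiv (s : σ) (f (e t))).det ≠ 0) :
    SF f 0 (-(T.card : ℂ) / d) := by
  classical
  obtain ⟨e, he⟩ := he
  obtain ⟨o, ho⟩ := hT
  have hne : ∃ j, f j ≠ 0 := by
    by_contra h
    push Not at h
    apply he
    refine Matrix.det_eq_zero_of_column_eq_zero (⟨o, ho⟩ : T) fun s => ?_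
    rw [Matrix.of_apply, h, map_zero]
  refine sf_of_local f 0 _ (fun H b hb hH => ?_) (exists_fe f hne)
  set H' : MvPolynomial σ ℂ := MvPolynomial.aeval (fun i => if i ∈ T then 0 else MvPolynomial.X i) H
    with hH'
  have hHe : ∀ p : σ → ℂ, MvPolynomial.eval p H' =
      MvPolynomial.eval (fun i => if i ∈ T then 0 else p i) H := by
    intro p
    rw [hH', ← MvPolynomial.coe_aeval_eq_eval, ← MvPolynomial.coe_aeval_eq_eval]
    change MvPolynomial.aeval p (MvPolynomial.aeval _ H) = MvPolynomial.aeval _ H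
    rw [← AlgHom.comp_apply]
    congr 1
    refine MvPolynomial.algHom_ext fun i => ?_
    rw [AlgHom.comp_apply, MvPolynomial.aeval_X, MvPolynomial.aeval_X]
    split_ifs
    · rw [map_zero]
    · rw [MvPolynomial.aeval_X]
  have hH0 : H' ≠ 0 := by
    intro h0
    apply hH
    have h1 := hHe 0
    rw [h0, map_zero] at h1
    rw [h1]
    congr 2
    funext i
    simp
  have h1 : MvPolynomial.X o * (Matrix.of fun s t : T =>
      MvPolynomial.pderiv (s : σ) (f (e t))).det * H' ≠ 0 :=
    mul_ne_zero (mul_ne_zero (MvPolynomial.X_ne_zero o) he) hH0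
  obtain ⟨p, hp⟩ : ∃ p, MvPolynomial.eval p (MvPolynomial.X o *
      (Matrix.of fun s t : T => MvPolynomial.pderiv (s : σ) (f (e t))).det * H') ≠ 0 := by
    by_contra hne
    push Not at hne
    exact h1 (MvPolynomial.funext fun p => by rw [hne p, map_zero])
  rw [map_mul, map_mul, MvPolynomial.eval_X] at hp
  have hp0 := left_ne_zero_of_mul (left_ne_zero_of_mul hp)
  have hp1 := right_ne_zero_of_mul (left_ne_zero_of_mul hp)
  have hp2 := right_ne_zero_of_mul hp
  rw [hHe] at hp2
  have hmap : MvPolynomial.eval p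
      (Matrix.of fun s t : T => MvPolynomial.pderiv (s : σ) (f (e t))).det =
      (Matrix.of fun s t : T => MvPolynomial.eval p (MvPolynomial.pderiv (s : σ) (f (e t)))).det := by
    rw [RingHom.map_det]
    rfl
  rw [hmap] at hp1
  obtain ⟨t0, ht0⟩ : ∃ t, MvPolynomial.eval p (f (e t)) ≠ 0 := by
    by_contra hne
    push Not at hne
    apply hp1
    rw [← Matrix.exists_vecMul_eq_zero_iff]
    refine ⟨fun s => p s, fun h => hp0 (congrFun h ⟨o, ho⟩), ?_⟩
    funext t
    have h2 := euler_HT (hf (e t)) p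
    rw [hne, mul_zero, ← Finset.sum_coe_sort T] at h2
    exact h2
  set e2 : T → ι := e ∘ Equiv.swap ⟨o, ho⟩ t0 with he2
  set e3 : σ → ι := fun t => if h : t ∈ T then e2 ⟨t, h⟩ else e2 ⟨o, ho⟩ with he3
  have he4 : ∀ t : T, e3 t = e2 t := fun t => dif_pos t.2
  refine rel_root_aux T f d hd hf H b hb e3 o ho p hp0 hp2 ?_ ?_
  · have h2 : (Matrix.of fun s t : T => MvPolynomial.eval p (MvPolynomial.pderiv (s : σ)
        (f (e3 t)))) = (Matrix.of fun s t : T => MvPolynomial.eval p
          (MvPolynomial.pderiv (s : σ) (f (e t)))).submatrix id (Equiv.swap ⟨o, ho⟩ t0) := by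
      ext1 s t
      rw [Matrix.of_apply, he4]
      rfl
    rw [h2, Matrix.det_permute']
    refine mul_ne_zero ?_ hp1
    rcases Int.units_eq_one_or (Equiv.Perm.sign (Equiv.swap (⟨o, ho⟩ : T) t0)) with h | h <;>
      rw [h] <;> simp
  · have h2 := he4 ⟨o, ho⟩
    rw [h2, he2, Function.comp_apply, Equiv.swap_apply_left]
    exact ht0

end

section scale

variable {σ ι : Type}

/-- scaling of the variables -/
noncomputable def scl (c : σ → ℂ) : MvPolynomial σ ℂ →ₐ[ℂ] MvPolynomial σ ℂ :=
  MvPolynomial.aeval fun i => MvPolynomial.C (c i) * MvPolynomial.X i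

theorem scl_X (c : σ → ℂ) (i : σ) : scl c (MvPolynomial.X i) = MvPolynomial.C (c i) *
    MvPolynomial.X i := by
  rw [scl, MvPolynomial.aeval_X]

theorem scl_scl (c c' : σ → ℂ) (P : MvPolynomial σ ℂ) :
    scl c (scl c' P) = scl (fun i => c i * c' i) P := by
  rw [← AlgHom.comp_apply]
  congr 1
  refine MvPolynomial.algHom_ext fun i => ?_
  rw [AlgHom.comp_apply, scl_X, map_mul, scl_X, scl_X, map_mul]
  have h1 : scl c (MvPolynomial.C (c' i)) = MvPolynomial.C (c' i) := (scl c).commutes _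
  rw [h1]
  ring

theorem scl_one (P : MvPolynomial σ ℂ) : scl (fun _ => (1 : ℂ)) P = P := by
  have h1 : scl (fun _ : σ => (1 : ℂ)) = AlgHom.id ℂ _ := by
    refine MvPolynomial.algHom_ext fun i => ?_
    rw [scl_X, map_one, one_mul]
    rfl
  rw [h1]
  rfl

theorem pderiv_scl (c : σ → ℂ) (i : σ) (P : MvPolynomial σ ℂ) :
    MvPolynomial.pderiv i (scl c P) = c i • scl c (MvPolynomial.pderiv i P) := by
  classical
  induction P using MvPolynomial.induction_on with
  | C a =>
    have h1 : scl c (MvPolynomial.C a) = MvPolynomial.C a := (scl c).commutes _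
    rw [h1, MvPolynomial.pderiv_C, map_zero, smul_zero]
  | add p q hp hq => rw [map_add, map_add, hp, hq, map_add, map_add, smul_add]
  | mul_X p j hp =>
    rw [map_mul, scl_X, Derivation.leibniz, Derivation.leibniz, hp, Derivation.leibniz,
      MvPolynomial.pderiv_C, smul_zero, add_zero, MvPolynomial.pderiv_X, smul_eq_mul,
      smul_eq_mul, smul_eq_mul, smul_eq_mul, smul_eq_mul, map_add, map_mul, map_mul, scl_X]
    by_cases h : j = i
    · subst h
      rw [Pi.single_eq_same, map_one, MvPolynomial.smul_eq_C_mul, MvPolynomial.smul_eq_C_mul]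
      ring
    · rw [Pi.single_eq_of_ne h, map_zero, MvPolynomial.smul_eq_C_mul,
        MvPolynomial.smul_eq_C_mul]
      ring

/-- conjugates of operators by scalings -/
theorem conj_mem (c : σ → ℂ) (hc : ∀ i, c i ≠ 0) (Q : Module.End ℂ (MvPolynomial σ ℂ))
    (hQ : Q ∈ weylS σ) : ∃ Q' ∈ weylS σ, ∀ P, scl c (Q P) = Q' (scl c P) := by
  classical
  induction hQ using Algebra.adjoin_induction with
  | mem x hx =>
    rcases hx with ⟨i, rfl⟩ | ⟨i, rfl⟩
    · refine ⟨c i • LinearMap.mulLeft ℂ (MvPolynomial.X i : MvPolynomial σ ℂ),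
        (weylS σ).smul_mem (Algebra.subset_adjoin (Or.inl ⟨i, rfl⟩)) _, fun P => ?_⟩
      rw [LinearMap.smul_apply, LinearMap.mulLeft_apply, LinearMap.mulLeft_apply, map_mul, scl_X,
        MvPolynomial.smul_eq_C_mul, mul_assoc]
    · refine ⟨(c i)⁻¹ • ((MvPolynomial.pderiv i : Derivation ℂ (MvPolynomial σ ℂ)
        (MvPolynomial σ ℂ)) : MvPolynomial σ ℂ →ₗ[ℂ] MvPolynomial σ ℂ),
        (weylS σ).smul_mem (Algebra.subset_adjoin (Or.inr ⟨i, rfl⟩)) _, fun P => ?_⟩
      change scl c (MvPolynomial.pderiv i P) = (c i)⁻¹ • MvPolynomial.pderiv i (scl c P)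
      rw [pderiv_scl, smul_smul, inv_mul_cancel₀ (hc i), one_smul]
  | algebraMap r =>
    refine ⟨algebraMap ℂ _ r, Subalgebra.algebraMap_mem _ _, fun P => ?_⟩
    change scl c (r • P) = r • scl c P
    exact map_smul _ _ _
  | add x y _ _ hx hy =>
    obtain ⟨Q, hQ, h1⟩ := hx
    obtain ⟨Q', hQ', h2⟩ := hy
    exact ⟨Q + Q', Subalgebra.add_mem _ hQ hQ', fun P => by
      rw [LinearMap.add_apply, map_add, h1, h2, LinearMap.add_apply]⟩
  | mul x y _ _ hx hy =>
    obtain ⟨Q, hQ, h1⟩ := hx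
    obtain ⟨Q', hQ', h2⟩ := hy
    exact ⟨Q * Q', Subalgebra.mul_mem _ hQ hQ', fun P => by
      rw [Module.End.mul_apply, h1, h2, Module.End.mul_apply]⟩

end scale

section transf

variable {σ J : Type} [Fintype σ] [DecidableEq σ] [Fintype J] {c r : ℕ}

/-- a transfer at `p` gives a transfer at the multiples of `p` in the directions `T` -/
theorem transf_scale (T : Finset σ) (f : J → MvPolynomial σ ℂ) (d : ℕ) (hf : ∀ j, HT T (f j) d)
    (h : Fin r → MvPolynomial (Fin c) ℂ) (p : σ → ℂ) (hT : Transf f h p) (l : ℂ) (hl : l ≠ 0) :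
    Transf f h fun i => if i ∈ T then l * p i else p i := by
  classical
  obtain ⟨Ξ, hΞ, h1, h2, h3⟩ := hT
  set γ : J ⊕ σ → ℂ := Sum.elim (fun _ => (l ^ d)⁻¹) (fun i => if i ∈ T then l else 1) with hγ
  have hγ0 : ∀ x, γ x ≠ 0 := by
    rintro (j | i)
    · exact inv_ne_zero (pow_ne_zero _ hl)
    · simp only [hγ, Sum.elim_inr]
      split_ifs
      · exact hl
      · exact one_ne_zero
  have hr : ∀ P : MvPolynomial σ ℂ, scl γ (MvPolynomial.rename Sum.inr P) =
      MvPolynomial.aeval (fun i => if i ∈ T then MvPolynomial.C l *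
        (MvPolynomial.X (Sum.inr i) : MvPolynomial (J ⊕ σ) ℂ) else MvPolynomial.X (Sum.inr i))
        P := by
    intro P
    rw [scl, MvPolynomial.aeval_rename]
    congr 2
    funext i
    simp only [Function.comp_apply, hγ, Sum.elim_inr]
    split_ifs
    · rfl
    · rw [map_one, one_mul]
  have hu : scl γ (univ f) = univ f := by
    unfold univ
    rw [map_sum]
    refine Finset.sum_congr rfl fun j _ => ?_
    rw [map_mul, scl_X, hr, aeval_HT (hf j)]
    have e1 : MvPolynomial.aeval (fun i => (MvPolynomial.X (Sum.inr i) : MvPolynomial (J ⊕ σ) ℂ))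
        (f j) = MvPolynomial.rename Sum.inr (f j) := by
      rw [MvPolynomial.rename_eq_aeval]
      rfl
    rw [e1, hγ, Sum.elim_inl, ← map_pow]
    have e2 : (MvPolynomial.C (l ^ d)⁻¹ : MvPolynomial (J ⊕ σ) ℂ) * MvPolynomial.C (l ^ d) = 1 := by
      rw [← map_mul, inv_mul_cancel₀ (pow_ne_zero _ hl), map_one]
    linear_combination (MvPolynomial.X (Sum.inl j) * MvPolynomial.rename Sum.inr (f j)) * e2
  have hcc : ∀ a, Ξ (MvPolynomial.C a) = MvPowerSeries.C a := fun a => Ξ.commutes a
  refine ⟨Ξ.comp (scl γ), ?_, fun j => ?_, fun i => ?_, fun Q hQ => ?_⟩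
  · rw [AlgHom.comp_apply, hu, hΞ]
  · rw [AlgHom.comp_apply, scl_X, map_mul, map_mul, h1, mul_zero]
  · rw [AlgHom.comp_apply, scl_X, map_mul, map_mul, h2, hcc, MvPowerSeries.constantCoeff_C]
    simp only [hγ, Sum.elim_inr]
    split_ifs
    · rfl
    · rw [one_mul]
  · obtain ⟨Q', hQ', h4⟩ := conj_mem γ hγ0 Q hQ
    obtain ⟨K, iK, a, D, hD⟩ := h3 Q' hQ'
    refine ⟨K, iK, a, D, fun n => ?_⟩
    rw [AlgHom.comp_apply, h4, map_pow, hu, hD]

/-- **Roots of relative cones from the points `(p, 0)`, `p ≠ 0`.** -/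
theorem sf_cone_pts (T : Finset σ) (f : J → MvPolynomial σ ℂ) (d : ℕ)
    (hf : ∀ j, HT T (f j) d) (h : Fin r → MvPolynomial (Fin c) ℂ) (p : σ → ℂ)
    (hT : Transf f h p) (hp : ∀ i ∉ T, p i = 0) (hne : ∃ k, h k ≠ 0) (α : ℂ)
    (hα : ∀ b, IsLocalBI h b → b.eval α = 0) : SF f 0 α := by
  classical
  refine sf_of_local f 0 α (fun H b hb hH => ?_) (exists_fe f (ne_of_transf f h p hT hne))
  -- a multiple of `p` at which `H` does not vanish
  set G : Polynomial ℂ := MvPolynomial.aeval (fun i => Polynomial.C (p i) * Polynomial.X) H with hG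
  have hGe : ∀ l : ℂ, G.eval l = MvPolynomial.eval (fun i => l * p i) H := by
    intro l
    have h1 : (Polynomial.evalRingHom l).comp
        ((MvPolynomial.aeval (fun i => Polynomial.C (p i) * Polynomial.X) :
          MvPolynomial σ ℂ →ₐ[ℂ] Polynomial ℂ) : MvPolynomial σ ℂ →+* Polynomial ℂ) =
        MvPolynomial.eval (fun i => l * p i) := by
      refine MvPolynomial.ringHom_ext (fun a => ?_) fun i => ?_
      · rw [RingHom.comp_apply, MvPolynomial.eval_C]
        change Polynomial.eval l (MvPolynomial.aeval _ (MvPolynomial.C a)) = a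
        rw [MvPolynomial.aeval_C]
        exact Polynomial.eval_C
      · rw [RingHom.comp_apply, MvPolynomial.eval_X]
        change Polynomial.eval l (MvPolynomial.aeval _ (MvPolynomial.X i)) = _
        rw [MvPolynomial.aeval_X, Polynomial.eval_mul, Polynomial.eval_C, Polynomial.eval_X,
          mul_comm]
    exact congrArg (fun φ : MvPolynomial σ ℂ →+* ℂ => φ H) h1
  have hG0 : G * Polynomial.X ≠ 0 := by
    refine mul_ne_zero (fun h0 => hH ?_) Polynomial.X_ne_zero
    have h1 := hGe 0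
    rw [h0, Polynomial.eval_zero] at h1
    rw [h1]
    congr 2
    funext i
    rw [zero_mul]
    rfl
  obtain ⟨l, hl⟩ : ∃ l : ℂ, (G * Polynomial.X).eval l ≠ 0 := by
    by_contra hcon
    push Not at hcon
    exact hG0 (Polynomial.funext fun l => by rw [hcon l, Polynomial.eval_zero])
  rw [Polynomial.eval_mul, Polynomial.eval_X, hGe] at hl
  have h5 : (fun i => if i ∈ T then l * p i else p i) = fun i => l * p i := by
    funext i
    split_ifs with hi
    · rfl
    · rw [hp i hi, mul_zero]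
  have h6 := transf_scale T f d hf h p hT l (right_ne_zero_of_mul hl)
  rw [h5] at h6
  exact (sf_of_transf f h _ h6 hne α hα).locEq H b hb (left_ne_zero_of_mul hl)

end transf

end Pool.Agent.Q57.MD
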