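import Pool.Agent.Q57.MC.Hyp
import Pool.Agent.Q57.MD.FVol
import Pool.Agent.W574.RO.Had

set_option autoImplicit false
set_option linter.unusedSectionVars false
set_option linter.unusedVariables false

/-! # The series of the volumes of the sets `ord ≥ N` -/

namespace Pool.Agent.Q57.MD

open MvPolynomial Pool.Agent.W428.MOT Pool.Agent.TH192.MT Pool.Agent.TH192.DT Pool.Agent.Q49.CO
open Pool.Agent.Q57.MC
open Pool.Agent.W574.RO (had coeff_had)

variable {K : Type} [Field K] {R : Type} [CommRing R]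

section shift

/-- `(Z - Z(0)) / T` -/
noncomputable def sh (Z : PowerSeries R) : PowerSeries R :=
  PowerSeries.mk fun N => PowerSeries.coeff (N + 1) Z

theorem coeff_sh (Z : PowerSeries R) (N : ℕ) :
    PowerSeries.coeff N (sh Z) = PowerSeries.coeff (N + 1) Z := PowerSeries.coeff_mk _ _

theorem sh_add (Z Z' : PowerSeries R) : sh (Z + Z') = sh Z + sh Z' := by
  ext N
  rw [map_add, coeff_sh, coeff_sh, coeff_sh, map_add]

theorem sh_X_mul (Z : PowerSeries R) : sh (PowerSeries.X * Z) = Z := by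
  ext N
  rw [coeff_sh, PowerSeries.coeff_succ_X_mul]

theorem sh_C (c : R) : sh (PowerSeries.C c) = 0 := by
  ext N
  rw [coeff_sh, PowerSeries.coeff_C, if_neg (by omega), map_zero]

theorem X_sh (Z : PowerSeries R) :
    Z = PowerSeries.X * sh Z + PowerSeries.C (PowerSeries.coeff 0 Z) := by
  ext N
  rw [map_add, PowerSeries.coeff_C]
  rcases N with _ | N
  · rw [PowerSeries.coeff_zero_X_mul, if_pos rfl, zero_add]
  · rw [PowerSeries.coeff_succ_X_mul, if_neg (by omega), coeff_sh, add_zero]

theorem sh_C_mul (c : R) (Z : PowerSeries R) : sh (PowerSeries.C c * Z) =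
    PowerSeries.C c * sh Z := by
  ext N
  rw [coeff_sh, PowerSeries.coeff_C_mul, PowerSeries.coeff_C_mul, coeff_sh]

theorem sh_mul (Z W : PowerSeries R) :
    sh (Z * W) = sh Z * W + PowerSeries.C (PowerSeries.coeff 0 Z) * sh W := by
  have h1 : Z * W = PowerSeries.X * (sh Z * W) + PowerSeries.C (PowerSeries.coeff 0 Z) * W := by
    conv_lhs => rw [X_sh Z]
    ring
  rw [h1, sh_add, sh_X_mul, sh_C_mul]

theorem geoU_spec (u : Rˣ) (a b : ℤ) (hb : 0 < b) :
    (1 - PowerSeries.C ((u ^ a : Rˣ) : R) * PowerSeries.X ^ b.toNat) * geoU u a b = 1 := by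
  refine PowerSeries.mul_invOfUnit _ 1 ?_
  have h1 : b.toNat ≠ 0 := by omega
  rw [map_sub, map_one, map_mul, map_pow, PowerSeries.constantCoeff_X, zero_pow h1, mul_zero,
    sub_zero, Units.val_one]

variable (u : Rˣ)

theorem sh_mem {D : Set (ℤ × ℤ)} (hD : ∀ q ∈ D, 0 < q.2) {Z : PowerSeries R}
    (h : Z ∈ ratU u D) : sh Z ∈ ratU u D := by
  induction h using Algebra.adjoin_induction with
  | mem Z h =>
    rcases h with h | ⟨⟨a, b⟩, hp, rfl⟩
    · rw [Set.mem_singleton_iff.1 h]
      have : sh (PowerSeries.X : PowerSeries R) = PowerSeries.C 1 := by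
        have := sh_X_mul (1 : PowerSeries R)
        rw [mul_one] at this
        rw [this, map_one]
      rw [this]
      exact rat_C u _
    · have hb : 0 < b := hD _ hp
      obtain ⟨k, hk⟩ : ∃ k, b.toNat = k + 1 := ⟨b.toNat - 1, by omega⟩
      have h1 : geoU u a b = PowerSeries.X * (PowerSeries.C ((u ^ a : Rˣ) : R) *
          PowerSeries.X ^ k * geoU u a b) + PowerSeries.C 1 := by
        have h2 := geoU_spec u a b hb
        rw [hk] at h2
        rw [map_one]
        linear_combination h2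
      simp only
      rw [h1, sh_add, sh_X_mul, sh_C, add_zero]
      exact Subalgebra.mul_mem _ (Subalgebra.mul_mem _ (rat_C u _)
        (Subalgebra.pow_mem _ (rat_X u) _)) (Algebra.subset_adjoin (Or.inr ⟨_, hp, rfl⟩))
  | algebraMap r =>
    have : sh (algebraMap R (PowerSeries R) r) = 0 := sh_C r
    rw [this]
    exact zero_mem _
  | add Z Z' _ _ h h' =>
    rw [sh_add]
    exact Subalgebra.add_mem _ h h'
  | mul Z Z' hZ hZ' h h' =>
    rw [sh_mul]
    exact Subalgebra.add_mem _ (Subalgebra.mul_mem _ h hZ')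
      (Subalgebra.mul_mem _ (rat_C u _) h')

/-- a series is determined by its constant coefficient and the differences -/
theorem diff_unique {A B : PowerSeries R}
    (h0 : PowerSeries.coeff 0 A = PowerSeries.coeff 0 B) (h : A - sh A = B - sh B) : A = B := by
  ext N
  induction N with
  | zero => exact h0
  | succ N ih =>
    have h1 := congrArg (PowerSeries.coeff N) h
    rw [map_sub, map_sub, coeff_sh, coeff_sh] at h1
    linear_combination ih - h1

end shift

section vol

variable (M : Meas K R) {σ τ J J' : Type} [Fintype σ] [Fintype τ] [Finite J] [Finite J']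

/-- The series of the volumes of the sets of the arcs on which the order is `≥ N`. -/
noncomputable def VW (v : R) (f : J → MvPolynomial σ K) (W : Set (Pt K σ)) : PowerSeries R :=
  PowerSeries.mk fun N => vol M v f W N

theorem coeff_VW (v : R) (f : J → MvPolynomial σ K) (W : Set (Pt K σ)) (N : ℕ) :
    PowerSeries.coeff N (VW M v f W) = vol M v f W N := PowerSeries.coeff_mk _ _

theorem ZW_eq (v : R) (f : J → MvPolynomial σ K) (W : Set (Pt K σ)) :
    ZW M v f W = VW M v f W - sh (VW M v f W) := by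
  ext N
  rw [map_sub, coeff_sh, coeff_VW, coeff_VW]
  simp only [ZW, PowerSeries.coeff_mk]

theorem ZW_of_VW {v : R} (u : Rˣ) {D : Set (ℤ × ℤ)} (hD : ∀ q ∈ D, 0 < q.2)
    {f : J → MvPolynomial σ K} {W : Set (Pt K σ)} (h : VW M v f W ∈ ratU u D) :
    ZW M v f W ∈ ratU u D := by
  rw [ZW_eq]
  exact Subalgebra.sub_mem _ h (sh_mem u hD h)

theorem VW_add (v : R) (f : J → MvPolynomial σ K) {W W' : Set (Pt K σ)} (hW : Constr W)
    (hW' : Constr W') (hd : Disjoint W W') :
    VW M v f (W ∪ W') = VW M v f W + VW M v f W' := by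
  ext N
  rw [map_add, coeff_VW, coeff_VW, coeff_VW, vol_add M f hW hW' hd]

theorem VW_empty (v : R) (f : J → MvPolynomial σ K) : VW M v f ∅ = 0 := by
  ext N
  rw [coeff_VW, vol_empty, map_zero]

theorem VW_cover {ι : Type} (v : R) (f : J → MvPolynomial σ K) {A : Type}
    [SetLike A (PowerSeries R)] [AddSubmonoidClass A (PowerSeries R)] (P : A)
    (s : Finset ι) (C : ι → Set (Pt K σ)) (hC : ∀ i, Constr (C i)) :
    (∀ i ∈ s, ∀ W, Constr W → W ⊆ C i → VW M v f W ∈ P) →
    ∀ W : Set (Pt K σ), Constr W → (∀ z ∈ W, ∃ i ∈ s, z ∈ C i) → VW M v f W ∈ P := by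
  classical
  induction s using Finset.induction_on with
  | empty =>
    intro _ W hW h
    have : W = ∅ := Set.eq_empty_of_forall_notMem fun z hz => by
      obtain ⟨i, hi, _⟩ := h z hz
      exact absurd hi (Finset.notMem_empty i)
    rw [this, VW_empty]
    exact zero_mem P
  | insert i s hi ih =>
    intro hP W hW h
    have h1 : W = (W ∩ C i) ∪ (W ∩ (C i)ᶜ) := (Set.inter_union_compl W (C i)).symm
    have h2 : Disjoint (W ∩ C i) (W ∩ (C i)ᶜ) :=
      Set.disjoint_left.2 fun z hz hz' => hz'.2 hz.2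
    rw [h1, VW_add M v f (hW.inter (hC i)) (hW.inter (hC i).compl) h2]
    refine add_mem (hP i (Finset.mem_insert_self _ _) _ (hW.inter (hC i)) Set.inter_subset_right)
      (ih (fun j hj => hP j (Finset.mem_insert_of_mem hj)) _ (hW.inter (hC i).compl) ?_)
    intro z hz
    obtain ⟨j, hj, hz'⟩ := h z hz.1
    rcases Finset.mem_insert.1 hj with rfl | hj
    · exact absurd hz' hz.2
    · exact ⟨j, hj, hz'⟩

variable {v : R} (hv : M.L * v = 1)
include hv

theorem VW_off (f : J → MvPolynomial σ K) {W : Set (Pt K σ)} (hW : Constr W)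
    (h : ∀ w ∈ W, ∃ j, aeval w (f j) ≠ 0) :
    VW M v f W = PowerSeries.C (M.χ σ W * v ^ Fintype.card σ) := by
  ext N
  rw [coeff_VW, PowerSeries.coeff_C]
  rcases N with _ | N
  · rw [if_pos rfl, vol_zero M hv f hW]
  · rw [if_neg (Nat.succ_ne_zero N)]
    exact vol_off M hv f h N

theorem VW_chart {κ : Type} [Finite κ] {c : ℕ} (f : J → MvPolynomial σ K)
    (a : Fin c → MvPolynomial σ K)
    (h : κ → MvPolynomial (Fin c) K) (w : MvPolynomial σ K)
    (hs : Same f h a w) {W : Set (Pt K σ)} (hW : Constr W)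
    (hI : Indep a W) (hw : ∀ z ∈ W, aeval z w ≠ 0) :
    VW M v f W = PowerSeries.C (M.χ σ W * v ^ Fintype.card σ * M.L ^ c) * VW M v h {0} := by
  ext N
  rw [PowerSeries.coeff_C_mul, coeff_VW, coeff_VW, vol_chart M hv f a h w hs hW hI hw]

omit [Finite J] [Finite J'] in
/-- **Products.** -/
theorem VW_mulK [Fintype J] [Fintype J'] (f : J → MvPolynomial σ K) (g : J' → MvPolynomial τ K) {W : Set (Pt K σ)}
    {W' : Set (Pt K τ)} (hW : Constr W) (hW' : Constr W') :
    VW M v (mulK f g) (PW W W') = PowerSeries.C (vol M v g W' 0) * VW M v f W +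
      ZW M v f W * VW M v g W' - PowerSeries.C (vol M v g W' 0) * ZW M v f W := by
  ext N
  rw [map_sub, map_add, PowerSeries.coeff_C_mul, PowerSeries.coeff_C_mul, PowerSeries.coeff_mul,
    Finset.Nat.sum_antidiagonal_eq_sum_range_succ_mk, Finset.sum_range_succ, Nat.sub_self,
    coeff_VW, coeff_VW, coeff_VW, vol_mulK M hv f g hW hW' N]
  simp only [ZW, PowerSeries.coeff_mk, coeff_VW]
  ring

/-- the families `f_j(x)`, `g_k(y)` -/
noncomputable def sumK (f : J → MvPolynomial σ K) (g : J' → MvPolynomial τ K) :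
    J ⊕ J' → MvPolynomial (σ ⊕ τ) K :=
  Sum.elim (fun j => rename Sum.inl (f j)) fun k => rename Sum.inr (g k)

/-- **Sums.** -/
theorem vol_sumK (f : J → MvPolynomial σ K) (g : J' → MvPolynomial τ K) {W : Set (Pt K σ)}
    {W' : Set (Pt K τ)} (hW : Constr W) (hW' : Constr W') (N : ℕ) :
    vol M v (sumK f g) (PW W W') N = vol M v f W N * vol M v g W' N := by
  have h1 : GW (sumK f g) (PW W W') N N = PJ (GW f W N N) (GW g W' N N) := by
    ext z
    rw [mem_GW]
    have e1 : ∀ j, aeval (ar z) (sumK f g (Sum.inl j)) =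
        aeval (ar fun q : σ × Fin (N + 1) => z (Sum.inl q.1, q.2)) (f j) := by
      intro j
      change aeval (ar z) (rename Sum.inl (f j)) = _
      rw [aeval_rename]
      rfl
    have e2 : ∀ k, aeval (ar z) (sumK f g (Sum.inr k)) =
        aeval (ar fun q : τ × Fin (N + 1) => z (Sum.inr q.1, q.2)) (g k) := by
      intro k
      change aeval (ar z) (rename Sum.inr (g k)) = _
      rw [aeval_rename]
      rfl
    constructor
    · rintro ⟨⟨h2, h3⟩, h4⟩
      exact ⟨⟨h2, fun j => by rw [← e1]; exact h4 _⟩, ⟨h3, fun k => by rw [← e2]; exact h4 _⟩⟩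
    · rintro ⟨⟨h2, h3⟩, ⟨h4, h5⟩⟩
      refine ⟨⟨h2, h4⟩, ?_⟩
      rintro (j | k)
      · rw [e1]
        exact h3 j
      · rw [e2]
        exact h5 k
  unfold vol
  rw [h1, chi_PJ M (constr_GW f hW N N) (constr_GW g hW' N N), Fintype.card_sum, add_mul, pow_add]
  ring

theorem VW_sumK (f : J → MvPolynomial σ K) (g : J' → MvPolynomial τ K) {W : Set (Pt K σ)}
    {W' : Set (Pt K τ)} (hW : Constr W) (hW' : Constr W') :
    VW M v (sumK f g) (PW W W') = had (VW M v f W) (VW M v g W') := by
  ext N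
  rw [coeff_had, coeff_VW, coeff_VW, coeff_VW, vol_sumK M hv f g hW hW']

end vol

section hyp

variable (M : Meas K R) {σ J : Type} [Fintype σ] [Fintype J] {v : R} (hv : M.L * v = 1)
include hv

omit hv in
theorem sh_gG (v : R) : sh (gG v) = PowerSeries.C v + PowerSeries.C v * gG v := by
  rw [gG_gH, sh_X_mul]
  ext N
  rw [map_add, PowerSeries.coeff_C_mul, PowerSeries.coeff_C]
  rcases N with _ | N
  · rw [PowerSeries.coeff_zero_X_mul, if_pos rfl, mul_zero, add_zero]
    simp [gH]
  · rw [PowerSeries.coeff_succ_X_mul, if_neg (by omega), zero_add]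
    simp only [gH, PowerSeries.coeff_mk]
    ring

/-- **The volumes for `∑ y_j f_j`, `y` arbitrary.** -/
theorem VW_free (f : J → MvPolynomial σ K) {W : Set (Pt K σ)} (hW : Constr W) :
    VW M v (fun _ : Fin 1 => uni f) (YF J W) = VW M v f W + ZW M v f W * gG v := by
  apply diff_unique
  · rw [map_add, coeff_VW, coeff_VW, PowerSeries.coeff_mul]
    have h1 : M.χ _ (YF J W) * v ^ Fintype.card (J ⊕ σ) = M.χ σ W * v ^ Fintype.card σ := by
      have h2 : M.χ _ (YF J W : Set (Pt K (J ⊕ σ))) = M.χ J Set.univ * M.χ σ W := by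
        rw [← M.prod Set.univ W Constr.univ hW]
        congr 1
        ext z
        exact ⟨fun h => ⟨trivial, h⟩, fun h => h.2⟩
      rw [h2, chi_univ, Fintype.card_sum, pow_add]
      have h3 : M.L ^ Fintype.card J * v ^ Fintype.card J = 1 := by rw [← mul_pow, hv, one_pow]
      linear_combination (M.χ σ W * v ^ Fintype.card σ) * h3
    rw [vol_zero M hv _ (constr_YF hW), vol_zero M hv f hW, h1]
    simp [Pool.Agent.Q49.CO.gG]
  · rw [← ZW_eq, ZW_free M hv f hW, sh_add, mul_comm (ZW M v f W), sh_mul, sh_gG]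
    have h0 : PowerSeries.coeff 0 (Pool.Agent.Q49.CO.gG v) = 0 := by simp [Pool.Agent.Q49.CO.gG]
    rw [h0, map_zero, zero_mul, add_zero]
    have h1 : VW M v f W - sh (VW M v f W) = ZW M v f W := (ZW_eq M v f W).symm
    have h3 : gH v = PowerSeries.C v + PowerSeries.C v * gG v := by
      rw [← sh_gG, gG_gH, sh_X_mul]
    have h4 : (PowerSeries.C (M.L - 1) : PowerSeries R) * PowerSeries.C v =
        1 - PowerSeries.C v := by
      rw [← map_mul, sub_mul, hv, one_mul, map_sub, map_one]
    linear_combination (-1 : PowerSeries R) * h1 + (PowerSeries.C (M.L - 1) * ZW M v f W) * h3 +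
      (ZW M v f W * (1 + gG v)) * h4

/-- **The volumes for `∑ y_j f_j`, `y(0) = 0`.** -/
theorem VW_hyp0 (f : J → MvPolynomial σ K) {W : Set (Pt K σ)} (hW : Constr W) :
    VW M v (fun _ : Fin 1 => uni f) (WY 0 W) = PowerSeries.C (v ^ Fintype.card J) *
      (VW M v f W + PowerSeries.C M.L * (ZW M v f W * gG v)) := by
  apply diff_unique
  · rw [PowerSeries.coeff_C_mul, map_add, PowerSeries.coeff_C_mul, coeff_VW, coeff_VW,
      PowerSeries.coeff_mul]
    have h1 : M.χ _ (WY (0 : J → K) W) = M.χ σ W := by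
      have h2 : M.χ _ (WY (0 : J → K) W : Set (Pt K (J ⊕ σ))) =
          M.χ J ({0} : Set (Pt K J)) * M.χ σ W := by
        rw [← M.prod {0} W constr_pt0 hW]
        congr 1
        ext z
        change ((∀ j, z (Sum.inl j) = algebraMap K _ ((0 : J → K) j)) ∧ _) ↔ _
        refine and_congr ?_ Iff.rfl
        constructor
        · intro h
          change (fun i => z (Sum.inl i)) = 0
          funext j
          rw [h j, Pi.zero_apply, map_zero]
          rfl
        · intro h j
          rw [Pi.zero_apply, map_zero]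
          exact congrFun h j
      rw [h2, chi_pt0, one_mul]
    rw [vol_zero M hv _ (constr_WY0 hW), vol_zero M hv f hW, h1, Fintype.card_sum, pow_add]
    simp [Pool.Agent.Q49.CO.gG]
    ring
  · rw [← ZW_eq, ZW_hyp0 M hv f hW, sh_C_mul, sh_add, sh_C_mul, mul_comm (ZW M v f W), sh_mul,
      sh_gG]
    have h0 : PowerSeries.coeff 0 (Pool.Agent.Q49.CO.gG v) = 0 := by simp [Pool.Agent.Q49.CO.gG]
    rw [h0, map_zero, zero_mul, add_zero]
    have h1 : VW M v f W - sh (VW M v f W) = ZW M v f W := (ZW_eq M v f W).symm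
    have h4 : (PowerSeries.C M.L : PowerSeries R) * PowerSeries.C v = 1 := by
      rw [← map_mul, hv, map_one]
    rw [map_sub, map_one]
    linear_combination (-(PowerSeries.C (v ^ Fintype.card J)) : PowerSeries R) * h1 +
      (PowerSeries.C (v ^ Fintype.card J) * ZW M v f W * (1 + gG v)) * h4

end hyp

end Pool.Agent.Q57.MD
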