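import Pool.Agent.Q57.MD.RRoot
import Pool.Agent.Q57.MD.VSer
import Pool.Agent.Q49.CO.Main2

set_option autoImplicit false
set_option linter.unusedSectionVars false
set_option linter.unusedVariables false

/-! # Volumes of relative cones -/

namespace Pool.Agent.Q57.MD

open MvPolynomial Pool.Agent.W428.MOT Pool.Agent.TH192.MT Pool.Agent.TH192.DT Pool.Agent.Q49.CO
open Pool.Agent.Q57.MC

variable {K : Type} [Field K] {R : Type} [CommRing R] (M : Meas K R)

section scale

variable {σ J : Type} [Fintype σ] [DecidableEq σ] [Finite J]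

/-- the subspace of the points `(x, 0)` -/
def YT (K : Type) [Field K] {σ : Type} (T : Finset σ) : Set (Pt K σ) := {z | ∀ i ∉ T, z i = 0}

theorem constr_YT (T : Finset σ) : Constr (YT K T) :=
  Constr.all fun i => by
    by_cases h : i ∈ T
    · have h1 : {z : Pt K σ | i ∉ T → z i = 0} = Set.univ := by
        ext z
        simp [h]
      rw [h1]
      exact Constr.univ
    · have h1 : {z : Pt K σ | i ∉ T → z i = 0} = {z | z i = 0} := by
        ext z
        simp [h]
      rw [h1]
      exact Constr.eqz (IsPF.coord i)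

/-- the points `z` with `z_i = 0` for `i ∈ T` -/
def CT (K : Type) [Field K] {σ : Type} (T : Finset σ) : Set (Pt K σ) := {z | ∀ i ∈ T, z i = 0}

theorem constr_CT (T : Finset σ) : Constr (CT K T) :=
  Constr.all fun i => by
    by_cases h : i ∈ T
    · have h1 : {z : Pt K σ | i ∈ T → z i = 0} = {z | z i = 0} := by
        ext z
        simp [h]
      rw [h1]
      exact Constr.eqz (IsPF.coord i)
    · have h1 : {z : Pt K σ | i ∈ T → z i = 0} = Set.univ := by
        ext z
        simp [h]
      rw [h1]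
      exact Constr.univ

theorem ar_up {m : ℕ} (T : Finset σ) (z : Pt K (σ × Fin (m + 2)))
    (h : ∀ i ∈ T, z (i, Fin.last _) = 0) (w : Pt K (σ × Fin (m + 2)))
    (hw0 : ∀ i ∈ T, w (i, 0) = 0) (hw1 : ∀ i ∈ T, ∀ j : Fin (m + 1), w (i, j.succ) = z (i, j.castSucc))
    (hw2 : ∀ i ∉ T, ∀ j, w (i, j) = z (i, j)) :
    ar w = fun i => if i ∈ T then PowerSeries.X * ar z i else ar z i := by
  funext i
  split_ifs with hi
  · ext j
    rw [coeff_ar]
    rcases j with _ | j
    · rw [dif_pos (by omega), PowerSeries.coeff_zero_X_mul]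
      exact hw0 i hi
    · rw [PowerSeries.coeff_succ_X_mul, coeff_ar]
      by_cases hj : j < m + 1
      · rw [dif_pos (by omega), dif_pos (by omega)]
        exact hw1 i hi ⟨j, hj⟩
      · rw [dif_neg (by omega)]
        by_cases hj' : j < m + 2
        · rw [dif_pos hj']
          have h1 : (⟨j, hj'⟩ : Fin (m + 2)) = Fin.last _ := Fin.ext (by simp only [Fin.val_last]; omega)
          rw [h1]
          exact (h i hi).symm
        · rw [dif_neg hj']
  · ext j
    rw [coeff_ar, coeff_ar]
    split_ifs with hj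
    · exact hw2 i hi _
    · rfl

/-- the map on the jets -/
noncomputable def upz {m : ℕ} (T : Finset σ) (z : Pt K (σ × Fin (m + 2))) : Pt K (σ × Fin (m + 2)) := fun q =>
  if q.1 ∈ T then Fin.cases (motive := fun _ => AlgebraicClosure K) 0
    (fun j => z (q.1, j.castSucc)) q.2 else z q

/-- the inverse map -/
noncomputable def dnz {m : ℕ} (T : Finset σ) (w : Pt K (σ × Fin (m + 2))) : Pt K (σ × Fin (m + 2)) := fun q =>
  if q.1 ∈ T then Fin.lastCases (motive := fun _ => AlgebraicClosure K) 0
    (fun j => w (q.1, j.succ)) q.2 else w q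

theorem chi_rel (T : Finset σ) (f : J → MvPolynomial σ K) (d : ℕ) (hf : ∀ j, HT T (f j) d)
    {W : Set (Pt K σ)} (hW : Constr W)
    (hT : ∀ z w : Pt K σ, (∀ i ∉ T, w i = z i) → z ∈ W → w ∈ W)
    (N m : ℕ) (hN : N ≤ m + 1) : M.χ _ (GW f W N (m + 1)) =
      M.χ _ (GW f (CT K T ∩ W) (N + d) (m + 1)) * M.L ^ T.card := by
  classical
  set F1 : Finset (σ × Fin (m + 2)) := T.map ⟨fun i => (i, Fin.last _), fun i j h =>
    congrArg Prod.fst h⟩ with hF1
  have hmF : ∀ q : σ × Fin (m + 2), q ∈ F1 ↔ q.1 ∈ T ∧ q.2 = Fin.last _ := by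
    intro q
    rw [hF1, Finset.mem_map]
    constructor
    · rintro ⟨i, hi, rfl⟩
      exact ⟨hi, rfl⟩
    · rintro ⟨h1, h2⟩
      exact ⟨q.1, h1, Prod.ext rfl h2.symm⟩
  have h1 := Pool.Agent.W417.MT.Free.main M (GW f W N (m + 1)) ∅ F1 (fun _ => 0)
    (Finset.disjoint_left.2 fun x hx _ => absurd hx (Finset.notMem_empty x))
    (constr_GW f hW _ _) (fun z w hzw hz => by
      have hc : ∀ i, Cg m (ar w i) (ar z i) := by
        intro i k hk
        rw [coeff_ar, coeff_ar, dif_pos (by omega), dif_pos (by omega)]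
        refine hzw _ (Finset.notMem_empty _) fun h => ?_
        have h2 := congrArg Fin.val ((hmF _).1 h).2
        simp only [Fin.val_last] at h2
        omega
      refine ⟨?_, fun j => (vn_congr' (cg_aevalK (f j) m _ _ hc) hN).2 (hz.2 j)⟩
      refine hT _ _ (fun i _ => ?_) hz.1
      refine hzw _ (Finset.notMem_empty _) fun h => ?_
      have h2 := congrArg Fin.val ((hmF _).1 h).2
      simp only [Fin.val_last, Fin.val_zero] at h2
      omega)
  have h2 : (GW f W N (m + 1) ∩ {z : Pt K (σ × Fin (m + 2)) |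
      ∀ i ∈ (∅ : Finset (σ × Fin (m + 2))), z i ≠ 0}) = GW f W N (m + 1) := by
    ext z
    simp
  rw [h2, Finset.card_empty, pow_zero, mul_one, Finset.empty_union] at h1
  rw [h1, hF1, Finset.card_map, ← hF1]
  congr 1
  set A := GW f W N (m + 1) ∩ {z : Pt K (σ × Fin (m + 2)) |
    ∀ i ∈ F1, z i = algebraMap K (AlgebraicClosure K) 0} with hA
  have cA : Constr A := by
    refine (constr_GW f hW _ _).inter (Constr.all fun i => ?_)
    by_cases h : i ∈ F1
    · have h1 : {z : Pt K (σ × Fin (m + 2)) | i ∈ F1 → z i = algebraMap K _ 0} =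
          {z | z i = algebraMap K _ 0} := by
        ext z
        simp [h]
      rw [h1]
      exact Constr.eq (IsPF.coord i) (IsPF.const _)
    · have h1 : {z : Pt K (σ × Fin (m + 2)) | i ∈ F1 → z i = algebraMap K _ 0} = Set.univ := by
        ext z
        simp [h]
      rw [h1]
      exact Constr.univ
  have key : ∀ z : Pt K (σ × Fin (m + 2)), (∀ i ∈ T, z (i, Fin.last _) = 0) →
      (upz T z ∈ GW f (CT K T ∩ W) (N + d) (m + 1) ↔ z ∈ GW f W N (m + 1)) := by
    intro z hz
    have h3 := ar_up T z hz (upz T z) (fun i hi => by unfold upz; rw [if_pos hi]; rfl)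
      (fun i hi j => by unfold upz; rw [if_pos hi]; rfl) (fun i hi j => by unfold upz; rw [if_neg hi])
    rw [mem_GW, mem_GW]
    have h5 : ∀ i ∉ T, upz T z (i, 0) = z (i, 0) := by
      intro i hi
      unfold upz
      rw [if_neg hi]
    refine and_congr ⟨fun h => ?_, fun h => ⟨fun i hi => ?_, ?_⟩⟩ (forall_congr' fun j => ?_)
    · exact hT _ _ (fun i hi => (h5 i hi).symm) h.2
    · change upz T z (i, 0) = 0
      unfold upz
      rw [if_pos hi]
      rfl
    · exact hT _ _ (fun i hi => h5 i hi) h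
    · rw [h3, aeval_HT (hf j), vn_X]
  have hz0 : ∀ z ∈ A, ∀ i ∈ T, z (i, Fin.last _) = 0 := by
    intro z hz i hi
    have h3 := hz.2 (i, Fin.last _) ((hmF _).2 ⟨hi, rfl⟩)
    rwa [map_zero] at h3
  have hdn : ∀ w : Pt K (σ × Fin (m + 2)), ∀ i ∈ T, dnz T w (i, Fin.last _) = 0 := by
    intro w i hi
    unfold dnz
    rw [if_pos hi]
    exact Fin.lastCases_last
  have hud : ∀ w : Pt K (σ × Fin (m + 2)), (∀ i ∈ T, w (i, 0) = 0) → upz T (dnz T w) = w := by
    intro w hw
    funext ⟨i, j⟩
    unfold upz dnz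
    by_cases hi : i ∈ T
    · rw [if_pos hi]
      refine Fin.cases ?_ (fun j => ?_) j
      · exact (hw i hi).symm
      · simp only [Fin.cases_succ]
        rw [if_pos hi, Fin.lastCases_castSucc]
    · rw [if_neg hi, if_neg hi]
  refine M.iso _ _ cA (constr_GW f ((constr_CT T).inter hW) _ _) (upz T) (dnz T)
    (regularOn_poly ?_ _) (regularOn_poly ?_ _) ?_ ?_ ?_ ?_
  · rintro ⟨i, j⟩
    by_cases hi : i ∈ T
    · refine Fin.cases ?_ (fun j => ?_) j
      · have h3 : (fun z : Pt K (σ × Fin (m + 2)) => upz T z (i, 0)) = fun _ => 0 := by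
          funext z
          unfold upz
          rw [if_pos hi]
          rfl
        rw [h3]
        exact IsPF.zero
      · have h3 : (fun z : Pt K (σ × Fin (m + 2)) => upz T z (i, j.succ)) =
            fun z => z (i, j.castSucc) := by
          funext z
          unfold upz
          rw [if_pos hi]
          rfl
        rw [h3]
        exact IsPF.coord _
    · have h3 : (fun z : Pt K (σ × Fin (m + 2)) => upz T z (i, j)) = fun z => z (i, j) := by
        funext z
        unfold upz
        rw [if_neg hi]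
      rw [h3]
      exact IsPF.coord _
  · rintro ⟨i, j⟩
    by_cases hi : i ∈ T
    · refine Fin.lastCases ?_ (fun j => ?_) j
      · have h3 : (fun z : Pt K (σ × Fin (m + 2)) => dnz T z (i, Fin.last _)) = fun _ => 0 := by
          funext z
          exact hdn z i hi
        rw [h3]
        exact IsPF.zero
      · have h3 : (fun z : Pt K (σ × Fin (m + 2)) => dnz T z (i, j.castSucc)) =
            fun z => z (i, j.succ) := by
          funext z
          unfold dnz
          rw [if_pos hi, Fin.lastCases_castSucc]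
        rw [h3]
        exact IsPF.coord _
    · have h3 : (fun z : Pt K (σ × Fin (m + 2)) => dnz T z (i, j)) = fun z => z (i, j) := by
        funext z
        unfold dnz
        rw [if_neg hi]
      rw [h3]
      exact IsPF.coord _
  · intro z hz
    exact (key z (hz0 z hz)).2 hz.1
  · intro w hw
    have hw0 : ∀ i ∈ T, w (i, 0) = 0 := fun i hi => hw.1.1 i hi
    refine ⟨(key _ (hdn w)).1 (by rw [hud w hw0]; exact hw), fun q hq => ?_⟩
    obtain ⟨h3, h4⟩ := (hmF q).1 hq
    obtain ⟨i, j⟩ := q
    simp only at h3 h4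
    subst h4
    rw [map_zero]
    exact hdn w i h3
  · intro z hz
    funext ⟨i, j⟩
    unfold upz dnz
    by_cases hi : i ∈ T
    · rw [if_pos hi]
      refine Fin.lastCases ?_ (fun j => ?_) j
      · rw [Fin.lastCases_last]
        exact (hz0 z hz i hi).symm
      · rw [Fin.lastCases_castSucc]
        simp only
        rw [if_pos hi, Fin.cases_succ]
    · simp only [if_neg hi]
  · intro w hw
    exact hud w fun i hi => hw.1.1 i hi

variable {v : R} (hv : M.L * v = 1)
include hv

theorem vol_rel (T : Finset σ) (f : J → MvPolynomial σ K) (d : ℕ) (hf : ∀ j, HT T (f j) d)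
    {W : Set (Pt K σ)} (hW : Constr W)
    (hT : ∀ z w : Pt K σ, (∀ i ∉ T, w i = z i) → z ∈ W → w ∈ W) (N : ℕ) :
    vol M v f (CT K T ∩ W) (N + d) = v ^ T.card * vol M v f W N := by
  have h1 : M.L ^ T.card * v ^ T.card = 1 := by rw [← mul_pow, hv, one_pow]
  rw [← vol_eq M hv f ((constr_CT T).inter hW) (N + d) (N + d + 1) (by omega),
    ← vol_eq M hv f hW N (N + d + 1) (by omega), chi_rel M T f d hf hW hT N (N + d) (by omega)]
  linear_combination (-(v ^ (Fintype.card σ * (N + d + 1 + 1)) *
    M.χ _ (GW f (CT K T ∩ W) (N + d) (N + d + 1)))) * h1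

theorem vol_rel_small (T : Finset σ) (f : J → MvPolynomial σ K) (d : ℕ)
    (hf : ∀ j, HT T (f j) d) {W : Set (Pt K σ)} (hW : Constr W) (N : ℕ) (hN : N ≤ d) :
    vol M v f (CT K T ∩ W) N = vol M v f (CT K T ∩ W) 0 := by
  have h1 : ∀ m, GW f (CT K T ∩ W) N (m + 1) = GW f (CT K T ∩ W) 0 (m + 1) := by
    intro m
    ext z
    rw [mem_GW, mem_GW]
    refine and_congr_right fun h => ⟨fun h2 j => vn_mono (h2 j) (Nat.zero_le _), fun _ j => ?_⟩
    have h3 : ∀ i ∈ T, ar z i = PowerSeries.X * ar (N := m) (fun q => z (q.1, q.2.succ)) i := by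
      intro i hi
      ext j
      rw [coeff_ar]
      rcases j with _ | j
      · rw [dif_pos (by omega), PowerSeries.coeff_zero_X_mul]
        exact h.1 i hi
      · rw [PowerSeries.coeff_succ_X_mul, coeff_ar]
        by_cases hj : j < m + 1
        · rw [dif_pos (by omega), dif_pos hj]
          rfl
        · rw [dif_neg (by omega), dif_neg hj]
    have h4 : ar z = fun i => if i ∈ T then PowerSeries.X *
        (fun i => if i ∈ T then ar (N := m) (fun q => z (q.1, q.2.succ)) i else ar z i) i else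
        (fun i => if i ∈ T then ar (N := m) (fun q => z (q.1, q.2.succ)) i else ar z i) i := by
      funext i
      by_cases hi : i ∈ T
      · simp only [if_pos hi]
        exact h3 i hi
      · simp only [if_neg hi]
    rw [h4, aeval_HT (hf j), vn_iff]
    exact (pow_dvd_pow _ hN).mul_right _
  rw [← vol_eq M hv f ((constr_CT T).inter hW) N (N + 1) (by omega),
    ← vol_eq M hv f ((constr_CT T).inter hW) 0 (N + 1) (by omega), h1]

omit hv in
theorem vol_CT (f : J → MvPolynomial σ K) (T : Finset σ) {W : Set (Pt K σ)} (hW : Constr W)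
    (N : ℕ) :
    vol M v f W N = vol M v f (W ∩ (CT K T)ᶜ) N + vol M v f (CT K T ∩ W) N := by
  rw [← vol_add M f (hW.inter (constr_CT T).compl) ((constr_CT T).inter hW)
    (Set.disjoint_left.2 fun z h h' => h.2 h'.1)]
  congr 1
  ext z
  rw [Set.mem_union, Set.mem_inter_iff, Set.mem_compl_iff, Set.mem_inter_iff]
  tauto

/-- **The recursion of the volumes.** -/
theorem VW_rel (T : Finset σ) (f : J → MvPolynomial σ K) (d : ℕ) (hf : ∀ j, HT T (f j) d)
    {W : Set (Pt K σ)} (hW : Constr W)
    (hT : ∀ z w : Pt K σ, (∀ i ∉ T, w i = z i) → z ∈ W → w ∈ W) :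
    VW M v f (CT K T ∩ W) = (PowerSeries.C (vol M v f (CT K T ∩ W) 0) *
      ∑ N ∈ Finset.range d, PowerSeries.X ^ N +
      PowerSeries.C (v ^ T.card) * PowerSeries.X ^ d * VW M v f (W ∩ (CT K T)ᶜ)) +
      PowerSeries.C (v ^ T.card) * PowerSeries.X ^ d * VW M v f (CT K T ∩ W) := by
  ext N
  rw [map_add, map_add, mul_assoc, mul_assoc, PowerSeries.coeff_C_mul, PowerSeries.coeff_C_mul,
    PowerSeries.coeff_C_mul, PowerSeries.coeff_X_pow_mul', PowerSeries.coeff_X_pow_mul', coeff_VW,
    map_sum]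
  simp only [PowerSeries.coeff_X_pow]
  rw [Finset.sum_ite_eq (Finset.range d) N]
  by_cases hd : d ≤ N
  · rw [if_neg (by rw [Finset.mem_range]; omega), if_pos hd, if_pos hd]
    obtain ⟨k, rfl⟩ := Nat.exists_eq_add_of_le hd
    rw [Nat.add_sub_cancel_left, coeff_VW, coeff_VW, Nat.add_comm d k, vol_rel M hv T f d hf hW hT,
      vol_CT M f T hW]
    ring
  · rw [if_pos (by rw [Finset.mem_range]; omega), if_neg hd, if_neg hd,
      vol_rel_small M hv T f d hf hW N (by omega)]
    ring

/-- **The recursion of the zeta functions.** -/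
theorem ZW_rel (T : Finset σ) (f : J → MvPolynomial σ K) (d : ℕ) (hf : ∀ j, HT T (f j) d)
    {W : Set (Pt K σ)} (hW : Constr W)
    (hT : ∀ z w : Pt K σ, (∀ i ∉ T, w i = z i) → z ∈ W → w ∈ W) :
    ZW M v f (CT K T ∩ W) =
      PowerSeries.C (v ^ T.card) * PowerSeries.X ^ d * ZW M v f (W ∩ (CT K T)ᶜ) +
      PowerSeries.C (v ^ T.card) * PowerSeries.X ^ d * ZW M v f (CT K T ∩ W) := by
  ext N
  rw [map_add, mul_assoc, mul_assoc, PowerSeries.coeff_C_mul, PowerSeries.coeff_C_mul,
    PowerSeries.coeff_X_pow_mul', PowerSeries.coeff_X_pow_mul']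
  by_cases hd : d ≤ N
  · rw [if_pos hd, if_pos hd]
    obtain ⟨k, rfl⟩ := Nat.exists_eq_add_of_le hd
    rw [Nat.add_sub_cancel_left]
    simp only [ZW, PowerSeries.coeff_mk]
    rw [Nat.add_comm d k, vol_rel M hv T f d hf hW hT, show k + d + 1 = (k + 1) + d by ring,
      vol_rel M hv T f d hf hW hT, vol_CT M f T hW k, vol_CT M f T hW (k + 1)]
    ring
  · rw [if_neg hd, if_neg hd]
    simp only [ZW, PowerSeries.coeff_mk]
    rw [vol_rel_small M hv T f d hf hW N (by omega),
      vol_rel_small M hv T f d hf hW (N + 1) (by omega), sub_self, mul_zero, add_zero]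

omit hv in
theorem CT_YT (T : Finset σ) : CT K T ∩ YT K T = {0} := by
  ext z
  rw [Set.mem_singleton_iff]
  constructor
  · rintro ⟨h1, h2⟩
    funext i
    by_cases hi : i ∈ T
    · exact h1 i hi
    · exact h2 i hi
  · rintro rfl
    exact ⟨fun _ _ => rfl, fun _ _ => rfl⟩

end scale

end Pool.Agent.Q57.MD
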