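import Pool.Agent.Q57.MD.Glob
import Pool.Agent.Q57.MC.Rows2

set_option autoImplicit false
set_option linter.unusedSectionVars false
set_option linter.unusedVariables false

/-! # The statements for the zeta functions of polynomials and ideals -/

namespace Pool.Agent.Q57.MD

open MvPolynomial Pool.Agent.W428.MOT Pool.Agent.TH192.MT Pool.Agent.TH192.DT Pool.Agent.Q49.CO
open Pool.Agent.TH192.MU (zetaId IsTopZeta)
open Pool.Agent.Y229 Pool.Agent.Q57.MC
open Pool.Agent.W574.SM (IsFunctionalEq)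
open Pool.Agent.W574.RO (Forced)
open Pool.Agent.W574.HS (univ)
open Pool.Agent.W375.MG (zetaG zetaW zetaOrd zetaOrd_eq zetaW_eq IsPole)
open Pool.Agent.H628R4.TP (IsBFunction IsLocalBFunction)

section top

variable {B : Bool} {n r : ℕ} {R : Type} [CommRing R] [IsDomain R] (E : MK ℂ →+* R) (ε : R →+* ℂ)
  (hε : ε (E ((Lu ℂ : (MK ℂ)ˣ) : MK ℂ)) = 1) (hE : E ((Lu ℂ : (MK ℂ)ˣ) : MK ℂ) ≠ 1)

include hε hE

/-- the local topological zeta functions -/
theorem local_top {f : Fin r → MvPolynomial (Fin n) ℂ} (h : MD.Tower B n r f) (Z : RatFunc ℂ)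
    (hZ : IsTopZeta E ε (zetaJ f) Z) (s₀ : ℂ) (hs : Z.denom.eval s₀ = 0) (b : Polynomial ℂ)
    (hb : IsLocalBI f b) : b.eval s₀ = 0 := by
  obtain ⟨-, S, hS, hz⟩ := MD.tower_main h
  obtain ⟨q, hq, rfl⟩ := top_poles E ε hε hE _ (fun q hq => ⟨(hS q hq).1, (hS q hq).2.1⟩) _ hz Z
    hZ s₀ hs
  exact (hS q hq).2.2 b hb

/-- the global topological zeta functions -/
theorem global_top {f : Fin r → MvPolynomial (Fin n) ℂ} (h : MD.Glob B n r f) (Z : RatFunc ℂ)
    (hZ : IsTopZeta E ε (zetaId f) Z) (s₀ : ℂ) (hs : Z.denom.eval s₀ = 0) (b : Polynomial ℂ)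
    (hb : IsFunctionalEq f b) : b.eval s₀ = 0 := by
  classical
  obtain ⟨-, S, hS, hz⟩ := MD.glob_main h
  obtain ⟨q, hq, rfl⟩ := top_poles E ε hε hE _ (fun q hq => ⟨(hS q hq).1, (hS q hq).2.1⟩) _ hz Z
    hZ s₀ hs
  obtain ⟨p, hp⟩ := (hS q hq).2.2
  exact sf_forced hp b hb

end top

section mot

variable {B : Bool} {n r : ℕ}

/-- the global motivic zeta functions -/
theorem global_pole {f : MvPolynomial (Fin n) ℂ} (h : MD.Glob B n 1 fun _ => f) (s₀ : ℚ)
    (hs : IsPole (zetaOrd f Set.univ) s₀) (b : Polynomial ℂ) (hb : IsBFunction f b) :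
    b.eval (s₀ : ℂ) = 0 := by
  classical
  obtain ⟨-, S, hS, hz⟩ := MD.glob_main h
  have h1 : zetaOrd f Set.univ ∈ ratRing ℂ (S : Set (ℤ × ℤ)) := by
    rw [zetaOrd_univ]
    exact Subalgebra.mul_mem _ (rat_C _ _) hz
  obtain ⟨q, hq, h2⟩ := not_pole (fun q hq => (hS q hq).2.1) h1 hs
  obtain ⟨p, hp⟩ := (hS q hq).2.2
  rw [h2]
  exact sf_forced hp b (locEq1_of_eq f b hb)

/-- the local motivic zeta functions -/
theorem local_pole {f : MvPolynomial (Fin n) ℂ} (h : MD.Tower B n 1 fun _ => f)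
    (h0 : eval 0 f = 0) (s₀ : ℚ) (hs : IsPole (zetaOrd f {0}) s₀) (b : Polynomial ℂ)
    (hb : IsLocalBFunction f b) : b.eval (s₀ : ℂ) = 0 := by
  obtain ⟨-, S, hS, hz⟩ := MD.tower_main h
  rw [zetaOrd_zero f h0] at hs
  obtain ⟨q, hq, h2⟩ := not_pole (fun q hq => (hS q hq).2.1) hz hs
  rw [h2]
  exact (hS q hq).2.2 b (localBI_one f b hb)

/-- **The motivic zeta functions of the hypersurfaces `∑ y_j f_j = 0`.** -/
theorem hyp_mot {f : Fin r → MvPolynomial (Fin n) ℂ} (h : MD.Glob B n r f) :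
    ∃ S : Finset (ℤ × ℤ), (∀ q ∈ S, q.1 < 0 ∧ 0 < q.2 ∧
      ∀ b : Polynomial ℂ, IsBFunction (hypF f) b → b.eval ((q.1 : ℂ) / q.2) = 0) ∧
      zetaW (hypF f) Set.univ ∈ ratRing ℂ (S : Set (ℤ × ℤ)) ∧
      zetaOrd (hypF f) Set.univ ∈ ratRing ℂ (S : Set (ℤ × ℤ)) := by
  classical
  obtain ⟨hf, S, hS, hz⟩ := MD.glob_main h
  exact hyp_mot' f hf S hS hz

/-- the sets of jets at the origin, for other names of the variables -/
theorem chi_jetS_ren0 {σ τ : Type} [Fintype σ] [Fintype τ] {R : Type} [CommRing R] (M : Meas ℂ R)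
    (e : σ ≃ τ) (F : MvPolynomial σ ℂ) {E : Set (AlgebraicClosure ℂ)} (hE : CE E) (N : ℕ) :
    M.χ _ (JetS (rename e F) {0} E N) = M.χ _ (JetS F {0} E N) := by
  have h1 : JetS (rename e F) {0} E N =
      {z | (fun q : σ × Fin (N + 1) => z ((e.prodCongr (Equiv.refl _)) q)) ∈
        JetS F {0} E N} := by
    ext z
    have h2 : aeval (ar z) (rename e F) =
        aeval (ar fun q : σ × Fin (N + 1) => z ((e.prodCongr (Equiv.refl _)) q)) F := by
      rw [aeval_rename]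
      rfl
    have h3 : ((fun i => z (i, 0)) ∈ ({0} : Set (Pt ℂ τ))) ↔
        ((fun i => z (e i, 0)) ∈ ({0} : Set (Pt ℂ σ))) := by
      rw [Set.mem_singleton_iff, Set.mem_singleton_iff]
      constructor
      · intro h
        funext i
        exact congrFun h (e i)
      · intro h
        funext i
        have h4 := congrFun h (e.symm i)
        simp only [Equiv.apply_symm_apply] at h4
        exact h4
    change (_ ∧ (∀ j < N, PowerSeries.coeff j (aeval (ar z) (rename e F)) = 0) ∧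
      PowerSeries.coeff N (aeval (ar z) (rename e F)) ∈ E) ↔ _
    rw [h2, h3]
    rfl
  rw [h1, chi_reindex M _ (constr_JetS F constr_pt0 hE N)]

/-- **The motivic zeta functions at the origin of the hypersurfaces `∑ y_j f_j = 0`, for the arcs with
angular component `1`.** -/
theorem hyp_origin {f : Fin r → MvPolynomial (Fin n) ℂ} (h : MD.Tower B n r f) :
    ∃ S : Finset (ℤ × ℤ), (∀ q ∈ S, q.1 < 0 ∧ 0 < q.2 ∧
      (∀ b : Polynomial ℂ, IsBFunction (hypF f) b → b.eval ((q.1 : ℂ) / q.2) = 0) ∧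
      ∀ b : Polynomial ℂ, IsLocalBFunction (hypF f) b → b.eval ((q.1 : ℂ) / q.2) = 0) ∧
      zetaX (hypF f) 0 ∈ ratRing ℂ (S : Set (ℤ × ℤ)) := by
  classical
  obtain ⟨hf, S, hS, hz⟩ := MD.tower_main h
  set T : Finset (ℤ × ℤ) := insert (-1, 1) S with hT
  have hmono : ratRing ℂ (S : Set (ℤ × ℤ)) ≤ ratRing ℂ (T : Set (ℤ × ℤ)) :=
    Pool.Agent.W375.MG.ratRing_mono
      (Finset.coe_subset.2 (Finset.subset_insert _ _))
  obtain ⟨M, hL, hχ⟩ := exists_meas ℂ
  have hv : M.L * (((Lu ℂ)⁻¹ : (MK ℂ)ˣ) : MK ℂ) = 1 := by rw [hL, Units.mul_inv]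
  have h0 : Sum.elim (0 : Fin r → ℂ) (0 : Fin n → ℂ) ∘ (eH n r).symm = 0 := by
    funext i
    rcases h : (eH n r).symm i with j | j <;> simp [Function.comp_apply, h]
  have hroot : ∀ α : ℂ, SF (fun _ : Fin 1 => univ f) (Sum.elim 0 0) α →
      (∀ b : Polynomial ℂ, IsBFunction (hypF f) b → b.eval α = 0) ∧
      ∀ b : Polynomial ℂ, IsLocalBFunction (hypF f) b → b.eval α = 0 := by
    intro α hα
    have h1 := sf_hypF f _ _ hα
    rw [h0] at h1
    exact ⟨fun b hb => sf_forced h1 b (locEq1_of_eq _ b hb),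
      fun b hb => h1.localBI b (localBI_one _ b hb)⟩
  refine ⟨T, ?_, ?_⟩
  · intro q hq
    rcases Finset.mem_insert.1 hq with rfl | hq
    · refine ⟨by norm_num, by norm_num, ?_⟩
      have h1 : (((-1 : ℤ) : ℂ) / ((1 : ℤ) : ℂ)) = -1 := by norm_num
      simp only
      rw [h1]
      exact hroot _ (sf_minus_one f hf 0)
    · obtain ⟨h1, h2, h3⟩ := hS q hq
      exact ⟨h1, h2, hroot _ (sf_hyp f hf 0 _ ((sf_iff f hf _).2 h3))⟩
  · set v := (((Lu ℂ)⁻¹ : (MK ℂ)ˣ) : MK ℂ) with hvd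
    have h1 := zu_zero M hv f ce_one (fun h => zero_ne_one h) (eps_one M hv)
      (W := ({0} : Set (Pt ℂ (Fin n)))) constr_pt0
    have h4 : (PowerSeries.mk fun N => M.χ _ (JetS (uni f) (WY 0 {0}) {1} N) *
        v ^ (Fintype.card (Fin r ⊕ Fin n) * N) * v ^ Fintype.card (Fin n)) ∈
          ratU (Lu ℂ) (T : Set (ℤ × ℤ)) := by
      rw [h1]
      refine Subalgebra.mul_mem _ (rat_C _ _)
        (Subalgebra.mul_mem _ (gG_mem (Lu ℂ) (Finset.mem_coe.2 (Finset.mem_insert_self _ _)))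
          (hmono ?_))
      rw [zeta_iff hL hχ] at hz
      exact hz
    have h5 := mem_tail _ h4
    have hpt : ({fun i => algebraMap ℂ (AlgebraicClosure ℂ) ((0 : Fin (n + r) → ℂ) i)} :
        Set (Pt ℂ (Fin (n + r)))) = {0} := by
      congr 1
      funext i
      rw [Pi.zero_apply, Pi.zero_apply, map_zero]
    have h6 : zetaX (hypF f) 0 = PowerSeries.C (((Lu ℂ : (MK ℂ)ˣ) : MK ℂ) ^ n) *
        PowerSeries.mk fun N => if N = 0 then 0 else M.χ _ (JetS (uni f) (WY 0 {0}) {1} N) *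
          v ^ (Fintype.card (Fin r ⊕ Fin n) * N) * v ^ Fintype.card (Fin n) := by
      ext N
      unfold zetaX
      rw [PowerSeries.coeff_C_mul, PowerSeries.coeff_mk, PowerSeries.coeff_mk]
      rcases Nat.eq_zero_or_pos N with rfl | hN
      · rw [if_pos rfl, if_pos rfl, mul_zero]
      · rw [if_neg hN.ne', if_neg hN.ne', hpt, ← hχ, hypF_eq,
          chi_jetS_ren0 M (eH n r) (univ f) ce_one N, ← inv_pow_eq, WY_zero, Fintype.card_fin,
          Fintype.card_sum, Fintype.card_fin, Fintype.card_fin, Nat.add_comm r n]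
        have e1 : ((Lu ℂ : (MK ℂ)ˣ) : MK ℂ) ^ n * v ^ n = 1 := by
          rw [← mul_pow, hvd, Units.mul_inv, one_pow]
        have h7 : (univ f) = uni f := rfl
        rw [h7]
        linear_combination (-(M.χ _ (JetS (uni f) {0} {1} N) * v ^ ((n + r) * N))) * e1
    rw [ratRing_eq, h6]
    exact Subalgebra.mul_mem _ (rat_C _ _) h5

end mot

end Pool.Agent.Q57.MD
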