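import Pool.Agent.Y229.SP4

set_option autoImplicit false
set_option linter.unusedSectionVars false
set_option linter.unusedVariables false

/-! # Roots of sums of ideals in disjoint variables -/

namespace Pool.Agent.Q57.MD

open MvPolynomial Pool.Agent.W574.SM Pool.Agent.W574.HS Pool.Agent.W574.LM Pool.Agent.W574.RO
open Pool.Agent.Y229

section

variable {σ τ ι κ : Type} [Fintype ι] [Fintype κ] [DecidableEq ι] [DecidableEq κ]

/-- the value of `A` at `(q, β)` -/
noncomputable def evA (q : τ → ℂ) (β : ℂ) : Polynomial (MvPolynomial τ ℂ) →ₗ[ℂ] ℂ where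
  toFun A := eval q (A.eval (C β))
  map_add' A B := by rw [Polynomial.eval_add, map_add]
  map_smul' a A := by
    rw [Polynomial.eval_smul, smul_eval, RingHom.id_apply, smul_eq_mul]

/-- a functional which detects the root `β` at the point `q` -/
theorem exists_functional (g : κ → MvPolynomial τ ℂ) (q : τ → ℂ) (β : ℂ) (hβ : SF g q β) :
    ∃ φ : AF τ κ →ₗ[ℂ] ℂ, (∀ v ∈ V g 1, φ v = 0) ∧
      ∀ A : Polynomial (MvPolynomial τ ℂ), φ (mulB A (G0 g)) = eval q (A.eval (C β)) := by
  classical
  set W : Submodule ℂ (AF τ κ) := V g 1 ⊔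
    (Submodule.map (mulBL (G0 g)) (LinearMap.ker (evA q β))) with hW
  have h1 : G0 g ∉ W := by
    intro h
    obtain ⟨v, hv, w, hw, e⟩ := Submodule.mem_sup.1 h
    obtain ⟨A, hA, rfl⟩ := hw
    have h2 : mulB (1 - A) (G0 g) ∈ V g 1 := by
      have h3 : mulB (1 - A) (G0 g) = v := by
        rw [mulB_sub, mulB_one]
        exact (eq_sub_of_add_eq e).symm
      rw [h3]
      exact hv
    have h3 := hβ _ h2
    have hq0 : eval q (A.eval (C β)) = 0 := hA
    rw [Polynomial.eval_sub, map_sub, hq0, Polynomial.eval_one, sub_zero, map_one] at h3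
    exact one_ne_zero h3
  obtain ⟨ψ, hψ, hle⟩ := Submodule.exists_le_ker_of_notMem h1
  refine ⟨(ψ (G0 g))⁻¹ • ψ, fun v hv => ?_, fun A => ?_⟩
  · rw [LinearMap.smul_apply, LinearMap.mem_ker.1 (hle (Submodule.mem_sup_left hv)), smul_zero]
  · set a : ℂ := eval q (A.eval (C β)) with ha
    have h2 : mulB A (G0 g) = a • G0 g + mulB (A - Polynomial.C (C a)) (G0 g) := by
      rw [mulB_sub]
      have h3 : mulB (Polynomial.C (C a)) (G0 g) = a • G0 g := by
        funext s
        rw [mulB, Polynomial.eval_C, Pi.smul_apply, C_mul']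
      rw [h3]
      abel
    have h3 : ψ (mulB (A - Polynomial.C (C a)) (G0 g)) = 0 := by
      refine LinearMap.mem_ker.1 (hle (Submodule.mem_sup_right ⟨_, ?_, rfl⟩))
      change eval q ((A - Polynomial.C (C a)).eval (C β)) = 0
      rw [Polynomial.eval_sub, Polynomial.eval_C, map_sub, eval_C, ← ha, sub_self]
    rw [h2, map_add, LinearMap.smul_apply, LinearMap.smul_apply, h3, smul_zero, add_zero, map_smul,
      smul_eq_mul, smul_eq_mul]
    field_simp

/-- the polynomial `B(x, q, S + β)` -/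
noncomputable def shB (q : τ → ℂ) (β : ℂ) (B : Polynomial (MvPolynomial (σ ⊕ τ) ℂ)) :
    Polynomial (MvPolynomial σ ℂ) :=
  (B.map ((evy q : MvPolynomial (σ ⊕ τ) ℂ →ₐ[ℂ] MvPolynomial σ ℂ) :
    MvPolynomial (σ ⊕ τ) ℂ →+* MvPolynomial σ ℂ)).comp (Polynomial.X + Polynomial.C (C β))

theorem shB_add (q : τ → ℂ) (β : ℂ) (B B' : Polynomial (MvPolynomial (σ ⊕ τ) ℂ)) :
    shB q β (B + B') = shB q β B + shB q β B' := by
  rw [shB, Polynomial.map_add, Polynomial.add_comp, shB, shB]

theorem eval_shB (q : τ → ℂ) (β a : ℂ) (B : Polynomial (MvPolynomial (σ ⊕ τ) ℂ)) :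
    (shB q β B).eval (C a) = evy q (B.eval (C (a + β))) := by
  rw [shB, Polynomial.eval_comp, Polynomial.eval_add, Polynomial.eval_X, Polynomial.eval_C,
    ← map_add]
  have h5 : (C (a + β) : MvPolynomial σ ℂ) =
      ((evy q : MvPolynomial (σ ⊕ τ) ℂ →ₐ[ℂ] MvPolynomial σ ℂ) :
        MvPolynomial (σ ⊕ τ) ℂ →+* MvPolynomial σ ℂ) (C (a + β)) := by
    change _ = evy q (C (a + β))
    exact ((evy q : MvPolynomial (σ ⊕ τ) ℂ →ₐ[ℂ] MvPolynomial σ ℂ).commutes (a + β)).symm
  rw [Polynomial.eval_map, h5, Polynomial.eval₂_at_apply]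
  rfl

/-- the slices of `B(x, y, s) ∏ f_j ^ s_j ∏ g_k ^ t_k` -/
theorem slice_mulB (f : ι → MvPolynomial σ ℂ) (g : κ → MvPolynomial τ ℂ) (q : τ → ℂ) (β : ℂ)
    (φ : AF τ κ →ₗ[ℂ] ℂ)
    (hφ : ∀ A : Polynomial (MvPolynomial τ ℂ), φ (mulB A (G0 g)) = eval q (A.eval (C β)))
    (B : Polynomial (MvPolynomial (σ ⊕ τ) ℂ)) (m : σ →₀ ℕ) (s : ι → ℕ) :
    slice φ m s (mulB B (pure (G0 f) (G0 g))) = coeff m (mulB (shB q β B) (G0 f) s) := by
  classical
  have key : ∀ (u : MvPolynomial (σ ⊕ τ) ℂ) (P : MvPolynomial σ ℂ) (Q : MvPolynomial τ ℂ) (n : ℕ),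
      slice φ m s (mulB (Polynomial.C (u * rename Sum.inl P * rename Sum.inr Q) * Polynomial.X ^ n)
        (pure (G0 f) (G0 g))) = coeff m (mulB (shB q β
          (Polynomial.C (u * rename Sum.inl P * rename Sum.inr Q) * Polynomial.X ^ n)) (G0 f) s) := by
    intro u
    induction u using MvPolynomial.induction_on with
    | C a =>
      intro P Q n
      have hR : coeff m (mulB (shB q β
          (Polynomial.C (C a * rename Sum.inl P * rename Sum.inr Q) * Polynomial.X ^ n)) (G0 f) s) =
          coeff m (P * G0 f s) * (a * eval q Q * (((∑ j, s j : ℕ) : ℂ) + β) ^ n) := by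
        rw [mulB, eval_shB, Polynomial.eval_mul, Polynomial.eval_C, Polynomial.eval_pow,
          Polynomial.eval_X, map_mul, map_mul, map_mul, evy_inl, evy_inr, ← map_pow]
        have e1 : evy q (C a : MvPolynomial (σ ⊕ τ) ℂ) = (C a : MvPolynomial σ ℂ) :=
          (evy q : MvPolynomial (σ ⊕ τ) ℂ →ₐ[ℂ] MvPolynomial σ ℂ).commutes a
        have e2 : evy q (C ((((∑ j, s j : ℕ) : ℂ) + β) ^ n) : MvPolynomial (σ ⊕ τ) ℂ) =
            (C ((((∑ j, s j : ℕ) : ℂ) + β) ^ n) : MvPolynomial σ ℂ) :=
          (evy q : MvPolynomial (σ ⊕ τ) ℂ →ₐ[ℂ] MvPolynomial σ ℂ).commutes _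
        rw [e1, e2]
        have e3 : C a * P * C (eval q Q) * C ((((∑ j, s j : ℕ) : ℂ) + β) ^ n) * G0 f s =
            C (a * eval q Q * (((∑ j, s j : ℕ) : ℂ) + β) ^ n) * (P * G0 f s) := by
          rw [C_mul, C_mul]
          ring
        rw [e3, coeff_C_mul, mul_comm]
      rw [hR]
      have hL : (fun t : κ → ℕ => cof m (mulB (Polynomial.C (C a * rename Sum.inl P *
          rename Sum.inr Q) * Polynomial.X ^ n) (pure (G0 f) (G0 g)) (Sum.elim s t))) =
          coeff m (P * G0 f s) • mulB (Polynomial.C (C a * Q) *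
            (Polynomial.X + Polynomial.C (C ((∑ j, s j : ℕ) : ℂ))) ^ n) (G0 g) := by
        funext t
        rw [Pi.smul_apply, mulB, mulB, Polynomial.eval_mul, Polynomial.eval_mul, Polynomial.eval_C,
          Polynomial.eval_C, Polynomial.eval_pow, Polynomial.eval_pow, Polynomial.eval_X,
          Polynomial.eval_add, Polynomial.eval_X, Polynomial.eval_C, ← cof_mul]
        congr 1
        have e5 : pure (G0 f) (G0 g) (Sum.elim s t) =
            (rename Sum.inl (G0 f s) * rename Sum.inr (G0 g t) : MvPolynomial (σ ⊕ τ) ℂ) := rfl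
        have e4 : ((∑ x, Sum.elim s t x : ℕ) : ℂ) = ((∑ k, t k : ℕ) : ℂ) + ((∑ j, s j : ℕ) : ℂ) := by
          rw [Fintype.sum_sum_type]
          simp only [Sum.elim_inl, Sum.elim_inr]
          push_cast
          ring
        rw [e5, e4, ← map_add, map_mul, map_mul, map_mul, map_mul, map_pow, rename_C, rename_C]
        ring
      change φ (fun t : κ → ℕ => cof m (mulB (Polynomial.C (C a * rename Sum.inl P *
          rename Sum.inr Q) * Polynomial.X ^ n) (pure (G0 f) (G0 g)) (Sum.elim s t))) = _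
      rw [hL, map_smul, hφ, smul_eq_mul]
      congr 1
      rw [Polynomial.eval_mul, Polynomial.eval_C, Polynomial.eval_pow, Polynomial.eval_add,
        Polynomial.eval_X, Polynomial.eval_C, ← map_add, ← map_pow, map_mul, map_mul, eval_C,
        eval_C, add_comm β]
    | add u v hu hv =>
      intro P Q n
      have e : (Polynomial.C ((u + v) * rename Sum.inl P * rename Sum.inr Q) * Polynomial.X ^ n :
          Polynomial (MvPolynomial (σ ⊕ τ) ℂ)) =
          Polynomial.C (u * rename Sum.inl P * rename Sum.inr Q) * Polynomial.X ^ n +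
          Polynomial.C (v * rename Sum.inl P * rename Sum.inr Q) * Polynomial.X ^ n := by
        rw [← add_mul, ← map_add]
        congr 2
        ring
      rw [e, mulB_add, map_add, hu, hv, shB_add, mulB_add, Pi.add_apply, coeff_add]
    | mul_X u i hu =>
      intro P Q n
      rcases i with i | i
      · have e : (u * X (Sum.inl i) * rename Sum.inl P * rename Sum.inr Q :
            MvPolynomial (σ ⊕ τ) ℂ) = u * rename Sum.inl (X i * P) * rename Sum.inr Q := by
          rw [map_mul, rename_X]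
          ring
        rw [e]
        exact hu _ _ n
      · have e : (u * X (Sum.inr i) * rename Sum.inl P * rename Sum.inr Q :
            MvPolynomial (σ ⊕ τ) ℂ) = u * rename Sum.inl P * rename Sum.inr (X i * Q) := by
          rw [map_mul, rename_X]
          ring
        rw [e]
        exact hu _ _ n
  induction B using Polynomial.induction_on with
  | C u =>
    have h := key u 1 1 0
    rwa [map_one, map_one, mul_one, mul_one, pow_zero, mul_one] at h
  | add B B' hB hB' =>
    rw [mulB_add, map_add, hB, hB', shB_add, mulB_add, Pi.add_apply, coeff_add]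
  | monomial n u _ =>
    have h := key u 1 1 (n + 1)
    rwa [map_one, map_one, mul_one, mul_one] at h

/-- **Sums of ideals in disjoint variables.** -/
theorem sf_sum (f : ι → MvPolynomial σ ℂ) (g : κ → MvPolynomial τ ℂ) (p : σ → ℂ) (q : τ → ℂ)
    (α β : ℂ) (hα : SF f p α) (hβ : SF g q β) : SF (sumf f g) (Sum.elim p q) (α + β) := by
  classical
  intro B hB
  obtain ⟨φ, hφ1, hφ2⟩ := exists_functional g q β hβ
  obtain ⟨w, hw, e⟩ := slice_V f g φ hφ1 _ hB
  have h1 : mulB (shB q β B) (G0 f) = w := by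
    funext s
    ext m
    rw [← e, G0_sumf, slice_mulB f g q β φ hφ2]
  have h2 := hα (shB q β B) (by rw [h1]; exact hw)
  rw [eval_shB, eval_evy] at h2
  exact h2

end

end Pool.Agent.Q57.MD
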