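import Pool.Agent.Q57.MD.Defs
import Pool.Agent.Q57.MD.RVol
import Pool.Agent.Q57.MD.RRoot2
import Pool.Agent.Q57.MD.HadU
import Pool.Agent.Q57.MD.FVol
import Pool.Agent.Q57.MD.SumSF
import Pool.Agent.Q57.MC.Main

set_option autoImplicit false
set_option linter.unusedSectionVars false
set_option linter.unusedVariables false

/-! # The two series -/

namespace Pool.Agent.Q57.MD

open MvPolynomial Pool.Agent.W428.MOT Pool.Agent.TH192.MT Pool.Agent.TH192.DT Pool.Agent.Q49.CO
open Pool.Agent.Y229 Pool.Agent.Q57.MC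
open Pool.Agent.W574.RO (had)

variable {K : Type} [Field K] {R : Type} [CommRing R] (M : Meas K R)

/-- the series of the volumes of `ord ≥ N`, or of `ord = N` -/
noncomputable def SW (b : Bool) {σ J : Type} [Fintype σ] (v : R) (f : J → MvPolynomial σ K)
    (W : Set (Pt K σ)) : PowerSeries R := if b then VW M v f W else ZW M v f W

section

variable {σ τ J J' : Type} [Fintype σ] [Fintype τ] [Finite J] [Finite J'] {b : Bool}

theorem SW_true (v : R) (f : J → MvPolynomial σ K) (W : Set (Pt K σ)) :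
    SW M true v f W = VW M v f W := by
  unfold SW
  rw [if_pos rfl]

theorem SW_false (v : R) (f : J → MvPolynomial σ K) (W : Set (Pt K σ)) :
    SW M false v f W = ZW M v f W := by
  unfold SW
  rw [if_neg (by simp)]

theorem SW_cover {ι : Type} (v : R) (f : J → MvPolynomial σ K) {A : Type}
    [SetLike A (PowerSeries R)] [AddSubmonoidClass A (PowerSeries R)] (P : A)
    (s : Finset ι) (C : ι → Set (Pt K σ)) (hC : ∀ i, Constr (C i))
    (h : ∀ i ∈ s, ∀ W, Constr W → W ⊆ C i → SW M b v f W ∈ P)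
    (W : Set (Pt K σ)) (hW : Constr W) (hs : ∀ z ∈ W, ∃ i ∈ s, z ∈ C i) : SW M b v f W ∈ P := by
  cases b
  · simp only [SW_false] at h ⊢
    exact ZW_cover M v f P s C hC h W hW hs
  · simp only [SW_true] at h ⊢
    exact VW_cover M v f P s C hC h W hW hs

variable {v : R} (hv : M.L * v = 1)
include hv

theorem SW_off (f : J → MvPolynomial σ K) {W : Set (Pt K σ)} (hW : Constr W)
    (h : ∀ w ∈ W, ∃ j, aeval w (f j) ≠ 0) : ∃ a, SW M b v f W = PowerSeries.C a := by
  cases b
  · exact ⟨_, (SW_false M v f W).trans (ZW_off M hv f hW h)⟩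
  · exact ⟨_, (SW_true M v f W).trans (VW_off M hv f hW h)⟩

theorem SW_chart {κ : Type} [Finite κ] {c : ℕ} (f : J → MvPolynomial σ K)
    (a : Fin c → MvPolynomial σ K) (h : κ → MvPolynomial (Fin c) K) (w : MvPolynomial σ K)
    (hs : Same f h a w) {W : Set (Pt K σ)} (hW : Constr W)
    (hI : Indep a W) (hw : ∀ z ∈ W, aeval z w ≠ 0) :
    SW M b v f W = PowerSeries.C (M.χ σ W * v ^ Fintype.card σ * M.L ^ c) * SW M b v h {0} := by
  cases b
  · rw [SW_false, SW_false]
    exact ZW_chart M hv f a h w hs hW hI hw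
  · rw [SW_true, SW_true]
    exact VW_chart M hv f a h w hs hW hI hw

theorem SW_rel [DecidableEq σ] (T : Finset σ) (f : J → MvPolynomial σ K) (d : ℕ)
    (hf : ∀ j, HT T (f j) d) {W : Set (Pt K σ)} (hW : Constr W)
    (hT : ∀ z w : Pt K σ, (∀ i ∉ T, w i = z i) → z ∈ W → w ∈ W) :
    ∃ (a : R) (n : ℕ), SW M b v f (CT K T ∩ W) =
      (PowerSeries.C a * ∑ N ∈ Finset.range n, PowerSeries.X ^ N +
      PowerSeries.C (v ^ T.card) * PowerSeries.X ^ d * SW M b v f (W ∩ (CT K T)ᶜ)) +
      PowerSeries.C (v ^ T.card) * PowerSeries.X ^ d * SW M b v f (CT K T ∩ W) := by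
  cases b
  · rw [SW_false, SW_false]
    refine ⟨0, 0, ?_⟩
    rw [map_zero, zero_mul, zero_add]
    exact ZW_rel M hv T f d hf hW hT
  · rw [SW_true, SW_true]
    exact ⟨_, _, VW_rel M hv T f d hf hW hT⟩

omit hv [Finite J] in
theorem SW_add [Finite J] (f : J → MvPolynomial σ K) {W W' : Set (Pt K σ)} (hW : Constr W)
    (hW' : Constr W') (hd : Disjoint W W') :
    SW M b v f (W ∪ W') = SW M b v f W + SW M b v f W' := by
  cases b
  · simp only [SW_false]
    exact ZW_add M f hW hW' hd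
  · simp only [SW_true]
    exact VW_add M v f hW hW' hd

/-- a change of the names -/
theorem SW_ren {κ : Type} [Finite κ] (e : σ ≃ τ) (k : J ≃ κ)
    (f : J → MvPolynomial σ K) (g : κ → MvPolynomial τ K) (h : ∀ j, g (k j) = rename e (f j))
    {W : Set (Pt K σ)} {W' : Set (Pt K τ)} (hW : Constr W)
    (hWW : ∀ z, z ∈ W' ↔ (fun i => z (e i)) ∈ W) :
    SW M b v g W' = SW M b v f W := by
  cases b
  · rw [SW_false, SW_false]
    exact ZW_ren M v e k f g h hW hWW
  · rw [SW_true, SW_true]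
    ext N
    rw [coeff_VW, coeff_VW]
    exact vol_ren M v e k f g h hW hWW N

end

section rat

/-- the chart lemma over `ℂ` -/
theorem mem_chartsB {R : Type} [CommRing R] {σ J : Type} [Fintype σ] [Finite J] {b : Bool}
    (M : Meas ℂ R) (u : Rˣ) (hL : M.L = (u : R)) (f : J → MvPolynomial σ ℂ)
    (D : Set (ℤ × ℤ)) (S : Finset (Chart σ))
    (hS : ∀ A ∈ S, A.Fits f) (W : Set (Pt ℂ σ)) (hW : Constr W)
    (hD : ∀ A ∈ S, (∃ p : σ → ℂ, (fun i => algebraMap ℂ (AlgebraicClosure ℂ) (p i)) ∈ W ∧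
      A.Mem p) → SW M b ((u⁻¹ : Rˣ) : R) A.h {0} ∈ ratU u D)
    (h : ∀ p : σ → ℂ, (fun i => algebraMap ℂ (AlgebraicClosure ℂ) (p i)) ∈ W →
      (∀ j, eval p (f j) = 0) → ∃ A ∈ S, A.Mem p) :
    SW M b ((u⁻¹ : Rˣ) : R) f W ∈ ratU u D := by
  classical
  have hv : M.L * ((u⁻¹ : Rˣ) : R) = 1 := by rw [hL, Units.mul_inv]
  set C : Option (Chart σ) → Set (Pt ℂ σ) := fun x => W ∩ (match x with
    | none => {z | ∃ j, aeval z (f j) ≠ 0}
    | some A => Dom A) with hC
  refine SW_cover M _ f (ratU u D) (insert none (S.image some)) C ?_ ?_ W hW ?_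
  · rintro (_ | A)
    · exact hW.inter (Constr.ex fun j => Constr.not (Constr.eqz (IsPF.poly _)))
    · exact hW.inter (constr_Dom A)
  · rintro (_ | A) hA W' hW' hs
    · obtain ⟨a, ha⟩ := SW_off M (b := b) hv f hW' fun w hw => (hs hw).2
      rw [ha]
      exact rat_C u _
    · have hAS : A ∈ S := by
        rcases Finset.mem_insert.1 hA with h1 | h1
        · exact absurd h1 (by simp)
        · obtain ⟨B, hB, h2⟩ := Finset.mem_image.1 h1
          exact (Option.some_injective _ h2) ▸ hB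
      rcases W'.eq_empty_or_nonempty with rfl | ⟨z, hz⟩
      · have h3 : SW M b ((u⁻¹ : Rˣ) : R) f (∅ : Set (Pt ℂ σ)) = 0 := by
          cases b
          · rw [SW_false, ZW_empty]
          · rw [SW_true, VW_empty]
        rw [h3]
        exact zero_mem _
      · rw [SW_chart M hv f A.a A.h A.w (hS A hAS) hW'
          (indep_Dom A W' fun z hz => (hs hz).2) fun z hz => (hs hz).2.2.1]
        refine Subalgebra.mul_mem _ (rat_C u _) (hD A hAS ?_)
        obtain ⟨p, rfl⟩ := exists_pt z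
        exact ⟨p, (hs hz).1, (mem_Dom A p).1 (hs hz).2⟩
  · intro z hz
    by_cases h0 : ∃ j, aeval z (f j) ≠ 0
    · exact ⟨none, Finset.mem_insert_self _ _, hz, h0⟩
    · push Not at h0
      obtain ⟨p, rfl⟩ := exists_pt z
      obtain ⟨A, hA, hp⟩ := h p hz fun j => (aeval_pt_zero p _).1 (h0 j)
      exact ⟨some A, Finset.mem_insert_of_mem (Finset.mem_image_of_mem _ hA), hz,
        (mem_Dom A p).2 hp⟩

end rat

end Pool.Agent.Q57.MD
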